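import Pool.Agent.Q86.EM.Stm2

/-!
# The weighted inequality with a general bound of the fibre constants
-/

set_option autoImplicit false
set_option linter.unusedSectionVars false

namespace Pool.Agent.Q86.EM

open MeasureTheory Set Filter Topology
open scoped ContDiff ENNReal
open Pool.Agent.Q86.FIB

theorem mln : S_MLN := by
  obtain ⟨C, hC, hcr⟩ := base_crude
  refine ⟨6 * C + 2 ^ 36, by positivity, ?_⟩
  intro n W hW h1 s M hs hM hvt hvz hF f hf hfs
  obtain ⟨c, hc⟩ := hvt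
  have hB := hcr 1 n W hW h1 s hs c hc
  obtain ⟨C₀, hC₀⟩ : ∃ C₀, C₀ = C * ((1 : ℕ) + 1) * s := ⟨_, rfl⟩
  rw [← hC₀] at hB
  have hC₀0 : 0 ≤ C₀ := by
    rw [hC₀]
    positivity
  have c0 : Continuous (fun t : Sp 1 => t 0) := continuous_apply 0
  have hB0 : ∀ t : Sp 1, 0 < BB W s (t 0) := fun t => hW.BB_pos h1 hs _
  have cBB : Continuous (fun t : Sp 1 => BB W s (t 0)) := (hW.BB_cont h1 s).comp c0
  have com : Continuous (fun t : Sp 1 => om W (t 0)) := (hW.om_cont h1).comp c0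
  have hom : ∀ t : Sp 1, 1 ≤ om W (t 0) := fun t => hW.om_ge h1 _
  -- the fibre inequality
  have hP0 : ∀ t : Sp 1, 0 ≤ M * om W (t 0) := fun t =>
    mul_nonneg hM (zero_le_one.trans (hom t))
  have hPc : Continuous (fun t : Sp 1 => M * om W (t 0)) := continuous_const.mul com
  have hN := hW.third h1 hs hvz hf hfs
  obtain ⟨Z1, hZ1⟩ : ∃ Z1, Z1 = ∫ t : Sp 1, BB W s (t 0) * fib W (gZ f) t := ⟨_, rfl⟩
  rw [← hZ1] at hN
  have hmain := hW.main_cs' hF hP0 hPc hC₀0 hB h1 hf hfs (N := 80 * Real.sqrt Z1)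
    (by positivity) hN
  refine hmain.trans ?_
  -- comparison of the integrals
  have cgZ := gZ_cont hf
  have pgZ := gZ_pb hf hfs
  have cgT := gT_cont hf
  have pgT := gT_pb hf hfs
  have sgZ : HasCompactSupport (gZ f) := cs_sum _ fun i _ => by
    simp_rw [pow_two]
    exact (pd_supp hfs _).mul_right
  have sgT : HasCompactSupport (gT f) := cs_sum _ fun i _ => by
    simp_rw [pow_two]
    exact (pd_supp hfs _).mul_right
  have com' : Continuous (fun x : Sp 1 × Sp n => om W (x.1 0)) := com.comp continuous_fst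
  have iT : Integrable (fun x => gT f x * Real.exp (-W x)) (vol 1 n) :=
    cc_int _ (cgT.mul hW.wc) sgT.mul_right
  have iZ : Integrable (fun x => gZ f x * Real.exp (-W x)) (vol 1 n) :=
    cc_int _ (cgZ.mul hW.wc) sgZ.mul_right
  have iT' : Integrable (fun x => om W (x.1 0) * gT f x * Real.exp (-W x)) (vol 1 n) :=
    cc_int _ ((com'.mul cgT).mul hW.wc) (sgT.mul_left.mul_right)
  have iZ' : Integrable (fun x => om W (x.1 0) * gZ f x * Real.exp (-W x)) (vol 1 n) :=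
    cc_int _ ((com'.mul cgZ).mul hW.wc) (sgZ.mul_left.mul_right)
  obtain ⟨T, hT⟩ : ∃ T, T = ∫ x, gT f x * Real.exp (-W x) ∂(vol 1 n) := ⟨_, rfl⟩
  obtain ⟨T', hT'⟩ : ∃ T, T = ∫ x, om W (x.1 0) * gT f x * Real.exp (-W x) ∂(vol 1 n) := ⟨_, rfl⟩
  obtain ⟨Z', hZ'⟩ : ∃ Z, Z = ∫ x, om W (x.1 0) * gZ f x * Real.exp (-W x) ∂(vol 1 n) := ⟨_, rfl⟩
  have hT0 : 0 ≤ T := by
    rw [hT]
    exact integral_nonneg fun x => mul_nonneg (gT_nonneg _ x) (Real.exp_pos _).le
  have hTT : T ≤ T' := by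
    rw [hT, hT']
    refine integral_mono iT iT' fun x => mul_le_mul_of_nonneg_right ?_ (Real.exp_pos _).le
    exact le_mul_of_one_le_left (gT_nonneg _ x) (hom x.1)
  have hZ0 : 0 ≤ Z' := by
    rw [hZ']
    refine integral_nonneg fun x => mul_nonneg (mul_nonneg ?_ (gZ_nonneg _ x)) (Real.exp_pos _).le
    exact zero_le_one.trans (hom x.1)
  have eZ1 : Z1 = 2 ^ 19 * s * Z' := by
    have pB : PB (fun x : Sp 1 × Sp n => BB W s (x.1 0) * gZ f x) :=
      PB.of_supp ((cBB.comp continuous_fst).mul cgZ) sgZ.mul_left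
    have h2 := hW.fib_integral pB ((cBB.comp continuous_fst).mul cgZ)
    have h3 : ∫ t, fib W (fun x : Sp 1 × Sp n => BB W s (x.1 0) * gZ f x) t = Z1 := by
      rw [hZ1]
      exact integral_congr_ae (Eventually.of_forall fun t =>
        Std.fib_base (fun t : Sp 1 => BB W s (t 0)) (gZ f) t)
    rw [← h3, ← h2, hZ', ← integral_const_mul]
    refine integral_congr_ae (Eventually.of_forall fun x => ?_)
    simp only [Std.BB_om]
    ring
  obtain ⟨PZ, hPZ⟩ : ∃ Z, Z = ∫ x, (M * om W (x.1 0)) * gZ f x *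
    Real.exp (-W x) ∂(vol 1 n) := ⟨_, rfl⟩
  have hPZ0 : 0 ≤ PZ := by
    rw [hPZ]
    exact integral_nonneg fun x => mul_nonneg (mul_nonneg (hP0 x.1) (gZ_nonneg _ x))
      (Real.exp_pos _).le
  have hPZ1 : PZ ≤ M * Z' := by
    rw [hPZ, hZ', ← integral_const_mul]
    refine le_of_eq (integral_congr_ae (Eventually.of_forall fun x => ?_))
    simp only
    ring
  rw [← hT, ← hPZ]
  have hint : ∫ x, om W (x.1 0) * (gT f x + gZ f x) * Real.exp (-W x) ∂(vol 1 n) = T' + Z' := by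
    rw [hT', hZ', ← integral_add iT' iZ']
    refine integral_congr_ae (Eventually.of_forall fun x => ?_)
    simp only
    ring
  rw [hint]
  have s1 : Real.sqrt C₀ ^ 2 = C₀ := Real.sq_sqrt hC₀0
  have s2 : Real.sqrt T ^ 2 = T := Real.sq_sqrt hT0
  have s3 : Real.sqrt PZ ^ 2 = PZ := Real.sq_sqrt hPZ0
  have hZ10 : 0 ≤ Z1 := by
    rw [eZ1]
    positivity
  have s4 : Real.sqrt Z1 ^ 2 = Z1 := Real.sq_sqrt hZ10
  have s5 : (Real.sqrt C₀ * Real.sqrt T + Real.sqrt PZ + 80 * Real.sqrt Z1) ^ 2 ≤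
      3 * ((Real.sqrt C₀ * Real.sqrt T) ^ 2 + Real.sqrt PZ ^ 2 + (80 * Real.sqrt Z1) ^ 2) := by
    nlinarith [sq_nonneg (Real.sqrt C₀ * Real.sqrt T - Real.sqrt PZ),
      sq_nonneg (Real.sqrt C₀ * Real.sqrt T - 80 * Real.sqrt Z1),
      sq_nonneg (Real.sqrt PZ - 80 * Real.sqrt Z1)]
  rw [mul_pow, mul_pow, s1, s2, s3, s4] at s5
  have hCT : C₀ * T ≤ 2 * C * s * T' := by
    have : C₀ = 2 * C * s := by
      rw [hC₀]
      push_cast
      ring
    rw [this]
    exact mul_le_mul_of_nonneg_left hTT (by positivity)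
  have hT0' : 0 ≤ T' := hT0.trans hTT
  have f1 : (Real.sqrt C₀ * Real.sqrt T + Real.sqrt PZ + 80 * Real.sqrt Z1) ^ 2 + PZ ≤
      6 * C * s * T' + (4 * M + 19200 * 2 ^ 19 * s) * Z' := by
    have e : 80 ^ 2 * Z1 * 3 = 19200 * 2 ^ 19 * s * Z' := by
      rw [eZ1]
      ring
    linarith
  refine f1.trans ?_
  have g1 : 6 * C * s * T' ≤ (6 * C + 2 ^ 36) * (M + s) * T' := by
    refine mul_le_mul_of_nonneg_right ?_ hT0'
    have q1 : s ≤ M + s := by linarith
    calc 6 * C * s ≤ (6 * C + 2 ^ 36) * s := mul_le_mul_of_nonneg_right (by linarith) hs.le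
      _ ≤ _ := mul_le_mul_of_nonneg_left q1 (by positivity)
  have g2 : (4 * M + 19200 * 2 ^ 19 * s) * Z' ≤ (6 * C + 2 ^ 36) * (M + s) * Z' := by
    refine mul_le_mul_of_nonneg_right ?_ hZ0
    have q3 : 0 ≤ 6 * C * (M + s) := by positivity
    have q4 : 4 * M + 19200 * 2 ^ 19 * s ≤ 2 ^ 36 * (M + s) := by
      norm_num
      nlinarith
    nlinarith
  linarith

end Pool.Agent.Q86.EM
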