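import Pool.Agent.Q86.EM.Asm1
import Pool.Agent.Q86.EM.Mln
import Pool.Agent.Q262.EM.Mol
import Pool.Agent.Q65.EM.Lmb
import Pool.Agent.Q151.EM.Emp
import Pool.Agent.Q151.EM.Slg
import Pool.Agent.Q151.EM.Lpb
import Pool.Agent.Q251.EM.Slc
import Pool.Agent.Q182.EM.Crb
import Pool.Agent.Q193.EM.Fbb
import Pool.Agent.Q124.EM.TLB
import Pool.Agent.Q124.EM.COA
import Pool.Agent.Q162.EM.One
import Pool.Agent.Q275.EM.Ind

/-!
# KLS passes from the parallel sections of a convex body to the body: assembly of part II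

Proofs of the lemmas by helpers 65, 124, 151, 162, 182, 193, 251, 262, 275.
-/

set_option autoImplicit false

namespace Pool.Agent.Q86.EM

theorem p_mol : S_MOL := Pool.Agent.Q262.EM.mol

theorem p_lmb : S_LMB := Pool.Agent.Q65.EM.lmb

theorem p_empc : S_EMPc := Pool.Agent.Q151.EM.empc em

theorem p_slg : S_SLG := Pool.Agent.Q151.EM.slg

theorem p_slc : S_SLC := Pool.Agent.Q251.EM.slc p_slg

theorem p_crb : S_CRB := Pool.Agent.Q182.EM.crb

theorem p_fbb : S_FBB := Pool.Agent.Q193.EM.fbb p_empc p_slg p_slc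

theorem p_tlb : S_TLB := Pool.Agent.Q124.EM.tlb p_lmb p_mol

theorem p_coa : S_COA := Pool.Agent.Q124.EM.coa p_lmb p_mol

theorem p_lpb : S_LPB := Pool.Agent.Q151.EM.lpb p_lmb p_mol em

/-- **one step** -/
theorem p_one : S_ONE := Pool.Agent.Q162.EM.one p_fbb mln p_lpb p_crb p_tlb p_coa p_slg

/-- **KLS passes from the parallel sections of codimension `m` to the body**, Poincare form -/
theorem p_ind : S_IND := Pool.Agent.Q275.EM.ind p_one

end Pool.Agent.Q86.EM
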