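import Pool.Agent.Q86.EM.Stm4
import Pool.Agent.Q86.EM.Asm2

/-!
# From Q1 to the Poincare form, for convex bodies
-/

set_option autoImplicit false

namespace Pool.Agent.Q86.EM

open MeasureTheory Set Filter Topology
open scoped ENNReal InnerProductSpace ContDiff
open Pool.Agent.W695.KH (EV VV)
open Pool.Agent.Q188.SB (un bdr)
open Pool.Agent.Q162.EM (vol_pos EV_nn VV_nn PI_mono)

variable {κ : Type} [Fintype κ]

theorem CV_mono' {D : Set (Eu κ)} {s s' : ℝ} (h : s ≤ s') (hs : CV D s) : CV D s' := fun θ =>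
  (hs θ).trans (mul_le_mul_of_nonneg_right h (sq_nonneg _))

theorem CV_nn' [Nonempty κ] {D : Set (Eu κ)} (hD : CB D) {s : ℝ} (hs : CV D s) : 0 ≤ s := by
  classical
  obtain ⟨i⟩ := ‹Nonempty κ›
  have h1 := hs (EuclideanSpace.single i (1 : ℝ))
  have h2 : 0 ≤ VV D (fun x => ⟪(EuclideanSpace.single i (1 : ℝ) : Eu κ), x⟫_ℝ) :=
    VV_nn hD _ (continuous_const.inner continuous_id)
  rw [PiLp.norm_single] at h1
  simp only [norm_one, one_pow, mul_one] at h1
  exact h2.trans h1

/-- in dimension zero every Poincare inequality holds -/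
theorem PI_zero [IsEmpty κ] {D : Set (Eu κ)} (hD : CB D) (c : ℝ) : PI D c := by
  intro f hf
  have hsub : Subsingleton (Eu κ) := by
    constructor
    intro a b
    ext i
    exact (IsEmpty.false i).elim
  have hv := vol_pos hD
  have e1 : f = fun _ => f 0 := by
    funext x
    rw [Subsingleton.elim x 0]
  have e2 : VV D f = 0 := by
    rw [e1]
    unfold VV EV
    rw [setIntegral_const, setIntegral_const]
    simp only [smul_eq_mul, Measure.real]
    field_simp
    ring
  have e3 : (fun x => ‖fderiv ℝ f x‖ ^ 2) = fun _ => (0 : ℝ) := by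
    funext x
    have : fderiv ℝ f x = 0 := by
      ext v
      rw [Subsingleton.elim v 0]
      simp
    rw [this]
    simp
  rw [e2, e3]
  unfold EV
  simp

/-- a Poincare inequality for all slightly larger bounds -/
theorem PI_closed {D : Set (Eu κ)} {K s : ℝ} (hK : 0 ≤ K) (hpos : ∀ ε : ℝ, 0 < ε → PI D (K * (s + ε))) :
    PI D (K * s) := by
  intro f hf
  obtain ⟨E, hE⟩ : ∃ E, E = EV D fun x => ‖fderiv ℝ f x‖ ^ 2 := ⟨_, rfl⟩
  have hE0 : 0 ≤ E := by
    rw [hE]
    exact EV_nn D _ fun x => sq_nonneg _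
  rw [← hE]
  apply le_of_forall_pos_le_add
  intro δ hδ
  have hCk : 0 ≤ K * E := by positivity
  obtain ⟨ε, hε⟩ : ∃ ε : ℝ, ε = δ / (K * E + 1) := ⟨_, rfl⟩
  have hε0 : 0 < ε := by
    rw [hε]
    positivity
  have h := hpos ε hε0 f hf
  rw [← hE] at h
  refine h.trans ?_
  have h8 : K * E * ε ≤ δ := by
    rw [hε]
    calc K * E * (δ / (K * E + 1)) = δ * ((K * E) / (K * E + 1)) := by ring
      _ ≤ δ * 1 := by
          apply mul_le_mul_of_nonneg_left _ hδ.le
          rw [div_le_one (by linarith)]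
          linarith
      _ = δ := mul_one δ
  calc K * (s + ε) * E = K * s * E + K * E * ε := by ring
    _ ≤ K * s * E + δ := by linarith

/-- Milman's theorem for convex bodies -/
theorem body_em : ∃ C : ℝ, 1 ≤ C ∧ ∀ (κ : Type) [Fintype κ] (D : Set (Eu κ)), CB D → ∀ D₀ : ℝ,
    (∀ f : Eu κ → ℝ, ContDiff ℝ 1 f → (∀ x, ‖fderiv ℝ f x‖ ≤ 1) → VV D f ≤ D₀) → PI D (C * D₀) := by
  obtain ⟨C, hC, H⟩ := em
  refine ⟨max C 1, le_max_right _ _, ?_⟩
  intro κ _ D hD D₀ key f hf
  have hvr := vol_pos hD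
  have hvol : 0 < volume D :=
    (isOpen_interior.measure_pos _ hD.int).trans_le (measure_mono interior_subset)
  have hD0 : 0 ≤ D₀ := by
    have h4 := key (fun _ => 0) contDiff_const (fun x => by simp)
    have e1 : VV D (fun _ : Eu κ => (0 : ℝ)) = 0 := by
      unfold Pool.Agent.W695.KH.VV Pool.Agent.W695.KH.EV
      simp
    rw [e1] at h4
    exact h4
  have hLC := Pool.Agent.Q188.SB.LC_rr D hD.cpt hD.cvx hvol
  have hmass := Pool.Agent.Q188.SB.mass_rr D hD.cpt hvol
  have hm := hD.cpt.measurableSet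
  have h4 := H κ (Pool.Agent.Q188.SB.rr D) hLC hmass D₀ (fun v hv hv1 => by
    rw [Pool.Agent.Q188.SB.int_rr D hm, Pool.Agent.Q188.SB.int_rr D hm]
    exact key v hv hv1) f hf
  rw [Pool.Agent.Q188.SB.int_rr D hm, Pool.Agent.Q188.SB.int_rr D hm,
    Pool.Agent.Q188.SB.int_rr D hm] at h4
  refine (show VV D f ≤ _ from h4).trans ?_
  have h5 : 0 ≤ EV D fun x => ‖fderiv ℝ f x‖ ^ 2 :=
    div_nonneg (integral_nonneg fun x => sq_nonneg _) hvr.le
  have h6 : C * D₀ ≤ max C 1 * D₀ := mul_le_mul_of_nonneg_right (le_max_left _ _) hD0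
  exact mul_le_mul_of_nonneg_right h6 h5

theorem chp (h1 : S_CHL) (h2 : S_HLF) : S_CHP := by
  obtain ⟨C₁, hC₁, H1⟩ := h1
  obtain ⟨c, hc, H2⟩ := h2
  obtain ⟨C₃, hC₃, H3⟩ := body_em
  obtain ⟨C, hCd⟩ : ∃ C : ℝ, C = max 1 (C₃ * (C₁ / c ^ 2)) := ⟨_, rfl⟩
  have hC1 : 1 ≤ C := by
    rw [hCd]
    exact le_max_left _ _
  refine ⟨C, hC1, ?_⟩
  intro κ _ D hD k hk hkls s hCV
  have hk0 : 0 < k := by linarith
  rcases isEmpty_or_nonempty κ with hκ | hκ
  · exact PI_zero hD _
  have hs0 := CV_nn' hD hCV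
  have pos : ∀ s : ℝ, 0 < s → CV D s → PI D (C * k ^ 2 * s) := by
    intro s hs hCV
    have hsq : 0 < Real.sqrt s := Real.sqrt_pos.2 hs
    have hh := hkls (ENNReal.ofReal (c / Real.sqrt s)) (fun u b hu => H2 κ D hD s hs hCV u b hu)
    have h3 := H1 κ D hD (c / Real.sqrt s / k) (by positivity) (fun A hA => by
      have h4 := hh A hA
      have h5 : ENNReal.ofReal (c / Real.sqrt s / k) =
          ENNReal.ofReal k⁻¹ * ENNReal.ofReal (c / Real.sqrt s) := by
        rw [← ENNReal.ofReal_mul (by positivity)]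
        congr 1
        rw [div_eq_mul_inv (c / Real.sqrt s) k, mul_comm]
      calc ENNReal.ofReal (c / Real.sqrt s / k) * min (un D A) (1 - un D A)
          = ENNReal.ofReal k⁻¹ * (ENNReal.ofReal (c / Real.sqrt s) *
              min (un D A) (1 - un D A)) := by rw [h5, mul_assoc]
        _ ≤ ENNReal.ofReal k⁻¹ * (ENNReal.ofReal k * bdr (un D) A) := mul_le_mul_right h4 _
        _ = bdr (un D) A := by
            rw [← mul_assoc, ← ENNReal.ofReal_mul (by positivity), inv_mul_cancel₀ hk0.ne',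
              ENNReal.ofReal_one, one_mul])
    have h6 := H3 κ D hD _ h3
    refine PI_mono ?_ h6
    have e1 : C₁ / (c / Real.sqrt s / k) ^ 2 = C₁ / c ^ 2 * (k ^ 2 * s) := by
      rw [div_pow, div_pow, Real.sq_sqrt hs.le]
      field_simp
    rw [e1]
    calc C₃ * (C₁ / c ^ 2 * (k ^ 2 * s)) = C₃ * (C₁ / c ^ 2) * (k ^ 2 * s) := by ring
      _ ≤ C * (k ^ 2 * s) := by
          refine mul_le_mul_of_nonneg_right ?_ (by positivity)
          rw [hCd]
          exact le_max_right _ _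
      _ = C * k ^ 2 * s := by ring
  refine PI_closed (by positivity) fun ε hε => pos (s + ε) (by linarith) (CV_mono' (by linarith) hCV)

end Pool.Agent.Q86.EM
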