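import Pool.Agent.Q86.EM.Stm4
import Pool.Agent.Q86.EM.Asm2

/-!
# One step for smooth log-concave measures
-/

set_option autoImplicit false

namespace Pool.Agent.Q86.EM

open MeasureTheory Set Filter Topology
open scoped ENNReal InnerProductSpace ContDiff
open Pool.Agent.Q86.FIB
open Pool.Agent.Q124.EM (mean about inner_eq spl_fst spl_snd nW onSp_spl spl_integrable_iff)
open Pool.Agent.Q162.EM (scal_cov scal_P)

section pot

variable {κ : Type} [Fintype κ] {U : Eu κ → ℝ}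

theorem Pot.cont (hU : Pot U) : Continuous U := hU.htg.1.continuous

theorem Pot.wc (hU : Pot U) : Continuous (fun x => Real.exp (-U x)) := hU.cont.neg.rexp

theorem Pot.pos (hU : Pot U) : 0 < ∫ y, Real.exp (-U y) := by
  rw [integral_pos_iff_support_of_nonneg (fun z => (Real.exp_pos _).le) hU.int]
  have h2 : Function.support (fun z => Real.exp (-U z)) = univ := by
    ext z
    simp [(Real.exp_pos _).ne']
  rw [h2]
  exact isOpen_univ.measure_pos _ ⟨0, mem_univ _⟩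

theorem Pot.rd (hU : Pot U) : RD (fun x => Real.exp (-U x)) := by
  obtain ⟨c, b, hc, h⟩ := linear_growth (volume : Measure (Eu κ)) hU.conv hU.cont hU.int
  exact RD.exp hc h

theorem Pot.integrable (hU : Pot U) {H : Eu κ → ℝ} (hH : PB H) (hc : Continuous H) :
    Integrable (fun x => H x * Real.exp (-U x)) :=
  (hU.rd.mul hH).integrable volume (hc.mul hU.wc)

end pot

variable {n : ℕ} {U : EK 1 n → ℝ}

/-- the facts on the normalised potential -/
theorem std_pot (hU : Pot U) : Std (nW U) ∧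
      ∫ t, dens (nW U) t = 1 ∧ ∀ F : Sp 1 × Sp n → ℝ, ∫ x, F x * Real.exp (-nW U x) ∂(vol 1 n) =
        (∫ y, F (spl 1 n y) * Real.exp (-U y)) / ∫ y, Real.exp (-U y) := by
  have i1 := hU.int
  have hZ := hU.pos
  have hexp : ∀ y, Real.exp (-nW U (spl 1 n y)) =
      Real.exp (-U y) / ∫ y, Real.exp (-U y) := by
    intro y
    unfold nW
    rw [onSp_spl, neg_add, Real.exp_add, Real.exp_neg (Real.log _), Real.exp_log hZ]
    rfl
  have hF : ∀ F : Sp 1 × Sp n → ℝ, ∫ x, F x * Real.exp (-nW U x) ∂(vol 1 n) =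
        (∫ y, F (spl 1 n y) * Real.exp (-U y)) / ∫ y, Real.exp (-U y) := by
    intro F
    rw [← spl_int (fun x => F x * Real.exp (-nW U x)), ← integral_div]
    refine integral_congr_ae (Eventually.of_forall fun y => ?_)
    simp only
    rw [hexp]
    ring
  have hstd : Std (nW U) := by
    refine ⟨?_, ?_, ?_⟩
    · have h3 : Function.HasTemperateGrowth (onSp U) :=
        hU.htg.comp ((spl 1 n).symm : Sp 1 × Sp n →L[ℝ] EK 1 n).hasTemperateGrowth
      exact h3.add (Function.HasTemperateGrowth.const _)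
    · have h3 : ConvexOn ℝ univ (onSp U) := by
        have h4 := hU.conv.comp_linearMap ((spl 1 n).symm : Sp 1 × Sp n →L[ℝ] EK 1 n).toLinearMap
        exact h4
      exact h3.add (convexOn_const _ convex_univ)
    · rw [← spl_integrable_iff (fun x => Real.exp (-nW U x))]
      simp_rw [hexp]
      exact i1.div_const _
  refine ⟨hstd, ?_, hF⟩
  rw [hstd.tot_dens]
  have h3 := hF (fun _ => 1)
  simp_rw [one_mul] at h3
  rw [h3, div_self hZ.ne']

/-- the variances of the coordinates -/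
theorem var_pot (hU : Pot U) {s : ℝ} (hs : CVm U s) :
    (∃ c : Sp 1, ∀ a, ∫ t, (t a - c a) ^ 2 * dens (nW U) t ≤ s) ∧
    ∀ θ : Sp n, ∑ i, θ i ^ 2 = 1 →
      ∃ c, ∫ x, lin θ c x.2 ^ 2 * Real.exp (-nW U x) ∂(vol 1 n) ≤ s := by
  obtain ⟨hstd, hone, hF⟩ := std_pot hU
  have hZ := hU.pos
  have pin : ∀ θ : EK 1 n, PB (fun x : EK 1 n => ⟪θ, x⟫_ℝ) := fun θ =>
    PB.of_htg (innerSL ℝ θ).hasTemperateGrowth
  have cin : ∀ θ : EK 1 n, Continuous (fun x : EK 1 n => ⟪θ, x⟫_ℝ) := fun θ =>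
    continuous_const.inner continuous_id
  have key : ∀ θ : EK 1 n, ‖θ‖ = 1 → ∀ c : ℝ,
      c = mean (fun x => Real.exp (-U x)) (fun x => ⟪θ, x⟫_ℝ) →
      (∫ y, (⟪θ, y⟫_ℝ - c) ^ 2 * Real.exp (-U y)) / ∫ y, Real.exp (-U y) ≤ s := by
    intro θ hθ c hc
    rw [about hZ (hU.integrable (pin θ) (cin θ)) (hU.integrable ((pin θ).pow 2) ((cin θ).pow 2))
      hU.int hc]
    have h1 := hs θ
    rw [hθ, one_pow, mul_one] at h1
    unfold mean
    obtain ⟨Z, hZd⟩ : ∃ Z, Z = ∫ y, Real.exp (-U y) := ⟨_, rfl⟩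
    rw [← hZd] at h1 hZ ⊢
    obtain ⟨a, ha⟩ : ∃ a, a = ∫ x, ⟪θ, x⟫_ℝ ^ 2 * Real.exp (-U x) := ⟨_, rfl⟩
    obtain ⟨b, hb⟩ : ∃ b, b = ∫ x, ⟪θ, x⟫_ℝ * Real.exp (-U x) := ⟨_, rfl⟩
    rw [← ha, ← hb] at h1 ⊢
    have h6 : a / Z - (b / Z) ^ 2 = (Z * a - b ^ 2) / Z ^ 2 := by
      field_simp
    rw [h6, div_le_iff₀ (by positivity)]
    exact h1
  refine ⟨?_, ?_⟩
  · refine ⟨fun _ => mean (fun x => Real.exp (-U x))
      (fun x => ⟪(EuclideanSpace.single (Sum.inl 0) 1 : EK 1 n), x⟫_ℝ), fun a => ?_⟩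
    obtain ⟨c, hc⟩ : ∃ c, c = mean (fun x => Real.exp (-U x))
      (fun x => ⟪(EuclideanSpace.single (Sum.inl 0) 1 : EK 1 n), x⟫_ℝ) := ⟨_, rfl⟩
    rw [← hc]
    have ha : a = 0 := Subsingleton.elim _ _
    subst ha
    have h3 := key (EuclideanSpace.single (Sum.inl 0) 1) (by simp) c hc
    refine le_trans (le_of_eq ?_) h3
    have hpb : PB (fun x : Sp 1 × Sp n => (x.1 0 - c) ^ 2) := by
      have h4 : Function.HasTemperateGrowth (fun x : Sp 1 × Sp n => x.1 0) :=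
        ((ContinuousLinearMap.proj (R := ℝ) (φ := fun _ : Fin 1 => ℝ) 0).comp
          (ContinuousLinearMap.fst ℝ (Sp 1) (Sp n))).hasTemperateGrowth
      exact ((PB.of_htg h4).sub (PB.const c)).pow 2
    have hcont : Continuous (fun x : Sp 1 × Sp n => (x.1 0 - c) ^ 2) := by fun_prop
    have h5 := hstd.fib_integral hpb hcont
    have h6 : ∀ t : Sp 1, fib (nW U) (fun x : Sp 1 × Sp n => (x.1 0 - c) ^ 2) t =
        (t 0 - c) ^ 2 * dens (nW U) t := by
      intro t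
      rw [dens_eq, ← Std.fib_base (fun t : Sp 1 => (t 0 - c) ^ 2)]
      refine Std.fib_congr t fun z => ?_
      simp
    simp_rw [h6] at h5
    rw [← h5, hF (fun x => (x.1 0 - c) ^ 2)]
    congr 1
    refine integral_congr_ae (Eventually.of_forall fun y => ?_)
    simp only
    rw [spl_fst, EuclideanSpace.inner_single_left]
    simp
  · intro θ hθ
    set θ' : EK 1 n := WithLp.toLp 2 (Sum.elim (fun _ => 0) θ) with hθ'
    have hn : ‖θ'‖ = 1 := by
      have h3 : ‖θ'‖ ^ 2 = 1 := by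
        rw [EuclideanSpace.norm_sq_eq, Fintype.sum_sum_type, ← hθ]
        simp [hθ']
      nlinarith [norm_nonneg θ']
    obtain ⟨c, hc⟩ : ∃ c, c = mean (fun x => Real.exp (-U x)) (fun x => ⟪θ', x⟫_ℝ) := ⟨_, rfl⟩
    refine ⟨c, ?_⟩
    have h3 := key θ' hn c hc
    refine le_trans (le_of_eq ?_) h3
    rw [hF (fun x => lin θ c x.2 ^ 2)]
    congr 1
    refine integral_congr_ae (Eventually.of_forall fun y => ?_)
    simp only
    congr 2
    unfold lin
    rw [inner_eq, Fintype.sum_sum_type]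
    simp [hθ', spl_snd]

/-- integrals over a fibre -/
theorem fib_lp (U : EK 1 n → ℝ) (t : ℝ) (H : Sp n → ℝ) :
    ∫ z, H z * Real.exp (-onSp U (oo t, z)) = ∫ x, H (lp n x) * Real.exp (-U (pt n t x)) := by
  have := lp_int (m := n) (fun z => H z * Real.exp (-onSp U (oo t, z)))
  rw [← this]
  rfl

theorem dens_lp (U : EK 1 n → ℝ) (t : ℝ) :
    dens (onSp U) (oo t) = ∫ x, Real.exp (-U (pt n t x)) := by
  unfold dens
  have := fib_lp U t (fun _ => 1)
  simp only [one_mul] at this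
  exact this

theorem cvm_of_cov {t σ : ℝ} (h : CovF (onSp U) (oo t) σ) :
    CVm (fun z : Eu (Fin n) => U (pt n t z)) σ := by
  intro θ
  have hcv := h (lp n θ)
  rw [dens_lp] at hcv
  unfold fib at hcv
  simp only at hcv
  rw [fib_lp U t (fun z => (∑ i, lp n θ i * z i) ^ 2), fib_lp U t (fun z => ∑ i, lp n θ i * z i),
    ← lp_norm_sq] at hcv
  have hin : ∀ x : Eu (Fin n), ∑ i, lp n θ i * lp n x i = ⟪θ, x⟫_ℝ := by
    intro x
    rw [PiLp.inner_apply]
    refine Finset.sum_congr rfl fun i _ => ?_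
    show θ i * x i = _
    simp [mul_comm]
  simp_rw [hin] at hcv
  exact hcv

theorem fib_of_pim {t c : ℝ} (h : PIm (fun z : Eu (Fin n) => U (pt n t z)) c) {φ : Sp n → ℝ}
    (hφ : ContDiff ℝ 1 φ) (hφs : HasCompactSupport φ) :
    dens (onSp U) (oo t) * (∫ z, φ z ^ 2 * Real.exp (-onSp U (oo t, z))) -
        (∫ z, φ z * Real.exp (-onSp U (oo t, z))) ^ 2 ≤
      c * dens (onSp U) (oo t) *
        ∫ z, (∑ i, (pd (sv i) φ z) ^ 2) * Real.exp (-onSp U (oo t, z)) := by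
  have key := h (fun x => φ (lp n x + 0)) (comp_smooth hφ 0) (by
    have h5 : (fun x : Eu (Fin n) => φ (lp n x + 0)) = φ ∘ (lp n).toHomeomorph := by
      funext x
      simp
    rw [h5]
    exact hφs.comp_homeomorph _)
  simp_rw [norm_fderiv_sq hφ] at key
  simp only [add_zero] at key
  rw [dens_lp, fib_lp U t (fun z => φ z ^ 2), fib_lp U t φ, fib_lp U t (fun z => ∑ i, (pd (sv i) φ z) ^ 2)]
  exact key

theorem PIm_mono {κ : Type} [Fintype κ] {V : Eu κ → ℝ} {c c' : ℝ} (h : c ≤ c') (hc : PIm V c) :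
    PIm V c' := fun f hf hs => (hc f hf hs).trans (mul_le_mul_of_nonneg_right
      (mul_le_mul_of_nonneg_right h (integral_nonneg fun _ => (Real.exp_pos _).le))
      (integral_nonneg fun _ => mul_nonneg (sq_nonneg _) (Real.exp_pos _).le))

/-- the Poincare inequality of a smooth log-concave measure from its Lipschitz functions -/
theorem pot_em : ∃ C : ℝ, 0 < C ∧ ∀ (κ : Type) [Fintype κ] (V : Eu κ → ℝ), Pot V → ∀ D : ℝ,
    (∀ f : Eu κ → ℝ, ContDiff ℝ 1 f → (∀ x, ‖fderiv ℝ f x‖ ≤ 1) →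
      (∫ x, f x ^ 2 * Real.exp (-V x)) / (∫ x, Real.exp (-V x)) -
        ((∫ x, f x * Real.exp (-V x)) / ∫ x, Real.exp (-V x)) ^ 2 ≤ D) → PIm V (C * D) := by
  obtain ⟨C, hC, H⟩ := p_empc
  refine ⟨C, hC, ?_⟩
  intro κ _ V hV D hD f hf hfs
  have hZ := hV.pos
  obtain ⟨Z, hZd⟩ : ∃ Z, Z = ∫ y, Real.exp (-V y) := ⟨_, rfl⟩
  rw [← hZd] at hZ hD ⊢
  obtain ⟨g, hg⟩ : ∃ g : Eu κ → ℝ, g = fun z => Real.exp (-V z - Real.log Z) := ⟨_, rfl⟩
  have hgZ : ∀ z, g z = Real.exp (-V z) / Z := fun z => by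
    rw [hg]
    simp only
    rw [Real.exp_sub, Real.exp_log hZ]
  have hgi : ∀ H : Eu κ → ℝ, ∫ x, H x * g x = (∫ x, H x * Real.exp (-V x)) / Z := by
    intro H
    simp_rw [hgZ, ← mul_div_assoc]
    exact integral_div _ _
  have hgI : ∀ H : Eu κ → ℝ, Integrable (fun x => H x * Real.exp (-V x)) →
      Integrable (fun x => H x * g x) := by
    intro H hH
    simp_rw [hgZ, ← mul_div_assoc]
    exact hH.div_const _
  have key := H κ g (fun x => by rw [hg]; exact Real.exp_pos _) (by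
      rw [hg]
      exact Real.continuous_exp.comp (hV.cont.neg.sub continuous_const)) (fun x y s hs0 hs1 => by
      rw [hg]
      simp only
      rw [← Real.exp_mul, ← Real.exp_mul, ← Real.exp_add]
      refine Real.exp_le_exp.2 ?_
      have h5 := hV.conv.2 (mem_univ x) (mem_univ y) (by linarith : 0 ≤ 1 - s) hs0.le
        (by ring)
      simp only [smul_eq_mul] at h5
      nlinarith) (by
      refine hgI (fun x => (1 + ‖x‖) ^ 2) (hV.integrable ?_ (by fun_prop))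
      refine ⟨2, 1, fun x => ?_⟩
      rw [one_mul, Real.norm_of_nonneg (by positivity)]) (by
      have := hgi (fun _ => 1)
      simp only [one_mul] at this
      rw [this, ← hZd, div_self hZ.ne']) D (fun f hf hf1 => by
      rw [hgi f, hgi (fun x => f x ^ 2)]
      exact hD f hf hf1) f hf hfs
  rw [hgi f, hgi (fun x => f x ^ 2), hgi (fun x => ‖fderiv ℝ f x‖ ^ 2)] at key
  obtain ⟨a1, ha1⟩ : ∃ a1, a1 = ∫ x, f x ^ 2 * Real.exp (-V x) := ⟨_, rfl⟩
  obtain ⟨a2, ha2⟩ : ∃ a2, a2 = ∫ x, f x * Real.exp (-V x) := ⟨_, rfl⟩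
  obtain ⟨a3, ha3⟩ : ∃ a3, a3 = ∫ x, ‖fderiv ℝ f x‖ ^ 2 * Real.exp (-V x) := ⟨_, rfl⟩
  rw [← ha1, ← ha2, ← ha3] at key ⊢
  have h5 := mul_le_mul_of_nonneg_left key (by positivity : 0 ≤ Z ^ 2)
  have h6 : Z ^ 2 * (a1 / Z - (a2 / Z) ^ 2) = Z * a1 - a2 ^ 2 := by
    field_simp
  have h7 : Z ^ 2 * (C * D * (a3 / Z)) = C * D * Z * a3 := by
    field_simp
  rw [h6, h7] at h5
  exact h5

theorem CVm_nn (hU : Pot U) {s : ℝ} (hs : CVm U s) : 0 ≤ s := by
  obtain ⟨c, hc⟩ := (var_pot hU hs).1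
  refine le_trans (integral_nonneg fun t => mul_nonneg (sq_nonneg _) ?_) (hc 0)
  unfold dens
  exact integral_nonneg fun z => (Real.exp_pos _).le

theorem onm : S_ONM := by
  obtain ⟨C₂, hC₂, H2⟩ := mln
  obtain ⟨C₃, hC₃, H3⟩ := pot_em
  obtain ⟨C, hCd⟩ : ∃ C : ℝ, C = max 1 (C₃ * (8 / 3 * (C₂ * (2 ^ 19 + 1)))) := ⟨_, rfl⟩
  have hC1 : 1 ≤ C := by
    rw [hCd]
    exact le_max_left _ _
  have hC2 : C₃ * (8 / 3 * (C₂ * (2 ^ 19 + 1))) ≤ C := by
    rw [hCd]
    exact le_max_right _ _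
  refine ⟨C, hC1, ?_⟩
  intro n U hU k hk hfib
  have hk0 : 0 < k := by linarith
  obtain ⟨hstd, hone, hF⟩ := std_pot hU
  have hZ := hU.pos
  have pos : ∀ s : ℝ, 0 < s → CVm U s → PIm U (C * k * s) := by
    intro s hs hCV
    obtain ⟨hvt, hvz⟩ := var_pot hU hCV
    have hFP : FibreP (nW U) (fun t => (k * (2 ^ 19 * s)) * om (nW U) (t 0)) := by
      intro t φ hφ hφs
      have hcov := hstd.covF hone hs hvz t
      have hBB : BB (nW U) s (t 0) = 2 ^ 19 * s * om (nW U) (t 0) := rfl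
      rw [hBB] at hcov
      obtain ⟨w, hw⟩ : ∃ w, w = om (nW U) (t 0) := ⟨_, rfl⟩
      rw [← hw] at hcov
      simp only
      rw [← hw]
      obtain ⟨c, hc⟩ : ∃ c : ℝ, c = Real.log (∫ y, Real.exp (-U y)) := ⟨_, rfl⟩
      have hWc : nW U = fun x => onSp U x + c := by
        rw [hc]
        rfl
      rw [hWc] at hcov ⊢
      have hcov2 := scal_cov (onSp U) c t _ hcov
      rw [← oo_zero t] at hcov2
      have h1 := fib_of_pim (hfib (t 0) _ (cvm_of_cov hcov2)) hφ hφs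
      rw [oo_zero t] at h1
      exact scal_P (onSp U) c t φ _ _ (le_of_eq (by ring)) h1
    have hWI := H2 n (nW U) hstd hone s (k * (2 ^ 19 * s)) hs (by positivity) hvt hvz hFP
    refine PIm_mono ?_ (H3 _ U hU (8 / 3 * (C₂ * (k * (2 ^ 19 * s) + s))) fun f hf hf1 => ?_)
    · have e1 : k * (2 ^ 19 * s) + s ≤ (2 ^ 19 + 1) * (k * s) := by nlinarith
      calc C₃ * (8 / 3 * (C₂ * (k * (2 ^ 19 * s) + s)))
          ≤ C₃ * (8 / 3 * (C₂ * ((2 ^ 19 + 1) * (k * s)))) := by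
            apply mul_le_mul_of_nonneg_left _ hC₃.le
            apply mul_le_mul_of_nonneg_left _ (by norm_num)
            exact mul_le_mul_of_nonneg_left e1 hC₂.le
        _ = (C₃ * (8 / 3 * (C₂ * (2 ^ 19 + 1)))) * (k * s) := by ring
        _ ≤ C * (k * s) := mul_le_mul_of_nonneg_right hC2 (by positivity)
        _ = C * k * s := by ring
    · have h4 := (hstd.ext_lip hone (D := C₂ * (k * (2 ^ 19 * s) + s)) (by positivity) hWI
        (f := fun x => f ((spl 1 n).symm x)) (hf.comp (spl 1 n).symm.contDiff) (fun x => by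
          rw [grad_spl hf]
          have := hf1 ((spl 1 n).symm x)
          have h0 := norm_nonneg (fderiv ℝ f ((spl 1 n).symm x))
          nlinarith)).2
      rw [hF (fun x => f ((spl 1 n).symm x) ^ 2), hF (fun x => f ((spl 1 n).symm x))] at h4
      simp only [ContinuousLinearEquiv.symm_apply_apply] at h4
      exact h4
  intro s hCV f hf hfs
  have hs0 := CVm_nn hU hCV
  obtain ⟨E, hE⟩ : ∃ E, E = (∫ x, Real.exp (-U x)) * ∫ x, ‖fderiv ℝ f x‖ ^ 2 * Real.exp (-U x) :=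
    ⟨_, rfl⟩
  have hE0 : 0 ≤ E := by
    rw [hE]
    exact mul_nonneg hZ.le (integral_nonneg fun _ => mul_nonneg (sq_nonneg _) (Real.exp_pos _).le)
  rw [mul_assoc, ← hE]
  apply le_of_forall_pos_le_add
  intro δ hδ
  have hCk : 0 ≤ C * k * E := by positivity
  obtain ⟨ε, hε⟩ : ∃ ε : ℝ, ε = δ / (C * k * E + 1) := ⟨_, rfl⟩
  have hε0 : 0 < ε := by
    rw [hε]
    positivity
  have h := pos (s + ε) (by linarith) (fun θ => (hCV θ).trans (mul_le_mul_of_nonneg_right
    (mul_le_mul_of_nonneg_right (by linarith) (sq_nonneg _)) (sq_nonneg _))) f hf hfs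
  rw [mul_assoc, ← hE] at h
  refine h.trans ?_
  have h8 : C * k * E * ε ≤ δ := by
    rw [hε]
    calc C * k * E * (δ / (C * k * E + 1)) = δ * ((C * k * E) / (C * k * E + 1)) := by ring
      _ ≤ δ * 1 := by
          apply mul_le_mul_of_nonneg_left _ hδ.le
          rw [div_le_one (by linarith)]
          linarith
      _ = δ := mul_one δ
  calc C * k * (s + ε) * E = C * k * s * E + C * k * E * ε := by ring
    _ ≤ C * k * s * E + δ := by linarith

end Pool.Agent.Q86.EM
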