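import Pool.Agent.Q190.EM.STA
import Pool.Agent.Q190.EM.TRU
import Pool.Agent.Q190.EM.COS
import Pool.Agent.Q150.EM.Lev
import Pool.Agent.Q237.EM.Gin
import Pool.Agent.Q237.EM.Sec
import Pool.Agent.Q237.EM.Lip
import Pool.Agent.Q65.EM.Fub
import Pool.Agent.Q65.EM.Gsf
import Pool.Agent.Q65.EM.Ite
import Pool.Agent.Q65.EM.Smz
import Pool.Agent.Q31.EM.COL
import Pool.Agent.Q275.EM.Til
import Pool.Agent.Q275.EM.Int
import Pool.Agent.Q247.EM.EML
import Pool.Agent.Q247.EM.ENE
import Pool.Agent.Q247.EM.SCI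
import Pool.Agent.Q153.EM.Gr2
import Pool.Agent.Q153.EM.Mid

/-!
# Lipschitz functions and the Poincare inequality for log-concave densities: the theorem

`em : S_EML` (E. Milman's theorem, soft proof): for a log-concave probability density of bounded support
with `Var f ≤ D` for all `f` of class `C¹` with `‖∇ f‖ ≤ 1` one has `Var f ≤ C D ∫ ‖∇ f‖²` for all `f` of
class `C¹`, `C` absolute. Proofs of the lemmas by helpers 31, 65, 150, 153, 190, 237, 247, 275.
-/

set_option autoImplicit false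

namespace Pool.Agent.Q86.EM

theorem p_fub : S_FUB := Pool.Agent.Q65.EM.fub

theorem p_gsf : S_GSF := Pool.Agent.Q65.EM.gsf

theorem p_gr2 : S_GR2 := Pool.Agent.Q153.EM.gr2

theorem p_lip : S_LIP := Pool.Agent.Q237.EM.lip p_gsf

theorem p_mid : S_MID := Pool.Agent.Q153.EM.mid p_fub p_lip p_gsf

theorem p_ite : S_ITE := Pool.Agent.Q65.EM.ite p_fub p_gsf

theorem p_int : S_INT := Pool.Agent.Q275.EM.int p_fub p_gsf

theorem p_gin : S_GIN := Pool.Agent.Q237.EM.gin p_fub p_gsf p_gr2

theorem p_sec : S_SEC := Pool.Agent.Q237.EM.sec p_fub p_gsf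

theorem p_sta : S_STA := Pool.Agent.Q190.EM.sta p_fub p_gsf p_ite p_int p_gin p_sec

theorem p_ene : S_ENE := Pool.Agent.Q247.EM.ene p_fub p_gsf

theorem p_lev : S_LEV := Pool.Agent.Q150.EM.lev

theorem p_sci : S_SCI := Pool.Agent.Q247.EM.sci

theorem p_cos : S_COS := Pool.Agent.Q190.EM.cos p_sci Pool.Agent.Q190.EM.tru

theorem p_col : S_COL := Pool.Agent.Q31.EM.COL.col p_cos Pool.Agent.Q65.EM.smz p_gsf

theorem p_til : S_TIL := Pool.Agent.Q275.EM.til p_col

/-- **Lipschitz functions decide the Poincare constant of a log-concave density** -/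
theorem em : S_EML := Pool.Agent.Q247.EM.eml p_mid p_sta p_til p_ene p_lev

end Pool.Agent.Q86.EM
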