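import Pool.Agent.Q86.EM.Stm5
import Pool.Agent.Q124.EM.COA
import Pool.Agent.Q121.EM.Dgt

/-!
# Covariances of the regularisations

Compare `Pool.Agent.Q124.EM.var_unif` (helper124).
-/

set_option autoImplicit false

namespace Pool.Agent.Q86.EM

open MeasureTheory Set Filter Topology
open scoped ENNReal InnerProductSpace ContDiff
open Pool.Agent.H888R2.KT (LC pst gs zz gc)
open Pool.Agent.Q124.EM (mean cv var_lin cv_add m1 m2 b1 b2)
open Pool.Agent.Q121.EM (lc_cont lc_int lc_pos)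

variable {κ : Type} [Fintype κ]

theorem vlin_smul (w : Eu κ → ℝ) (r : ℝ) (θ : Eu κ) :
    ∑ i, ∑ k, (r • θ) i * (r • θ) k * cv w i k = r ^ 2 * ∑ i, ∑ k, θ i * θ k * cv w i k := by
  rw [Finset.mul_sum]
  refine Finset.sum_congr rfl fun i _ => ?_
  rw [Finset.mul_sum]
  refine Finset.sum_congr rfl fun k _ => ?_
  simp only [PiLp.smul_apply, smul_eq_mul]
  ring

theorem mean_form {w : Eu κ → ℝ} (hw : 0 < ∫ x, w x) (θ : Eu κ) :
    (∫ x, w x) * (∫ x, ⟪θ, x⟫_ℝ ^ 2 * w x) - (∫ x, ⟪θ, x⟫_ℝ * w x) ^ 2 =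
      (mean w (fun x => ⟪θ, x⟫_ℝ ^ 2) - mean w (fun x => ⟪θ, x⟫_ℝ) ^ 2) * (∫ x, w x) ^ 2 := by
  unfold mean
  field_simp

theorem dco (h1 : S_DPT) (h2 : S_DLM) : S_DCO := by
  intro κ _ ρ hρ s hs ε hε
  by_contra hcon
  push Not at hcon
  have hpos : ∀ j : ℕ, (0 : ℝ) < 1 / ((j : ℝ) + 1) := fun j => by positivity
  choose h hh hle hne using fun j : ℕ => hcon (1 / ((j : ℝ) + 1)) (hpos j)
  have hht : Tendsto h atTop (𝓝 0) :=
    squeeze_zero (fun j => (hh j).le) hle tendsto_one_div_add_atTop_nhds_zero_nat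
  have hm := lc_pos hρ
  obtain ⟨w, hw⟩ : ∃ w : ℕ → Eu κ → ℝ, w = fun j x => Real.exp (-Uh (h j) ρ x) := ⟨_, rfl⟩
  have hwj : ∀ j, w j = fun x => Real.exp (-Uh (h j) ρ x) := fun j => by rw [hw]
  have hmass : ∀ j, ∫ x, w j x = ∫ x, ρ x := by
    intro j
    obtain ⟨-, h4, -, h5⟩ := h1 κ ρ hρ (h j) (hh j)
    rw [← h5, hwj j]
    exact integral_congr_ae (Eventually.of_forall fun x => h4 x)
  have hlim : ∀ (g : Eu κ → ℝ) (m : ℕ), Measurable g → (∀ x, |g x| ≤ 1 * (1 + ‖x‖) ^ m) →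
      Tendsto (fun j => mean (w j) g) atTop (𝓝 (mean ρ g)) := by
    intro g m hg hb
    have l1 := (h2 κ ρ hρ h hht hh g 1 m hg hb).2
    unfold mean
    simp only [hmass]
    rw [hw]
    exact l1.div_const _
  have hcv : ∀ i k, Tendsto (fun j => cv (w j) i k) atTop (𝓝 (cv ρ i k)) := by
    intro i k
    exact (hlim _ 2 (m2 i k) fun x => b2 x i k).sub
      ((hlim _ 1 (m1 i) fun x => b1 x i).mul (hlim _ 1 (m1 k) fun x => b1 x k))
  have hsum : Tendsto (fun j => ∑ i, ∑ k, |cv (w j) i k - cv ρ i k|) atTop (𝓝 0) := by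
    have h3 : Tendsto (fun j => ∑ i, ∑ k, |cv (w j) i k - cv ρ i k|) atTop
        (𝓝 (∑ i : κ, ∑ k : κ, |cv ρ i k - cv ρ i k|)) :=
      tendsto_finsetSum _ fun i _ => tendsto_finsetSum _ fun k _ =>
        ((hcv i k).sub_const _).abs
    simpa using h3
  obtain ⟨j, hj⟩ := (hsum.eventually (Iio_mem_nhds hε)).exists
  have hj' : ∑ i, ∑ k, |cv (w j) i k - cv ρ i k| < ε := hj
  have hi : ∀ (g : Eu κ → ℝ) (m : ℕ), Measurable g → (∀ x, |g x| ≤ 1 * (1 + ‖x‖) ^ m) →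
      Integrable fun x => g x * w j x := fun g m hg hb => by
    rw [hwj j]
    exact (h2 κ ρ hρ h hht hh g 1 m hg hb).1 j
  have hr : ∀ g : Eu κ → ℝ, Continuous g → Integrable fun x => g x * ρ x := by
    intro g hg
    refine (lc_cont hρ hg).congr (Eventually.of_forall fun x => ?_)
    simp only [smul_eq_mul]; ring
  apply hne j
  intro θ
  have hwm : 0 < ∫ x, w j x := by rw [hmass]; exact hm
  have e0 := mean_form hwm θ
  rw [hwj j] at e0
  rw [e0, ← hwj j]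
  refine mul_le_mul_of_nonneg_right ?_ (sq_nonneg _)
  rw [var_lin (fun i => hi _ 1 (m1 i) fun x => b1 x i)
    (fun i k => hi _ 2 (m2 i k) fun x => b2 x i k) θ]
  rcases eq_or_ne θ 0 with h0 | h0
  · subst h0
    simp
  have hn : 0 < ‖θ‖ := norm_pos_iff.2 h0
  obtain ⟨u, hu⟩ : ∃ u : Eu κ, u = ‖θ‖⁻¹ • θ := ⟨_, rfl⟩
  have hu1 : ‖u‖ = 1 := by
    rw [hu, norm_smul, norm_inv, norm_norm, inv_mul_cancel₀ hn.ne']
  have hθ : θ = ‖θ‖ • u := by
    rw [hu, smul_smul, mul_inv_cancel₀ hn.ne', one_smul]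
  have h5 := cv_add u hu1 (w j) ρ
  have h6 : ∑ i, ∑ k, u i * u k * cv ρ i k ≤ s := by
    rw [← var_lin (fun i => hr _ (by fun_prop)) (fun i k => hr _ (by fun_prop)) u]
    have h7 := hs u
    rw [mean_form hm u, hu1, one_pow, mul_one] at h7
    exact le_of_mul_le_mul_right h7 (by positivity)
  have h8 : ∑ i, ∑ k, u i * u k * cv (w j) i k ≤ s + ε := by linarith
  calc ∑ i, ∑ k, θ i * θ k * cv (w j) i k
      = ‖θ‖ ^ 2 * ∑ i, ∑ k, u i * u k * cv (w j) i k := by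
        rw [← vlin_smul, ← hθ]
    _ ≤ ‖θ‖ ^ 2 * (s + ε) := mul_le_mul_of_nonneg_left h8 (sq_nonneg _)
    _ = (s + ε) * ‖θ‖ ^ 2 := mul_comm _ _

end Pool.Agent.Q86.EM
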