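import Pool.Agent.Q86.EM.Mar

/-!
# Forests: functions of some of the coordinates
-/

set_option autoImplicit false

namespace Pool.Agent.Q86.EM

open MeasureTheory Set Filter Topology
open scoped ENNReal InnerProductSpace ContDiff
open Pool.Agent.H888R2.KT (LC)
open Pool.Agent.H212R2.KLS (mu Bdd)
open Pool.Agent.Q121.EM

theorem Fac_dl {ι : Type} [Fintype ι] [PartialOrder ι] {F : ι → Eu ι → ℝ} (hF : Fac F) (J : Set ι)
    (r : ℝ) : Fac fun v x => F v (dl J r x) := by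
  refine ⟨fun v x => hF.nonneg v _, fun v => (hF.meas v).comp
    (LinearMap.continuous_of_finiteDimensional _).measurable, ?_, ?_⟩
  · intro v x y t h0 h1
    rw [map_add, map_smul, map_smul]
    exact hF.logc v _ _ t h0 h1
  · intro v x y h
    refine hF.dep v _ _ fun u hu => ?_
    by_cases hJ : u ∈ J
    · rw [dl_in _ hJ, dl_in _ hJ]
      exact h u hu
    · rw [dl_out _ hJ, dl_out _ hJ, h u hu]

/-- forests, bounded support, functions of the coordinates in `J` -/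
def S_DTJ : Prop := ∃ C : ℝ, 1 ≤ C ∧ ∀ (ι : Type) [Fintype ι] [PartialOrder ι] (d : ℕ), Frs ι d →
  ∀ F : ι → Eu ι → ℝ, Fac F → LC (fun x => ∏ v, F v x) → ∀ (J : Set ι) (s : ℝ), 0 ≤ s →
  CVJ J (fun x => ∏ v, F v x) s → ∀ f : Eu ι → ℝ, ContDiff ℝ 1 f → DJ J f →
    (∫ x, ∏ v, F v x) * (∫ x, f x ^ 2 * ∏ v, F v x) - (∫ x, f x * ∏ v, F v x) ^ 2 ≤
      C ^ d * s * (∫ x, ∏ v, F v x) * ∫ x, ‖fderiv ℝ f x‖ ^ 2 * ∏ v, F v x

theorem dtj (h : S_DTD) : S_DTJ := by
  obtain ⟨C, hC, H⟩ := h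
  refine ⟨C, hC, ?_⟩
  intro ι _ _ d hd F hF hLC J s hs hJ f hf hfJ
  exact mar hLC (by positivity) (fun r hr => H ι d hd _ (Fac_dl hF J r) (LC_dl hr hLC)) hs hJ hf hfJ

/-- forests, all log-concave factors, functions of the coordinates in `J` -/
def S_DGJ : Prop := ∃ C : ℝ, 1 ≤ C ∧ ∀ (ι : Type) [Fintype ι] [PartialOrder ι] (d : ℕ), Frs ι d →
  ∀ F : ι → Eu ι → ℝ, Fac F → ∀ μ : Measure (Eu ι),
  μ = volume.withDensity (fun x => ENNReal.ofReal (∏ v, F v x)) → IsProbabilityMeasure μ →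
  ∀ (J : Set ι) (s : ℝ), 0 ≤ s →
  (∀ θ : Eu ι, (∀ i, i ∉ J → θ i = 0) →
    ProbabilityTheory.evariance (fun x => ⟪θ, x⟫_ℝ) μ ≤ ENNReal.ofReal (s * ‖θ‖ ^ 2)) →
  ∀ f : Eu ι → ℝ, ContDiff ℝ 1 f → DJ J f → ProbabilityTheory.evariance f μ ≤
    ENNReal.ofReal (C ^ d * s) * ∫⁻ x, ENNReal.ofReal (‖fderiv ℝ f x‖ ^ 2) ∂μ

/-- **Forests, all log-concave factors, functions of the coordinates in `J`.** The proof is the one of
`Pool.Agent.Q121.EM.dgt` (helper121), with the extra condition on `θ` and `f`. -/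
theorem dgj (h : S_DTD) : S_DGJ := by
  obtain ⟨C, hC1, hC0⟩ := dtj h
  refine ⟨C, hC1, ?_⟩
  intro ι _ _ d hfrs F hF μ hμ hprob J s hs hvar f hf hfJ
  have hC : ∀ (ι : Type) [Fintype ι] [PartialOrder ι] (d : ℕ), Frs ι d → ∀ F : ι → Eu ι → ℝ, Fac F →
    LC (fun x => ∏ v, F v x) → ∀ (J : Set ι) (s : ℝ), 0 ≤ s → CVJ J (fun x => ∏ v, F v x) s →
    ∀ f : Eu ι → ℝ, ContDiff ℝ 1 f → DJ J f →
    (∫ x, ∏ v, F v x) * (∫ x, f x ^ 2 * ∏ v, F v x) - (∫ x, f x * ∏ v, F v x) ^ 2 ≤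
      C ^ d * s * (∫ x, ∏ v, F v x) * ∫ x, ‖fderiv ℝ f x‖ ^ 2 * ∏ v, F v x := hC0
  have hfc := hf.continuous
  have hfd : Continuous (fderiv ℝ f) := hf.continuous_fderiv one_ne_zero
  have hρm : Measurable fun x => ∏ v, F v x := fac_prod_meas hF
  have hρ0 : ∀ x, 0 ≤ ∏ v, F v x := fac_prod_nonneg hF
  have hmass : ∫⁻ x, ENNReal.ofReal (∏ v, F v x) = 1 := by
    have h1 := hprob.measure_univ
    rw [hμ, withDensity_apply _ MeasurableSet.univ, Measure.restrict_univ] at h1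
    exact h1
  have hint : ∀ g : Eu ι → ℝ≥0∞, Measurable g →
      ∫⁻ x, g x ∂μ = ∫⁻ x, ENNReal.ofReal (∏ v, F v x) * g x := by
    intro g hg
    rw [hμ, lintegral_withDensity_eq_lintegral_mul _ hρm.ennreal_ofReal hg]
    rfl
  -- the bound
  set T : ℝ≥0∞ := ENNReal.ofReal (C ^ d * s) * ∫⁻ x, ENNReal.ofReal (‖fderiv ℝ f x‖ ^ 2) ∂μ with hT
  rcases eq_or_ne T ⊤ with hTt | hTt
  · rw [hTt]; exact le_top
  set D := T.toReal with hD
  have hD0 : 0 ≤ D := ENNReal.toReal_nonneg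
  have hDT : ENNReal.ofReal D = T := ENNReal.ofReal_toReal hTt
  have hCs : 0 ≤ C ^ d * s := mul_nonneg (pow_nonneg (by linarith) _) hs
  set ρN : ℕ → Eu ι → ℝ := fun N x => ∏ v, FN F N v x with hρN
  have hlim := mass_lim hF
  rw [hmass] at hlim
  have hev : ∀ᶠ N : ℕ in atTop, LC (ρN N) := by
    have h1 : ∀ᶠ N : ℕ in atTop, (0 : ℝ≥0∞) < ∫⁻ x, ENNReal.ofReal (∏ v, FN F N v x) :=
      hlim.eventually (lt_mem_nhds zero_lt_one)
    filter_upwards [h1] with N hN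
    exact LC_N hF (by rw [hmass]; exact ENNReal.one_ne_top) N hN.ne'
  -- masses
  have hmN : ∀ N, LC (ρN N) → ENNReal.ofReal (∫ x, ρN N x) = ∫⁻ x, ENNReal.ofReal (ρN N x) :=
    fun N hN => ofReal_integral_eq_lintegral_ofReal (lc_int hN) (Eventually.of_forall hN.nonneg)
  have hmlim : Tendsto (fun N => ∫ x, ρN N x) atTop (𝓝 1) := by
    have h1 : Tendsto (fun N : ℕ => (∫⁻ x, ENNReal.ofReal (ρN N x)).toReal) atTop (𝓝 (1 : ℝ≥0∞).toReal) :=
      (ENNReal.tendsto_toReal ENNReal.one_ne_top).comp hlim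
    rw [ENNReal.toReal_one] at h1
    refine h1.congr' ?_
    filter_upwards [hev] with N hN
    rw [← hmN N hN, ENNReal.toReal_ofReal (lc_pos hN).le]
  -- comparison of integrals
  have hcmp : ∀ N, LC (ρN N) → ∀ g : Eu ι → ℝ, Continuous g → (∀ x, 0 ≤ g x) →
      ENNReal.ofReal (∫ x, g x * ρN N x) ≤ ∫⁻ x, ENNReal.ofReal (g x) ∂μ := by
    intro N hN g hg hg0
    have i1 : Integrable fun x => g x * ρN N x := by
      refine (lc_cont hN hg).congr (Eventually.of_forall fun x => ?_)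
      simp only [smul_eq_mul]; ring
    rw [ofReal_integral_eq_lintegral_ofReal i1 (Eventually.of_forall fun x =>
      mul_nonneg (hg0 x) (hN.nonneg x)), hint _ hg.measurable.ennreal_ofReal]
    refine lintegral_mono fun x => ?_
    rw [mul_comm (g x), ENNReal.ofReal_mul (hN.nonneg x)]
    exact mul_le_mul_left (ENNReal.ofReal_le_ofReal (rho_N_le hF N x)) _
  -- the covariance
  have hcv : ∀ N, LC (ρN N) → CVJ J (ρN N) (s / ∫ x, ρN N x) := by
    intro N hN θ hθ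
    have hm := lc_pos hN
    have c1 : Continuous fun x : Eu ι => ⟪θ, x⟫_ℝ := by fun_prop
    set a := ∫ x, ⟪θ, x⟫_ℝ ∂μ with ha
    refine (var_le hN c1 a).trans ?_
    have h1 := hcmp N hN (fun x => (⟪θ, x⟫_ℝ - a) ^ 2) (by fun_prop) (fun x => sq_nonneg _)
    have h2 : ∫⁻ x, ENNReal.ofReal ((⟪θ, x⟫_ℝ - a) ^ 2) ∂μ ≤ ENNReal.ofReal (s * ‖θ‖ ^ 2) := by
      refine le_trans (le_of_eq ?_) (hvar θ hθ)
      unfold ProbabilityTheory.evariance
      refine lintegral_congr fun x => ?_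
      rw [← ofReal_norm, ← ENNReal.ofReal_pow (norm_nonneg _), Real.norm_eq_abs, sq_abs]
    have h3 := (ENNReal.ofReal_le_ofReal_iff (by positivity)).1 (h1.trans h2)
    have h4 : s / (∫ x, ρN N x) * ‖θ‖ ^ 2 * (∫ x, ρN N x) ^ 2 =
        (∫ x, ρN N x) * (s * ‖θ‖ ^ 2) := by field_simp
    rw [h4]
    exact mul_le_mul_of_nonneg_left h3 hm.le
  -- the inequality for the cut off densities
  set a : ℕ → ℝ := fun N => (∫ x, f x * ρN N x) / ∫ x, ρN N x with ha
  have hkey : ∀ N, LC (ρN N) → (∫ x, ρN N x) * ∫ x, (f x - a N) ^ 2 * ρN N x ≤ D := by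
    intro N hN
    have hm := lc_pos hN
    rw [ha]
    simp only
    rw [var_eq hN hfc]
    have h1 := hC ι d hfrs (FN F N) (fac_N hF N) hN J _ (div_nonneg hs hm.le) (hcv N hN) f hf hfJ
    refine h1.trans ?_
    have h2 : C ^ d * (s / ∫ x, ρN N x) * (∫ x, ρN N x) *
        (∫ x, ‖fderiv ℝ f x‖ ^ 2 * ρN N x) = C ^ d * s * ∫ x, ‖fderiv ℝ f x‖ ^ 2 * ρN N x := by
      field_simp
    refine le_trans (le_of_eq h2) ?_
    rw [← ENNReal.ofReal_le_ofReal_iff hD0, ENNReal.ofReal_mul hCs, hDT, hT]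
    exact mul_le_mul_right (hcmp N hN _ (hfd.norm.pow 2) fun x => sq_nonneg _) _
  -- the means are bounded
  obtain ⟨N₀, hN₀⟩ := (eventually_atTop.1 hev)
  have hmono : ∀ N ≥ N₀, ∫ x, ρN N₀ x ≤ ∫ x, ρN N x := fun N hN =>
    integral_mono (lc_int (hN₀ N₀ le_rfl)) (lc_int (hN₀ N hN)) fun x => rho_N_mono hF x hN
  set m₀ := ∫ x, ρN N₀ x with hm₀
  have hm₀0 : 0 < m₀ := lc_pos (hN₀ N₀ le_rfl)
  have isq : ∀ N, LC (ρN N) → ∀ b : ℝ, Integrable fun x => (f x - b) ^ 2 * ρN N x := by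
    intro N hN b
    have c2 : Continuous fun x => (f x - b) ^ 2 := (hfc.sub continuous_const).pow 2
    refine (lc_cont hN c2).congr (Eventually.of_forall fun x => ?_)
    simp only [smul_eq_mul]; ring
  have hbd : ∀ N ≥ N₀, |a N - a N₀| ^ 2 ≤ 4 * D / m₀ ^ 2 := by
    intro N hN
    have hL := hN₀ N hN
    have hL0 := hN₀ N₀ le_rfl
    have h1 : ∫ x, (f x - a N) ^ 2 * ρN N₀ x ≤ D / m₀ := by
      have h2 : ∫ x, (f x - a N) ^ 2 * ρN N₀ x ≤ ∫ x, (f x - a N) ^ 2 * ρN N x :=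
        integral_mono (isq N₀ hL0 _) (isq N hL _) fun x =>
          mul_le_mul_of_nonneg_left (rho_N_mono hF x hN) (sq_nonneg _)
      have h3 := hkey N hL
      have h4 : 0 ≤ ∫ x, (f x - a N) ^ 2 * ρN N x := integral_nonneg fun x =>
        mul_nonneg (sq_nonneg _) (hL.nonneg x)
      rw [le_div_iff₀ hm₀0]
      have h5 := mul_le_mul_of_nonneg_right (hmono N hN) h4
      nlinarith
    have h1' : ∫ x, (f x - a N₀) ^ 2 * ρN N₀ x ≤ D / m₀ := by
      have h3 := hkey N₀ hL0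
      rw [le_div_iff₀ hm₀0]
      linarith
    have h6 : m₀ * |a N - a N₀| ^ 2 ≤ 2 * (∫ x, (f x - a N) ^ 2 * ρN N₀ x) +
        2 * ∫ x, (f x - a N₀) ^ 2 * ρN N₀ x := by
      have e1 : m₀ * |a N - a N₀| ^ 2 = ∫ x, |a N - a N₀| ^ 2 * ρN N₀ x := by
        rw [integral_const_mul]
        ring
      rw [e1, ← integral_const_mul, ← integral_const_mul, ← integral_add
        ((isq N₀ hL0 _).const_mul _) ((isq N₀ hL0 _).const_mul _)]
      refine integral_mono ((lc_int hL0).const_mul _) (((isq N₀ hL0 _).const_mul _).add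
        ((isq N₀ hL0 _).const_mul _)) fun x => ?_
      simp only
      have h7 := hL0.nonneg x
      have h8 : |a N - a N₀| ^ 2 ≤ 2 * (f x - a N) ^ 2 + 2 * (f x - a N₀) ^ 2 := by
        rw [sq_abs]
        nlinarith [sq_nonneg ((f x - a N) + (f x - a N₀))]
      nlinarith [mul_le_mul_of_nonneg_right h8 h7]
    rw [le_div_iff₀ (by positivity)]
    have h9 : m₀ * |a N - a N₀| ^ 2 ≤ 4 * (D / m₀) := by linarith
    have h10 := mul_le_mul_of_nonneg_left h9 hm₀0.le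
    have h11 : m₀ * (4 * (D / m₀)) = 4 * D := by field_simp
    rw [h11] at h10
    nlinarith
  have hcpt : ∀ N ≥ N₀, a N ∈ Metric.closedBall (a N₀) (Real.sqrt (4 * D / m₀ ^ 2)) := by
    intro N hN
    rw [Metric.mem_closedBall, Real.dist_eq]
    exact Real.le_sqrt_of_sq_le (hbd N hN)
  obtain ⟨b, -, ψ, hψ, hψl⟩ := (isCompact_closedBall (a N₀)
    (Real.sqrt (4 * D / m₀ ^ 2))).tendsto_subseq (x := fun k => a (N₀ + k))
    (fun k => hcpt _ (Nat.le_add_right _ _))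
  set σ : ℕ → ℕ := fun k => N₀ + ψ k with hσ
  have hσt : Tendsto σ atTop atTop :=
    tendsto_atTop_mono (fun k => Nat.le_add_left _ _) hψ.tendsto_atTop
  have hal : Tendsto (fun k => a (σ k)) atTop (𝓝 b) := hψl
  -- Fatou
  have hfat : ∫⁻ x, ENNReal.ofReal ((f x - b) ^ 2) ∂μ ≤ ENNReal.ofReal D := by
    rw [hint _ (by fun_prop)]
    have h1 : ∫⁻ x, liminf (fun k => ENNReal.ofReal (ρN (σ k) x) *
        ENNReal.ofReal ((f x - a (σ k)) ^ 2)) atTop ≤
        liminf (fun k => ∫⁻ x, ENNReal.ofReal (ρN (σ k) x) *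
          ENNReal.ofReal ((f x - a (σ k)) ^ 2)) atTop := by
      refine lintegral_liminf_le fun k => ?_
      exact (fac_prod_meas (fac_N hF _)).ennreal_ofReal.mul (by fun_prop)
    have h2 : ∀ x, liminf (fun k => ENNReal.ofReal (ρN (σ k) x) *
        ENNReal.ofReal ((f x - a (σ k)) ^ 2)) atTop =
        ENNReal.ofReal (∏ v, F v x) * ENNReal.ofReal ((f x - b) ^ 2) := by
      intro x
      refine Tendsto.liminf_eq ?_
      have h3 : Tendsto (fun k => ENNReal.ofReal (ρN (σ k) x)) atTop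
          (𝓝 (ENNReal.ofReal (∏ v, F v x))) := by
        refine tendsto_const_nhds.congr' ?_
        filter_upwards [hσt.eventually (rho_N_ev F x)] with k hk
        rw [hρN]
        simp only
        rw [hk]
      have h4 : Tendsto (fun k => ENNReal.ofReal ((f x - a (σ k)) ^ 2)) atTop
          (𝓝 (ENNReal.ofReal ((f x - b) ^ 2))) := by
        refine ENNReal.tendsto_ofReal ?_
        exact (tendsto_const_nhds.sub hal).pow 2
      exact ENNReal.Tendsto.mul h3 (Or.inr ENNReal.ofReal_ne_top) h4 (Or.inr ENNReal.ofReal_ne_top)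
    simp only [h2] at h1
    refine h1.trans ?_
    have h5 : ∀ k, ∫⁻ x, ENNReal.ofReal (ρN (σ k) x) * ENNReal.ofReal ((f x - a (σ k)) ^ 2) ≤
        ENNReal.ofReal (D / ∫ x, ρN (σ k) x) := by
      intro k
      have hL := hN₀ (σ k) (Nat.le_add_right _ _)
      have h6 : ∫⁻ x, ENNReal.ofReal (ρN (σ k) x) * ENNReal.ofReal ((f x - a (σ k)) ^ 2) =
          ENNReal.ofReal (∫ x, (f x - a (σ k)) ^ 2 * ρN (σ k) x) := by
        rw [ofReal_integral_eq_lintegral_ofReal (isq _ hL _) (Eventually.of_forall fun x =>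
          mul_nonneg (sq_nonneg _) (hL.nonneg x))]
        refine lintegral_congr fun x => ?_
        rw [mul_comm ((f x - a (σ k)) ^ 2), ENNReal.ofReal_mul (hL.nonneg x)]
      rw [h6]
      refine ENNReal.ofReal_le_ofReal ?_
      rw [le_div_iff₀ (lc_pos hL)]
      have := hkey _ hL
      linarith
    have h7 : Tendsto (fun k => ENNReal.ofReal (D / ∫ x, ρN (σ k) x)) atTop
        (𝓝 (ENNReal.ofReal D)) := by
      refine ENNReal.tendsto_ofReal ?_
      have h8 : Tendsto (fun k => D / ∫ x, ρN (σ k) x) atTop (𝓝 (D / 1)) :=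
        tendsto_const_nhds.div (hmlim.comp hσt) one_ne_zero
      rwa [div_one] at h8
    rw [← h7.liminf_eq]
    exact liminf_le_liminf (Eventually.of_forall h5)
  obtain ⟨hL2, hv⟩ := Pool.Agent.Q73.KL.var_of_lint hfc.measurable hD0 hfat
  rw [← hDT, ← ProbabilityTheory.ofReal_variance hL2]
  refine ENNReal.ofReal_le_ofReal ?_
  rw [ProbabilityTheory.variance_eq_sub hL2]
  exact hv


end Pool.Agent.Q86.EM
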