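import Pool.Agent.Q86.EM.Stm4

/-!
# KLS for log-concave densities of bounded support: statements, part V

Project FD of helper86: the same as part II (bodies, `Stm2`), now for all log-concave densities of bounded
support (`LC ρ`), with Gaussian regularisation `sh h ρ = zz h ρ / gc` in place of the potentials `Ap`. The
proofs of the corresponding statements for bodies are in `Pool/Agent/Q*/EM/` (see the notes on the jobs).
Then products and rooted forests.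
-/

set_option autoImplicit false

namespace Pool.Agent.Q86.EM

open MeasureTheory Set Filter Topology
open scoped ENNReal InnerProductSpace ContDiff
open Pool.Agent.H888R2.KT (LC pst gs zz gc)
open Pool.Agent.Q86.FIB (Sp EK spl Std oo lp CovF FibreP om dens vol fib pd sv gT gZ WIneq lin mn)

/-- Gaussian regularisation, `∫ ρ(x) exp(-‖x - y‖² / 2h) dx / gc`; it has the same mass as `ρ` -/
noncomputable def sh {κ : Type} [Fintype κ] (h : ℝ) (ρ : Eu κ → ℝ) (y : Eu κ) : ℝ :=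
  zz h ρ y / gc κ h

/-- its potential -/
noncomputable def Uh {κ : Type} [Fintype κ] (h : ℝ) (ρ : Eu κ → ℝ) (y : Eu κ) : ℝ :=
  -Real.log (sh h ρ y)

/-- the covariance matrix of the normalised density `ρ` is at most `s` -/
def CVd {κ : Type} [Fintype κ] (ρ : Eu κ → ℝ) (s : ℝ) : Prop := ∀ θ : Eu κ,
  (∫ x, ρ x) * (∫ x, ⟪θ, x⟫_ℝ ^ 2 * ρ x) - (∫ x, ⟪θ, x⟫_ℝ * ρ x) ^ 2 ≤ s * ‖θ‖ ^ 2 * (∫ x, ρ x) ^ 2

/-- Poincare inequality for the normalised density `ρ` -/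
def PId {κ : Type} [Fintype κ] (ρ : Eu κ → ℝ) (c : ℝ) : Prop :=
  ∀ f : Eu κ → ℝ, ContDiff ℝ 1 f →
  (∫ x, ρ x) * (∫ x, f x ^ 2 * ρ x) - (∫ x, f x * ρ x) ^ 2 ≤
    c * (∫ x, ρ x) * ∫ x, ‖fderiv ℝ f x‖ ^ 2 * ρ x

/-- the KLS inequality for the density `ρ`, with the constant `k` -/
def KLSd {κ : Type} [Fintype κ] (ρ : Eu κ → ℝ) (k : ℝ) : Prop := ∀ s : ℝ, CVd ρ s → PId ρ (k * s)

/-- JOB DPT. The regularisation is a smooth convex potential of temperate growth.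
Proof. Positivity, smoothness, convexity: `S_SMZ` (`Pool.Agent.Q65.EM.smz`, file `Q65/EM/Smz`, with
`log_zz_deriv`); `gc > 0`. Mass: Fubini (`Pool.Agent.Q65.EM.fub`: `ny h ρ` is a probability measure if the
mass is one; or directly). Temperate growth: `∇_w (-log zz) (y) = h⁻¹ (⟪y, w⟫ - pst h ρ ⟪·, w⟫ y)`. All
functions `pst h ρ v`, `v` continuous, are bounded (by the bound of `v` on the support of `ρ`) and smooth,
and `∇_w pst h ρ v = h⁻¹ (pst h ρ (v ⟪·, w⟫) - pst h ρ v * pst h ρ ⟪·, w⟫)` (`KT.pst_deriv`,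
`H888R2/KT/N3`, `N4`). So the algebra generated by these functions is closed under the derivatives in the
directions of a basis, and by induction on `m` all `iteratedFDeriv ℝ m` of its elements are bounded
(`fderiv F = ∑_i (∂_i F) • e_i^*`). Then `Function.HasTemperateGrowth.of_fderiv` (Mathlib) for `Uh h ρ`:
its derivative is a linear function plus an element of the class, and `|Uh| ≤ C (1 + ‖y‖)²`. -/
def S_DPT : Prop := ∀ (κ : Type) [Fintype κ] (ρ : Eu κ → ℝ), LC ρ → ∀ h : ℝ, 0 < h →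
  (∀ y, 0 < sh h ρ y) ∧ (∀ y, Real.exp (-Uh h ρ y) = sh h ρ y) ∧ Pot (Uh h ρ) ∧
  ∫ y, sh h ρ y = ∫ x, ρ x

/-- JOB DBD. Log-concave densities of bounded support: bounded, continuous almost everywhere, and the
regularisations have a common Gaussian bound.
Proof. `S = {ρ > 0}` is convex, with positive measure (`LC.ne`), so its interior is not empty. Bounded: if
`B` is a ball in `S` on which `ρ ≥ c > 0` (`ρ` is continuous in the interior of `S`) then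
`ρ((x + b)/2) ≥ √(ρ(x) c)` for all `b ∈ B`, so the mass is at least `√(ρ(x) c)` times the volume of
`(x + B)/2`; it is finite. (Or find this in `H888R2/KT/N5b`.) Continuous at all interior points of `S`
(`-log ρ` is convex there, `ConvexOn.continuousOn_interior`) and at all points outside the closure of `S`;
the frontier of a convex set is a null set (`Convex.addHaar_frontier`). Gaussian bound: let `ρ ≤ B`,
`ρ = 0` outside the ball of radius `R`. `sh h ρ ≤ B`, and for `‖y‖ ≥ 2R` one has `‖x - y‖ ≥ ‖y‖/2` on the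
support, so `sh h ρ y ≤ B gc⁻¹ ∫_{‖w‖ ≥ ‖y‖/2} exp(-‖w‖²/2h) dw ≤ B exp(-‖y‖²/16h) gc⁻¹
∫ exp(-‖w‖²/4h) dw = B 2^(N/2) exp(-‖y‖²/16h)`, `N = card κ`. -/
def S_DBD : Prop := ∀ (κ : Type) [Fintype κ] (ρ : Eu κ → ℝ), LC ρ →
  (∃ B : ℝ, ∀ x, ρ x ≤ B) ∧ (∀ᵐ x, ContinuousAt ρ x) ∧
  ∃ C : ℝ, 0 < C ∧ ∀ h : ℝ, 0 < h → h ≤ 1 → ∀ x, sh h ρ x ≤ C * Real.exp (-(‖x‖ ^ 2 / 16))

/-- JOB DLM. Limits of integrals (`S_LMB` for densities).
Proof. `sh h_j ρ → ρ` at all points of continuity of `ρ` (Gaussian approximate identity, `ρ` bounded);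
dominated by `B (1 + ‖x‖)^m C exp(-‖x‖²/16)` (`S_DBD`) for `h_j ≤ 1`; for the integrability for all `j` use
`Pot` (`S_DPT`; `Pot.integrable` in `Q86/EM/Onm`, for continuous functions; for measurable `g` compare with
`B (1 + ‖x‖)^m`). -/
def S_DLM : Prop := ∀ (κ : Type) [Fintype κ] (ρ : Eu κ → ℝ), LC ρ → ∀ h : ℕ → ℝ,
  Tendsto h atTop (𝓝 0) → (∀ j, 0 < h j) → ∀ (g : Eu κ → ℝ) (B : ℝ) (m : ℕ), Measurable g →
  (∀ x, |g x| ≤ B * (1 + ‖x‖) ^ m) →
    (∀ j, Integrable fun x => g x * Real.exp (-Uh (h j) ρ x)) ∧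
    Tendsto (fun j => ∫ x, g x * Real.exp (-Uh (h j) ρ x)) atTop (𝓝 (∫ x, g x * ρ x))

/-- JOB DSG. Geometry of the sections (`S_SLG` for densities).
Proof. As in `S_SLG` with `S = {ρ > 0}` (convex, nonempty interior, bounded) in place of `D`: for
`t ∈ [a, b]` there are interior points of `S` over `t`, so the section of `S` has interior points, and a
point which is interior in the section is interior in `S`; so `ρ` is continuous at `pt n t z` if `z` is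
interior in the section or outside the closure of the section (then `pt n t z` is outside the closure of
`S`: otherwise segments to an interior point of `S` over `t` show that `z` is in the closure of the
section); the frontier of the section is a null set. `LC` of the section: measurable, log-concave (`pt n t`
is affine), bounded support, mass finite (bounded, `S_DBD`) and positive. Lower bound of the masses by
compactness and lower semicontinuity: near an interior point over `t` one has `ρ ≥ c` on a ball. -/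
def S_DSG : Prop := ∀ (n : ℕ) (ρ : EK 1 n → ℝ), LC ρ → ∀ a b : ℝ, a ≤ b →
  (∃ x, 0 < ρ x ∧ tc x < a) → (∃ x, 0 < ρ x ∧ b < tc x) →
  (∀ t ∈ Icc a b, LC (fun z : Eu (Fin n) => ρ (pt n t z)) ∧
    ∀ᵐ z : Eu (Fin n), ContinuousAt ρ (pt n t z)) ∧
  ∃ v : ℝ, 0 < v ∧ ∀ t ∈ Icc a b, v ≤ ∫ z : Eu (Fin n), ρ (pt n t z)

/-- JOB DSC. The fibres of the regularisation converge, uniformly over `[a, b]` (`S_SLC` for densities).
Proof by contradiction with sequences `h_j → 0`, `t_j → t` in `[a, b]`: at almost every `z` (`S_DSG`) `ρ` is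
continuous at `pt n t z`, so `ρ (pt n t_j z) → ρ (pt n t z)` and `sh h_j ρ (pt n t_j z) → ρ (pt n t z)`
(approximate identity, locally uniform at points of continuity). Dominated by
`(1 + ‖z‖)^4 (C exp(-‖z‖²/16) + B 1_{‖z‖ ≤ R})` (`S_DBD`, `‖z‖ ≤ ‖pt n t z‖`). -/
def S_DSC : Prop := ∀ (n : ℕ) (ρ : EK 1 n → ℝ), LC ρ → ∀ a b : ℝ, a ≤ b →
  (∃ x, 0 < ρ x ∧ tc x < a) → (∃ x, 0 < ρ x ∧ b < tc x) → ∀ ε : ℝ, 0 < ε →
  ∃ h₀ : ℝ, 0 < h₀ ∧ ∀ h : ℝ, 0 < h → h ≤ h₀ → ∀ t ∈ Icc a b,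
    (Integrable fun z : Eu (Fin n) => (1 + ‖z‖) ^ 4 * Real.exp (-Uh h ρ (pt n t z))) ∧
    ∫ z : Eu (Fin n), (1 + ‖z‖) ^ 4 * |Real.exp (-Uh h ρ (pt n t z)) - ρ (pt n t z)| ≤ ε

/-- JOB DCR. A crude Poincare inequality for all fibres (`S_CRB` for densities).
Proof. `KT.crude_all` as in `Q182/EM/Crb`: it is enough that `∫ ‖z‖² Z ≤ M ∫ Z` for
`Z z = sh h ρ (pt n t z)`, all `t` and `0 < h ≤ 1`. By Fubini `Z z = gc⁻¹ ∫ ρ(x) exp(-(x_t - t)²/2h)
exp(-‖x_z - z‖²/2h) dx`, `x = (x_t, x_z)`, so `∫ ‖z‖² Z dz = gc⁻¹ ∫ ρ(x) exp(-(x_t - t)²/2h)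
(∫ ‖z‖² exp(-‖x_z - z‖²/2h) dz) dx` and the inner integral is
`(‖x_z‖² + n h) ∫ exp(-‖z‖²/2h) dz ≤ (R² + n) ∫ exp(-‖z‖²/2h) dz` on the support of `ρ`: `M = R² + n`.
(Any cruder bound of the inner integral by `M' ∫ exp(-‖z‖²/2h) dz` is enough, for instance
`‖z‖² ≤ 2 ‖x_z‖² + 2 ‖z - x_z‖²` and `r² exp(-r²/2h) ≤ C h exp(-r²/4h)`.) -/
def S_DCR : Prop := ∀ (n : ℕ) (ρ : EK 1 n → ℝ), LC ρ → ∃ M : ℝ, 0 < M ∧ ∀ h : ℝ, 0 < h → h ≤ 1 →
  FibreP (onSp (Uh h ρ)) (fun _ => M)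

/-- JOB DFB. The fibres over `[a, b]` satisfy the KLS inequality up to `ε`, if the sections do (`S_FBB` for
densities). Proof. As `Pool.Agent.Q193.EM.fbb`: there the fibre `Z` of the approximation is compared with
the indicator function of the section `sl D t`, here with `r = ρ (pt n t ·)`, of mass at least `v`
(`S_DSG`), support in the ball of radius `R`, and mass at most `V` (`V` a common bound): for `η` small and
`h ≤ h₀` (`S_DSC`) and continuous `F` with `|F z| ≤ L (1 + ‖z‖)` the variances of `F` for `Z / ∫ Z` and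
`r / ∫ r` differ by at most `K η L²`, `K = K(R, v)` (`var_cmp`, `int_cmp`, `vv_cmp` there). Then
`CovF ... σ` gives `CVd r (σ + K η)`, so `PId r (k (σ + K η))`, so the variances of 1-Lipschitz functions
for `Z / ∫ Z` are at most `k (σ + K η) + K η`, and `S_EMPc` gives the inequality. -/
def S_DFB : Prop := ∃ C : ℝ, 1 ≤ C ∧ ∀ (n : ℕ) (ρ : EK 1 n → ℝ), LC ρ → ∀ k : ℝ, 1 ≤ k →
  ∀ a b : ℝ, a ≤ b → (∃ x, 0 < ρ x ∧ tc x < a) → (∃ x, 0 < ρ x ∧ b < tc x) →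
  (∀ t ∈ Icc a b, KLSd (fun z : Eu (Fin n) => ρ (pt n t z)) k) →
  ∀ ε : ℝ, 0 < ε → ∃ h₀ : ℝ, 0 < h₀ ∧ ∀ h : ℝ, 0 < h → h ≤ h₀ →
    ∀ t ∈ Icc a b, ∀ σ : ℝ, 0 ≤ σ → CovF (onSp (Uh h ρ)) (oo t) σ →
    ∀ φ : Sp n → ℝ, ContDiff ℝ 1 φ → HasCompactSupport φ →
      dens (onSp (Uh h ρ)) (oo t) * (∫ z, φ z ^ 2 * Real.exp (-onSp (Uh h ρ) (oo t, z))) -
        (∫ z, φ z * Real.exp (-onSp (Uh h ρ) (oo t, z))) ^ 2 ≤
      C * (k * σ + ε) * dens (onSp (Uh h ρ)) (oo t) *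
        ∫ z, (∑ i, (pd (sv i) φ z) ^ 2) * Real.exp (-onSp (Uh h ρ) (oo t, z))

/-- JOB DTL. Tails of the first coordinate (`S_TLB` for densities). Proof as there:
`∫_{tc ≤ a} ρ → 0` as `a` decreases to the infimum of `tc` on `{ρ > 0}` (hyperplanes are null sets), and
`S_DLM` with `g` the indicator function of a half space. -/
def S_DTL : Prop := ∀ (n : ℕ) (ρ : EK 1 n → ℝ), LC ρ → ∀ τ : ℝ, 0 < τ → ∃ a b : ℝ, a ≤ b ∧
  (∃ x, 0 < ρ x ∧ tc x < a) ∧ (∃ x, 0 < ρ x ∧ b < tc x) ∧ ∃ h₀ : ℝ, 0 < h₀ ∧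
    ∀ h : ℝ, 0 < h → h ≤ h₀ → ∀ u : ℝ, u ∉ Icc a b →
      mn (fun x => onSp (Uh h ρ) x + Real.log (∫ y, Real.exp (-Uh h ρ y))) u ≤ τ

/-- JOB DCO. Covariances of the regularisations (`S_COA` for densities, simpler).
Proof. The regularisation is the law of `x + √h G`, so its covariance is the one of `ρ` plus `h`: exactly
`∫ ⟪θ, y⟫² sh h ρ y dy = ∫ (⟪θ, x⟫² + h ‖θ‖²) ρ(x) dx`, `∫ ⟪θ, y⟫ sh = ∫ ⟪θ, x⟫ ρ`, `∫ sh = ∫ ρ` (Fubini;
see `gs` and the lemmas on it: `∫ φ sh h ρ = ∫ (gs h φ) ρ`). Or by `S_DLM` and the argument of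
`var_unif` in `Q124/EM/COA`. -/
def S_DCO : Prop := ∀ (κ : Type) [Fintype κ] (ρ : Eu κ → ℝ), LC ρ → ∀ s : ℝ, CVd ρ s →
  ∀ ε : ℝ, 0 < ε → ∃ h₀ : ℝ, 0 < h₀ ∧ ∀ h : ℝ, 0 < h → h ≤ h₀ → CVm (Uh h ρ) (s + ε)

/-- JOB DLP. Lipschitz functions for `ρ` from the regularisations (`S_LPB` for densities).
Proof. `S_DLM` for `f², f, 1` with `h_j = h₀ / (j + 1)` gives
`(∫ f² ρ)/(∫ ρ) - ((∫ f ρ)/(∫ ρ))² ≤ D₀` for `f` of class `C¹` with `‖∇ f‖ ≤ 1`; then `em : S_EML` for the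
normalised density `ρ / ∫ ρ` (`LC`, mass one). -/
def S_DLP : Prop := ∃ C : ℝ, 1 ≤ C ∧ ∀ (κ : Type) [Fintype κ] (ρ : Eu κ → ℝ), LC ρ →
  ∀ D₀ h₀ : ℝ, 0 < h₀ →
  (∀ h : ℝ, 0 < h → h ≤ h₀ → ∀ f : Eu κ → ℝ, ContDiff ℝ 1 f → (∀ x, ‖fderiv ℝ f x‖ ≤ 1) →
    (∫ x, f x ^ 2 * Real.exp (-Uh h ρ x)) / (∫ x, Real.exp (-Uh h ρ x)) -
      ((∫ x, f x * Real.exp (-Uh h ρ x)) / ∫ x, Real.exp (-Uh h ρ x)) ^ 2 ≤ D₀) →
  PId ρ (C * D₀)

/-- JOB DON. **One step for densities of bounded support.**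
Proof. As `Pool.Agent.Q162.EM.one` (bodies), with `S_DFB`, `mln`, `S_DLP`, `S_DCR`, `S_DTL`, `S_DCO`,
`S_DSG`, `S_DPT`; the facts on the normalised potential `W = nW (Uh h ρ)` (`Std`, mass one, the variances)
are `std_pot`, `var_pot` in `Q86/EM/Onm`, and `W`-variances of 1-Lipschitz functions go over to `Uh h ρ` as
at the end of `onm` there. For `t ∈ [a, b]` the section is `LC` by `S_DSG`. -/
def S_DON : Prop := ∃ C : ℝ, 1 ≤ C ∧ ∀ (n : ℕ) (ρ : EK 1 n → ℝ), LC ρ → ∀ k : ℝ, 1 ≤ k →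
  (∀ t : ℝ, LC (fun z : Eu (Fin n) => ρ (pt n t z)) → KLSd (fun z : Eu (Fin n) => ρ (pt n t z)) k) →
    KLSd ρ (C * k)

/-- JOB DIN. Several base coordinates (`S_IND` for densities). Proof as `Pool.Agent.Q275.EM.ind`. -/
def S_DIN : Prop := ∃ C : ℝ, 1 ≤ C ∧ ∀ (m n : ℕ) (ρ : Eu (Fin m ⊕ Fin n) → ℝ), LC ρ → ∀ k : ℝ,
  1 ≤ k → (∀ t : Eu (Fin m), LC (fun z : Eu (Fin n) => ρ (pm m n t z)) →
    KLSd (fun z : Eu (Fin n) => ρ (pm m n t z)) k) → KLSd ρ (C ^ m * k)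

/-! ### products and forests -/

/-- JOB DRI. Reindexing. Proof: change of variables by the linear isometry `E` of the coordinates
(measure preserving), as in `Q275/EM/Ind`. -/
def S_DRI : Prop := ∀ (κ κ' : Type) [Fintype κ] [Fintype κ'] (e : κ ≃ κ') (ρ : Eu κ' → ℝ),
  (LC ρ → LC fun x : Eu κ => ρ (WithLp.toLp 2 fun j => x (e.symm j))) ∧
  ∀ k : ℝ, KLSd (fun x : Eu κ => ρ (WithLp.toLp 2 fun j => x (e.symm j))) k → KLSd ρ k

/-- JOB DPR. Products.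
Proof. `ρ = ρ₁ ⊗ ρ₂` on `Eu (α ⊕ β)`, masses `m₁, m₂ > 0`. `CVd ρ s` gives `CVd ρ₁ s`, `CVd ρ₂ s` (test with
`(θ, 0)`, `(0, θ)`). Tensorisation: for `f` of class `C¹`, with `g(x) = m₂⁻¹ ∫ f(x, y) ρ₂(y) dy`,
`Var f = E Var(f(x, ·)) + Var g`, the first term is at most `k s E |∇_y f|²`, and
`|∇ g|² ≤ m₂⁻¹ ∫ |∇_x f|² ρ₂ dy` (differentiate under the integral, the support of `ρ₂` is bounded, Jensen),
so `Var g ≤ k s E |∇_x f|²`. If `s < 0` then `α`, `β` are empty or the variance of a coordinate would be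
negative; so assume `0 ≤ s` when it is needed (`α`, `β` empty: all derivatives vanish). (There may be a
tensorisation lemma in the library: look for `tensor`, `Efron`, `prod` in `H888R2/KT`, `H212R2/KLS`,
`Q73/KL`.) -/
def S_DPR : Prop := ∀ (α β : Type) [Fintype α] [Fintype β] (ρ₁ : Eu α → ℝ) (ρ₂ : Eu β → ℝ),
  LC ρ₁ → LC ρ₂ → ∀ k : ℝ, 0 ≤ k → KLSd ρ₁ k → KLSd ρ₂ k →
  KLSd (fun x : Eu (α ⊕ β) => ρ₁ (WithLp.toLp 2 fun i => x (Sum.inl i)) *
    ρ₂ (WithLp.toLp 2 fun j => x (Sum.inr j))) k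

/-- a rooted forest of height at most `d` (`u ≤ v`: `u` is an ancestor of `v`, or `u = v`) -/
structure Frs (ι : Type) [Fintype ι] [PartialOrder ι] (d : ℕ) : Prop where
  chain : ∀ v a b : ι, a ≤ v → b ≤ v → a ≤ b ∨ b ≤ a
  height : ∀ v : ι, Nat.card {u : ι // u ≤ v} ≤ d

/-- log-concave factors `F v ≥ 0`, where `F v` depends only on the coordinates `x u`, `u ≤ v` -/
structure Fac {ι : Type} [Fintype ι] [PartialOrder ι] (F : ι → Eu ι → ℝ) : Prop where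
  nonneg : ∀ v x, 0 ≤ F v x
  meas : ∀ v, Measurable (F v)
  logc : ∀ v (x y : Eu ι) (t : ℝ), 0 < t → t < 1 →
    F v x ^ (1 - t) * F v y ^ t ≤ F v ((1 - t) • x + t • y)
  dep : ∀ v (x y : Eu ι), (∀ u, u ≤ v → x u = y u) → F v x = F v y

/-- JOB DTD. **Forests, bounded support.**
Proof. Let `C` be the constant of `S_DON`. Strong induction on the number of elements of `ι`, for all `d`
and `F` at once. Empty `ι`: all derivatives vanish and all functions are constant, `PId` is trivial for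
every constant. Otherwise let `r` be a minimal element.
Case 1: some `v` is not `≥ r`. Let `α = {v // r ≤ v}`, `β = {v // ¬ r ≤ v}`, both with fewer elements and
with the induced order (forests of height `≤ d`); in a forest, for `v ∈ α` all `u ≤ v` are comparable with
`r`, so `u ∈ α` (`u ≥ r`, or `u ≤ r`, then `u = r`), and for `v ∈ β` all `u ≤ v` are in `β`. So
`∏_v F_v (x) = ρ₁(x|α) ρ₂(x|β)`, `ρ₁ = ∏_{v ∈ α} F_v` (fill in the other coordinates by zero), and both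
are log-concave densities: `LC ρ₁`, `LC ρ₂` follow from `LC ρ` (Fubini: `m₁ m₂` is finite and positive, so
both are; bounded support: fix a point where the other one is positive). Induction and `S_DPR`, `S_DRI`
(`ι ≃ α ⊕ β`, `Equiv.sumCompl`).
Case 2: all `v ≥ r`. Then `d ≥ 1`. Let `β = {v // v ≠ r}`, `n` its number of elements,
`ι ≃ Fin 1 ⊕ Fin n` with `r ↦ inl 0`. The section over `x_r = t` is
`F_r(t) ∏_{v ≠ r} F_v(t, ·)`; `F_r(t)` is a constant, positive if the section is `LC`; `β` with the induced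
order is a forest of height `≤ d - 1` (every `u ≤ v` list loses `r`), the functions `F_v(t, ·)` are factors
(`Fac`) on it. By induction the section satisfies `KLSd` with `C^(d-1)` (constant multiples do not matter),
and `S_DON` gives `C^d`. -/
def S_DTD : Prop := ∃ C : ℝ, 1 ≤ C ∧ ∀ (ι : Type) [Fintype ι] [PartialOrder ι] (d : ℕ), Frs ι d →
  ∀ F : ι → Eu ι → ℝ, Fac F → LC (fun x => ∏ v, F v x) → KLSd (fun x => ∏ v, F v x) (C ^ d)

/-- JOB DGT. **Forests, all log-concave factors.**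
Proof. Let `μ` be the probability measure, `ρ = ∏_v F_v`. For `N : ℕ` let
`F_v^N(x) = F_v(x) 1_{|x_v| ≤ N}`: again `Fac`, and `ρ_N = ρ 1_{all |x_v| ≤ N}` is `LC` for large `N`
(bounded support, mass `m_N → 1`). `Var_{ρ_N/m_N} ⟪θ, x⟫ ≤ m_N⁻¹ ∫ (⟪θ, x⟫ - a)² dμ`, `a` the mean for `μ`,
so `CVd ρ_N (s / m_N)` (if `evariance < ∞` then `⟪θ, x⟫` is in `L²(μ)`). `S_DTD` gives for `f` of class `C¹`
`m_N ∫ f² ρ_N - (∫ f ρ_N)² ≤ C^d s ∫ ‖∇ f‖² ρ_N ≤ C^d s ∫⁻ ‖∇ f‖² dμ =: E`, and the left side is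
`1/2 ∬ (f(x) - f(y))² ρ_N(x) ρ_N(y)`. Monotone convergence: `1/2 ∫⁻∫⁻ (f(x) - f(y))² dμ dμ ≤ E`. If
`E < ∞` then for some `y` `∫⁻ (f(x) - f(y))² dμ(x) < ∞`, so `f ∈ L²(μ)` and the left side is the variance.
Compare `S_T` in `Q289/OP/Stm2` and `Pool.Agent.Q73.KL.var_of_lint`. -/
def S_DGT : Prop := ∃ C : ℝ, 1 ≤ C ∧ ∀ (ι : Type) [Fintype ι] [PartialOrder ι] (d : ℕ), Frs ι d →
  ∀ F : ι → Eu ι → ℝ, Fac F → ∀ μ : Measure (Eu ι),
  μ = volume.withDensity (fun x => ENNReal.ofReal (∏ v, F v x)) → IsProbabilityMeasure μ →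
  ∀ s : ℝ, 0 ≤ s →
  (∀ θ : Eu ι, ProbabilityTheory.evariance (fun x => ⟪θ, x⟫_ℝ) μ ≤ ENNReal.ofReal (s * ‖θ‖ ^ 2)) →
  ∀ f : Eu ι → ℝ, ContDiff ℝ 1 f → ProbabilityTheory.evariance f μ ≤
    ENNReal.ofReal (C ^ d * s) * ∫⁻ x, ENNReal.ofReal (‖fderiv ℝ f x‖ ^ 2) ∂μ

end Pool.Agent.Q86.EM
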