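import Pool.Agent.Q86.EM.Asm2
import Pool.Agent.Q86.EM.Stm5
import Pool.Agent.Q31.EM.DPT
import Pool.Agent.Q38.EM.Dbd
import Pool.Agent.Q38.EM.Dcr
import Pool.Agent.Q38.EM.Dfb
import Pool.Agent.Q38.EM.Dtl
import Pool.Agent.Q251.EM.Dlm
import Pool.Agent.Q224.EM.Dsg
import Pool.Agent.Q224.EM.Dsc
import Pool.Agent.Q214.EM.Dlp
import Pool.Agent.Q96.EM.Don
import Pool.Agent.Q121.EM.Dri
import Pool.Agent.Q121.EM.Dpr
import Pool.Agent.Q150.EM.DTD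
import Pool.Agent.Q121.EM.Dgt
import Pool.Agent.Q86.EM.Dco
import Pool.Agent.Q86.EM.Dgj

/-!
# Assembly of part V
-/

set_option autoImplicit false

namespace Pool.Agent.Q86.EM

theorem q_dpt : S_DPT := Pool.Agent.Q31.EM.DPT.dpt

theorem q_dbd : S_DBD := Pool.Agent.Q38.EM.dbd

theorem q_dlm : S_DLM := Pool.Agent.Q251.EM.Dlm.dlm q_dpt q_dbd

theorem q_dsg : S_DSG := Pool.Agent.Q224.EM.dsg q_dbd

theorem q_dsc : S_DSC := Pool.Agent.Q224.EM.dsc q_dbd q_dsg q_dpt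

theorem q_dcr : S_DCR := Pool.Agent.Q38.EM.dcr q_dpt

theorem q_dfb : S_DFB := Pool.Agent.Q38.EM.dfb p_empc q_dsg q_dsc q_dpt q_dbd

theorem q_dtl : S_DTL := Pool.Agent.Q38.EM.dtl q_dlm q_dpt

theorem q_dlp : S_DLP := Pool.Agent.Q214.EM.dlp q_dlm em

theorem q_dco : S_DCO := dco q_dpt q_dlm

theorem q_don : S_DON :=
  Pool.Agent.Q96.EM.DON.don q_dfb mln q_dlp q_dcr q_dtl q_dco q_dsg q_dpt

theorem q_dtd : S_DTD :=
  Pool.Agent.Q150.EM.DTD.dtd q_don Pool.Agent.Q121.EM.dri Pool.Agent.Q121.EM.dpr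

theorem q_dgj : S_DGJ := dgj q_dtd

end Pool.Agent.Q86.EM
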