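import Pool.Agent.Q86.EM.Chp
import Pool.Agent.Q251.EM.Pch

/-!
# Q1 passes from the parallel sections of a convex body to the body
-/

set_option autoImplicit false

namespace Pool.Agent.Q86.EM

open MeasureTheory Set
open scoped ENNReal InnerProductSpace

theorem CB_sm {m n : ℕ} {D : Set (Eu (Fin m ⊕ Fin n))} (h : CB D) (t : Eu (Fin m))
    (ht : (interior (sm D t)).Nonempty) : CB (sm D t) := by
  have hc : Continuous (pm m n t) := by
    unfold pm
    refine (PiLp.continuous_toLp 2 _).comp (continuous_pi fun i => ?_)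
    rcases i with i | i
    · exact continuous_const
    · exact (continuous_apply i).comp (PiLp.continuous_ofLp 2 _)
  have hi : Isometry (pm m n t) := by
    refine Isometry.of_dist_eq fun x y => ?_
    rw [EuclideanSpace.dist_eq, EuclideanSpace.dist_eq, Fintype.sum_sum_type]
    have e1 : ∀ (z : Eu (Fin n)) (i : Fin m), pm m n t z (Sum.inl i) = t i := fun _ _ => rfl
    have e2 : ∀ (z : Eu (Fin n)) (i : Fin n), pm m n t z (Sum.inr i) = z i := fun _ _ => rfl
    simp only [e1, e2, dist_self]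
    simp
  refine ⟨?_, ?_, ht⟩
  · exact hi.isClosedEmbedding.isCompact_preimage h.cpt
  · intro x hx y hy a b ha hb hab
    show pm m n t (a • x + b • y) ∈ D
    have e : pm m n t (a • x + b • y) = a • pm m n t x + b • pm m n t y := by
      ext i
      rcases i with i | i
      · show t i = a * t i + b * t i
        rw [← add_mul, hab, one_mul]
      · rfl
    rw [e]
    exact h.cvx hx hy ha hb hab

theorem main_che (h1 : S_CHL) (h2 : S_HLF) : ∃ C : ℝ, 1 ≤ C ∧
    ∀ (m n : ℕ) (D : Set (Eu (Fin m ⊕ Fin n))), CB D → ∀ k : ℝ, 1 ≤ k →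
    (∀ t : Eu (Fin m), (interior (sm D t)).Nonempty → KLSh (sm D t) k) →
    KLSh D (C ^ (m + 1) * k) := by
  obtain ⟨C₁, hC₁, H1⟩ := chp h1 h2
  obtain ⟨C₂, hC₂, H2⟩ := p_ind
  obtain ⟨C₃, hC₃, H3⟩ := Q251.EM.Pch.pch
  refine ⟨C₁ * C₂ * C₃, one_le_mul_of_one_le_of_one_le
    (one_le_mul_of_one_le_of_one_le hC₁ hC₂) hC₃, ?_⟩
  intro m n D hD k hk hs
  have hk0 : 0 < k := by linarith
  have hk2 : 1 ≤ C₁ * k ^ 2 := one_le_mul_of_one_le_of_one_le hC₁ (one_le_pow₀ hk)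
  have hm : 1 ≤ C₂ ^ m := one_le_pow₀ hC₂
  have hind := H2 m n D hD (C₁ * k ^ 2) hk2 fun t ht => H1 _ (sm D t) (CB_sm hD t ht) k hk (hs t ht)
  have hche := H3 _ D hD (C₂ ^ m * (C₁ * k ^ 2)) (one_le_mul_of_one_le_of_one_le hm hk2) hind
  intro t ht A hA
  refine (hche t ht A hA).trans (mul_le_mul_left (ENNReal.ofReal_le_ofReal ?_) _)
  have e1 : Real.sqrt (C₂ ^ m * (C₁ * k ^ 2)) ≤ C₂ ^ m * C₁ * k := by
    rw [Real.sqrt_le_left (by positivity)]
    have e2 : (C₂ ^ m * C₁ * k) ^ 2 = (C₂ ^ m * C₁) * (C₂ ^ m * (C₁ * k ^ 2)) := by ring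
    rw [e2]
    exact le_mul_of_one_le_left (by positivity) (one_le_mul_of_one_le_of_one_le hm hC₁)
  have hC13 : 1 ≤ C₁ * C₃ := one_le_mul_of_one_le_of_one_le hC₁ hC₃
  calc C₃ * Real.sqrt (C₂ ^ m * (C₁ * k ^ 2)) ≤ C₃ * (C₂ ^ m * C₁ * k) :=
        mul_le_mul_of_nonneg_left e1 (by linarith)
    _ = C₂ ^ m * (C₁ * C₃) ^ 1 * k := by ring
    _ ≤ C₂ ^ (m + 1) * (C₁ * C₃) ^ (m + 1) * k := by
        refine mul_le_mul_of_nonneg_right ?_ hk0.le
        exact mul_le_mul (pow_le_pow_right₀ hC₂ (by omega)) (pow_le_pow_right₀ hC13 (by omega))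
          (by positivity) (by positivity)
    _ = (C₁ * C₂ * C₃) ^ (m + 1) * k := by
        rw [← mul_pow]
        ring

end Pool.Agent.Q86.EM
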