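import Pool.Agent.H888R2.KB.N1

/-!
# Lipschitz functions and the Poincare inequality for log-concave densities: definitions

`mu ρ` is the measure with the density `ρ`, `gs h v x = E v(x + √h G)`, `pst h ρ u y = E[u(x) | y]` for
`y = x + √h G`.
-/

set_option autoImplicit false

namespace Pool.Agent.Q86.EM

open MeasureTheory Set Filter Topology
open scoped ENNReal InnerProductSpace ContDiff
open Pool.Agent.H888R2.KT (LC pst gs zz gc)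
open Pool.Agent.H212R2.KLS (mu Bdd)

/-- Euclidean space -/
abbrev Eu (κ : Type) [Fintype κ] : Type := EuclideanSpace ℝ κ

/-- the law of `y = x + √h G` -/
noncomputable def ny {κ : Type} [Fintype κ] (h : ℝ) (ρ : Eu κ → ℝ) : Measure (Eu κ) :=
  volume.withDensity fun y => ENNReal.ofReal (zz h ρ y / gc κ h)

/-- `K`, convex on `[0, 1]` -/
noncomputable def Kp (w : ℝ) : ℝ := 3 / 10 * w ^ 2 + 7 / 15 * w ^ 3 - 1 / 4 * w ^ 4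

/-- `K'` -/
noncomputable def Ps (w : ℝ) : ℝ := 3 / 5 * w + 7 / 5 * w ^ 2 - w ^ 3

/-- `K''` -/
noncomputable def Pd (w : ℝ) : ℝ := 3 / 5 + 14 / 5 * w - 3 * w ^ 2

/-- continuous functions with values in `[0, 1]` -/
structure Vc {κ : Type} [Fintype κ] (v : Eu κ → ℝ) : Prop where
  cont : Continuous v
  nn : ∀ y, 0 ≤ v y
  le : ∀ y, v y ≤ 1

/-- the functional -/
noncomputable def JJ {κ : Type} [Fintype κ] (h : ℝ) (ρ v : Eu κ → ℝ) : ℝ :=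
  1 / 2 * ∫ y, v y ^ 2 ∂(ny h ρ) - ∫ x, Kp (gs h v x) ∂(mu ρ)

/-! ### facts on the polynomials -/

theorem Ps_nn {w : ℝ} (h0 : 0 ≤ w) (h1 : w ≤ 1) : 0 ≤ Ps w := by
  unfold Ps
  nlinarith [mul_nonneg h0 h0, mul_nonneg (mul_nonneg h0 h0) (sub_nonneg.2 h1)]

theorem Ps_le {w : ℝ} (h0 : 0 ≤ w) (h1 : w ≤ 1) : Ps w ≤ 1 := by
  unfold Ps
  nlinarith [mul_nonneg h0 (sub_nonneg.2 h1), mul_nonneg (mul_nonneg h0 h0) (sub_nonneg.2 h1),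
    mul_nonneg (sub_nonneg.2 h1) (sub_nonneg.2 h1)]

theorem Pd_nn {w : ℝ} (h0 : 0 ≤ w) (h1 : w ≤ 1) : 0 ≤ Pd w := by
  unfold Pd
  nlinarith [mul_nonneg h0 (sub_nonneg.2 h1)]

theorem Pd_le (w : ℝ) : Pd w ≤ 2 := by
  unfold Pd
  nlinarith [sq_nonneg (w - 1 / 2)]

theorem Kp_conv {w c : ℝ} (h0 : 0 ≤ w) (h1 : w ≤ 1) (k0 : 0 ≤ c) (k1 : c ≤ 1) :
    Kp c + Ps c * (w - c) ≤ Kp w := by
  have e : Kp w - (Kp c + Ps c * (w - c)) =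
      (w - c) ^ 2 * (3 / 10 + 7 / 15 * (w + 2 * c) - 1 / 4 * (w ^ 2 + 2 * w * c + 3 * c ^ 2)) := by
    unfold Kp Ps
    ring
  have h2 : 0 ≤ 3 / 10 + 7 / 15 * (w + 2 * c) - 1 / 4 * (w ^ 2 + 2 * w * c + 3 * c ^ 2) := by
    nlinarith [mul_nonneg h0 (sub_nonneg.2 h1), mul_nonneg k0 (sub_nonneg.2 k1), sq_nonneg (w - c)]
  nlinarith [mul_nonneg (sq_nonneg (w - c)) h2]

theorem Kp_upper {w c : ℝ} (h0 : 0 ≤ w) (h1 : w ≤ 1) (k0 : 0 ≤ c) (k1 : c ≤ 1) :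
    Kp w ≤ Kp c + Ps c * (w - c) + 2 * (w - c) ^ 2 := by
  have e : Kp w - (Kp c + Ps c * (w - c)) =
      (w - c) ^ 2 * (3 / 10 + 7 / 15 * (w + 2 * c) - 1 / 4 * (w ^ 2 + 2 * w * c + 3 * c ^ 2)) := by
    unfold Kp Ps
    ring
  have h2 : 3 / 10 + 7 / 15 * (w + 2 * c) - 1 / 4 * (w ^ 2 + 2 * w * c + 3 * c ^ 2) ≤ 2 := by
    nlinarith [mul_nonneg h0 k0, sq_nonneg w, sq_nonneg c]
  nlinarith [mul_le_mul_of_nonneg_left h2 (sq_nonneg (w - c))]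

theorem Kp_second (w b : ℝ) :
    Kp (w + b) + Kp (w - b) - 2 * Kp w = Pd w * b ^ 2 - 1 / 2 * b ^ 4 := by
  unfold Kp Pd
  ring

theorem Kp_nn {w : ℝ} (h0 : 0 ≤ w) (h1 : w ≤ 1) : 0 ≤ Kp w := by
  have e : Kp w = w ^ 2 * (3 / 10 + 7 / 15 * w - 1 / 4 * w ^ 2) := by
    unfold Kp
    ring
  rw [e]
  refine mul_nonneg (sq_nonneg _) ?_
  nlinarith

theorem Kp_le {w : ℝ} (h0 : 0 ≤ w) (h1 : w ≤ 1) : Kp w ≤ 1 := by
  have h := Kp_upper h0 h1 le_rfl zero_le_one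
  have e : Kp 0 = 0 := by unfold Kp; ring
  have e2 : Ps 0 = 0 := by unfold Ps; ring
  unfold Kp
  nlinarith [mul_nonneg h0 (sub_nonneg.2 h1), mul_nonneg (mul_nonneg h0 h0) (sub_nonneg.2 h1),
    pow_nonneg h0 2, pow_nonneg h0 3, pow_nonneg h0 4]

theorem Kp_lip {w c : ℝ} (h0 : 0 ≤ w) (h1 : w ≤ 1) (k0 : 0 ≤ c) (k1 : c ≤ 1) :
    |Kp w - Kp c| ≤ |w - c| := by
  have a := Kp_conv h0 h1 k0 k1
  have b := Kp_conv k0 k1 h0 h1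
  have p1 := Ps_nn h0 h1
  have p2 := Ps_le h0 h1
  have p3 := Ps_nn k0 k1
  have p4 := Ps_le k0 k1
  rcases le_total w c with h | h
  · rw [abs_of_nonpos (by nlinarith : Kp w - Kp c ≤ 0), abs_of_nonpos (by linarith : w - c ≤ 0)]
    nlinarith
  · rw [abs_of_nonneg (by nlinarith : 0 ≤ Kp w - Kp c), abs_of_nonneg (by linarith : 0 ≤ w - c)]
    nlinarith

theorem Ps_diff (w c : ℝ) : Ps w - Ps c =
    (w - c) * (3 / 5 + 7 / 5 * (w + c) - (w ^ 2 + w * c + c ^ 2)) := by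
  unfold Ps
  ring

theorem Ps_lip {w c : ℝ} (h0 : 0 ≤ w) (h1 : w ≤ 1) (k0 : 0 ≤ c) (k1 : c ≤ 1) :
    |Ps w - Ps c| ≤ 2 * |w - c| := by
  rw [Ps_diff, abs_mul, mul_comm]
  refine mul_le_mul_of_nonneg_right ?_ (abs_nonneg _)
  rw [abs_le]
  constructor
  · nlinarith [mul_nonneg h0 (sub_nonneg.2 h1), mul_nonneg k0 (sub_nonneg.2 k1), mul_nonneg h0 k0]
  · nlinarith [sq_nonneg (w + c - 1), sq_nonneg (w - c), mul_nonneg h0 k0]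

theorem Ps_mono_mul {w c : ℝ} (h0 : 0 ≤ w) (h1 : w ≤ 1) (k0 : 0 ≤ c) (k1 : c ≤ 1) :
    (Ps w - Ps c) * (w - c) ≤ 2 * (w - c) ^ 2 := by
  have h := Ps_lip h0 h1 k0 k1
  calc (Ps w - Ps c) * (w - c) ≤ |(Ps w - Ps c) * (w - c)| := le_abs_self _
    _ = |Ps w - Ps c| * |w - c| := abs_mul _ _
    _ ≤ 2 * |w - c| * |w - c| := mul_le_mul_of_nonneg_right h (abs_nonneg _)
    _ = 2 * (w - c) ^ 2 := by rw [mul_assoc, abs_mul_abs_self]; ring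

/-- constants up to one half are harmless -/
theorem Kp_half {c : ℝ} (h0 : 0 ≤ c) (h1 : c ≤ 1 / 2) : Kp c ≤ 1 / 2 * c ^ 2 := by
  have e : 1 / 2 * c ^ 2 - Kp c = c ^ 2 * (1 / 5 - 7 / 15 * c + 1 / 4 * c ^ 2) := by
    unfold Kp
    ring
  have h2 : 0 ≤ 1 / 5 - 7 / 15 * c + 1 / 4 * c ^ 2 := by nlinarith [sq_nonneg (c - 1 / 2)]
  nlinarith [mul_nonneg (sq_nonneg c) h2]

theorem Kp_at_half : 1 / 2 * (1 / 2 : ℝ) ^ 2 - Kp (1 / 2) = 7 / 960 := by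
  unfold Kp
  norm_num

theorem kh_ge {u : ℝ} (h0 : 0 ≤ u) (h1 : u ≤ 1) : -(1 / 100) ≤ Kp u - 1 / 2 * u ^ 2 := by
  have e : Kp u - 1 / 2 * u ^ 2 + 1 / 100 =
      (u - 2 / 5) ^ 2 * (4 / 75 + 4 / 15 * u - 1 / 4 * u ^ 2) + 11 / 7500 := by
    unfold Kp
    ring
  have h2 : 0 ≤ 4 / 75 + 4 / 15 * u - 1 / 4 * u ^ 2 := by nlinarith
  nlinarith [mul_nonneg (sq_nonneg (u - 2 / 5)) h2]

theorem kh_one : Kp 1 - 1 / 2 * (1 : ℝ) ^ 2 = 1 / 60 := by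
  unfold Kp
  norm_num

theorem kh_zero : Kp 0 - 1 / 2 * (0 : ℝ) ^ 2 = 0 := by
  unfold Kp
  norm_num

end Pool.Agent.Q86.EM
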