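import Pool.Agent.Q86.EM.Asm3

/-!
# Several base coordinates, densities

Compare `Pool.Agent.Q275.EM.ind` (helper275).
-/

set_option autoImplicit false

namespace Pool.Agent.Q86.EM

open MeasureTheory Set Filter Topology
open scoped ENNReal InnerProductSpace ContDiff
open Pool.Agent.H888R2.KT (LC)
open Pool.Agent.Q86.FIB (EK)
open Pool.Agent.Q275.EM (rx rx_apply ix ix_symm_inr ix_symm_zero ix_symm_succ pt_inl pt_inr pm_inl
  pm_inr)

theorem din (h : S_DON) (hr : S_DRI) : S_DIN := by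
  obtain ⟨C, hC1, hC⟩ := h
  refine ⟨C, hC1, fun m => ?_⟩
  induction m with
  | zero =>
    intro n ρ hρ k hk hs
    rw [pow_zero, one_mul]
    obtain ⟨r1, r2⟩ := hr _ _ (Equiv.emptySum (Fin 0) (Fin n)).symm ρ
    have h1 : (fun x : Eu (Fin n) => ρ (WithLp.toLp 2 fun j =>
        x ((Equiv.emptySum (Fin 0) (Fin n)).symm.symm j))) = fun z => ρ (pm 0 n 0 z) := by
      funext z
      congr 1
      ext i
      rcases i with i | i
      · exact i.elim0
      · rfl
    rw [h1] at r1 r2
    exact r2 k (hs 0 (r1 hρ))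
  | succ m ih =>
    intro n ρ hρ k hk hs
    have hCm : 1 ≤ C ^ m * k := by
      have := one_le_pow₀ (n := m) hC1
      nlinarith
    have key : ∀ (u : ℝ) (t : Eu (Fin m)) (z : Eu (Fin n)),
        rx (ix m n) (pt (m + n) u (rx finSumFinEquiv (pm m n t z))) =
          pm (m + 1) n (WithLp.toLp 2 (Fin.cons u t)) z := by
      intro u t z
      ext i
      rcases i with i | i
      · refine Fin.cases ?_ (fun i => ?_) i
        · rw [rx_apply, ix_symm_zero, pt_inl, pm_inl]
          rfl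
        · rw [rx_apply, ix_symm_succ, pt_inr, rx_apply, Equiv.symm_apply_apply, pm_inl, pm_inl]
          rfl
      · rw [rx_apply, ix_symm_inr, pt_inr, rx_apply, Equiv.symm_apply_apply, pm_inr, pm_inr]
    obtain ⟨r1, r2⟩ := hr _ _ (ix m n) ρ
    have e1 : (fun x : Eu (Fin 1 ⊕ Fin (m + n)) => ρ (WithLp.toLp 2 fun j => x ((ix m n).symm j))) =
        fun x => ρ (rx (ix m n) x) := rfl
    rw [e1] at r1 r2
    have hρ' := r1 hρ
    have h1 : ∀ u : ℝ, LC (fun w : Eu (Fin (m + n)) => ρ (rx (ix m n) (pt (m + n) u w))) →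
        KLSd (fun w : Eu (Fin (m + n)) => ρ (rx (ix m n) (pt (m + n) u w))) (C ^ m * k) := by
      intro u hu
      obtain ⟨r3, r4⟩ := hr _ _ (finSumFinEquiv (m := m) (n := n))
        (fun w : Eu (Fin (m + n)) => ρ (rx (ix m n) (pt (m + n) u w)))
      have e2 : (fun x : Eu (Fin m ⊕ Fin n) => (fun w : Eu (Fin (m + n)) =>
          ρ (rx (ix m n) (pt (m + n) u w))) (WithLp.toLp 2 fun j => x (finSumFinEquiv.symm j))) =
          fun x => ρ (rx (ix m n) (pt (m + n) u (rx finSumFinEquiv x))) := rfl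
      rw [e2] at r3 r4
      refine r4 _ (ih n _ (r3 hu) k hk ?_)
      intro t ht
      simp only [key] at ht ⊢
      exact hs _ ht
    have h4 := hC (m + n) (fun x => ρ (rx (ix m n) x)) hρ' (C ^ m * k) hCm h1
    have h5 := r2 _ h4
    rw [pow_succ, mul_comm (C ^ m) C, mul_assoc]
    exact h5

theorem q_din : S_DIN := din q_don Pool.Agent.Q121.EM.dri

end Pool.Agent.Q86.EM
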