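import Pool.Agent.Q86.EM.Idn
import Pool.Agent.Q86.EM.Che1
import Pool.Agent.Q193.EM.Chl
import Pool.Agent.Q193.EM.Hlf
import Pool.Agent.Q188.NC.Hyp

/-!
# Open domains fibred in sections, and bodies with a forest structure
-/

set_option autoImplicit false

namespace Pool.Agent.Q86.EM

open MeasureTheory Set Filter Topology
open scoped ENNReal InnerProductSpace ContDiff Pointwise
open Pool.Agent.H888R2.KT (LC)
open Pool.Agent.W695.KH (EV VV)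
open Pool.Agent.Q188.SB (un bdr)
open Pool.Agent.Q162.EM (vol_pos EV_nn VV_nn PI_mono)

theorem p_chp : S_CHP := chp Pool.Agent.Q193.EM.Chl.chl Pool.Agent.Q193.EM.Hlf.hlf

theorem ic_pm {m n : ℕ} (Ω : Set (Eu (Fin m ⊕ Fin n))) (t : Eu (Fin m)) :
    (fun z : Eu (Fin n) => ic Ω (pm m n t z)) = ic (sm Ω t) := by
  funext z
  by_cases h : pm m n t z ∈ Ω
  · rw [ic_mem h, ic_mem (show z ∈ sm Ω t from h)]
  · rw [ic_not h, ic_not (show z ∉ sm Ω t from h)]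

/-- KLS passes from the sections of an open convex set to the set -/
theorem par_open (h : S_DIN) : ∃ C : ℝ, 1 ≤ C ∧ ∀ (m n : ℕ) (Ω : Set (Eu (Fin m ⊕ Fin n))), OB Ω →
    ∀ k : ℝ, 1 ≤ k → (∀ t : Eu (Fin m), (sm Ω t).Nonempty → KLSh (sm Ω t) k) →
    KLSc Ω (C ^ m * (C * k ^ 2)) := by
  obtain ⟨C₁, hC₁, H1⟩ := p_chp
  obtain ⟨C₂, hC₂, H2⟩ := h
  refine ⟨C₁ * C₂, one_le_mul_of_one_le_of_one_le hC₁ hC₂, ?_⟩
  intro m n Ω hΩ k hk hs
  have hk0 : 0 < k := by linarith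
  have hk2 : 1 ≤ C₁ * k ^ 2 := one_le_mul_of_one_le_of_one_le hC₁ (one_le_pow₀ hk)
  have h1 := H2 m n (ic Ω) hΩ.LC (C₁ * k ^ 2) hk2 (by
    intro t hLC
    rw [ic_pm] at hLC ⊢
    have hne : (sm Ω t).Nonempty := by
      by_contra h0
      rw [not_nonempty_iff_eq_empty] at h0
      apply hLC.ne
      rw [h0, mu_ic MeasurableSet.empty]
      simp
    have hO := hΩ.slice t hne
    rw [KLSd_ic hO.op.measurableSet hO.tr, ← hO.KLSc_cl]
    exact H1 _ _ hO.cb k hk ((hO.KLSh_cl k).2 (hs t hne)))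
  rw [KLSd_ic hΩ.op.measurableSet hΩ.tr] at h1
  intro s hCV f hf
  refine (h1 s hCV f hf).trans ?_
  rcases isEmpty_or_nonempty (Fin m ⊕ Fin n) with hE | hE
  · have e3 : (fun x => ‖fderiv ℝ f x‖ ^ 2) = fun _ => (0 : ℝ) := by
      funext x
      have hsub : Subsingleton (Eu (Fin m ⊕ Fin n)) := by
        constructor
        intro a b
        ext i
        exact (IsEmpty.false i).elim
      have : fderiv ℝ f x = 0 := by
        ext v
        rw [Subsingleton.elim v 0]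
        simp
      rw [this]
      simp
    rw [e3]
    unfold EV
    simp
  · have hs0 : 0 ≤ s := by
      refine CV_nn' hΩ.cb (s := s) ?_
      intro θ
      rw [hΩ.VV_cl]
      exact hCV θ
    have hE0 : 0 ≤ EV Ω fun x => ‖fderiv ℝ f x‖ ^ 2 := EV_nn _ _ fun x => sq_nonneg _
    refine mul_le_mul_of_nonneg_right (mul_le_mul_of_nonneg_right ?_ hs0) hE0
    have e : (C₁ * C₂) ^ m * (C₁ * C₂ * k ^ 2) = (C₁ ^ m * C₂) * (C₂ ^ m * (C₁ * k ^ 2)) := by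
      rw [mul_pow]
      ring
    rw [e]
    exact le_mul_of_one_le_left (by positivity)
      (one_le_mul_of_one_le_of_one_le (one_le_pow₀ hC₁) hC₂)

/-! ### forests -/

variable {ι : Type} [Fintype ι] [PartialOrder ι]

/-- `x` is in `D` if for every `v` some point of `D` has the coordinates `x u`, `u ≤ v` -/
def FD (D : Set (Eu ι)) : Prop := ∀ x : Eu ι, (∀ v : ι, ∃ y ∈ D, ∀ u : ι, u ≤ v → y u = x u) → x ∈ D

/-- the projection to the coordinates `u ≤ v`, as a cylinder -/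
def cyl (D : Set (Eu ι)) (v : ι) : Set (Eu ι) := {x | ∃ y ∈ D, ∀ u : ι, u ≤ v → y u = x u}

/-- the vectors with zero coordinates `u ≤ v` -/
def ker (v : ι) : Set (Eu ι) := {w | ∀ u : ι, u ≤ v → w u = 0}

theorem cyl_eq (D : Set (Eu ι)) (v : ι) : cyl D v = D + ker v := by
  ext x
  constructor
  · rintro ⟨y, hy, h⟩
    refine mem_add.2 ⟨y, hy, x - y, fun u hu => ?_, by abel⟩
    show x u - y u = 0
    rw [h u hu, sub_self]
  · intro h
    obtain ⟨y, hy, w, hw, rfl⟩ := mem_add.1 h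
    refine ⟨y, hy, fun u hu => ?_⟩
    show y u = y u + w u
    rw [hw u hu, add_zero]

theorem ker_closed (v : ι) : IsClosed (ker v) := by
  have e : ker v = ⋂ u ∈ {u : ι | u ≤ v}, {w : Eu ι | w u = 0} := by
    ext w
    simp [ker]
  rw [e]
  refine isClosed_biInter fun u _ => isClosed_eq ?_ continuous_const
  exact (continuous_apply u).comp (PiLp.continuous_ofLp 2 _)

theorem cyl_closed {D : Set (Eu ι)} (h : IsCompact D) (v : ι) : IsClosed (cyl D v) := by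
  rw [cyl_eq]
  exact (ker_closed v).add_left_of_isCompact h

theorem cyl_open {D : Set (Eu ι)} (h : IsOpen D) (v : ι) : IsOpen (cyl D v) := by
  rw [cyl_eq]
  exact h.add_right

theorem cyl_convex {D : Set (Eu ι)} (h : Convex ℝ D) (v : ι) : Convex ℝ (cyl D v) := by
  rintro x ⟨x', hx, hx'⟩ y ⟨y', hy, hy'⟩ a b ha hb hab
  refine ⟨a • x' + b • y', h hx hy ha hb hab, fun u hu => ?_⟩
  show a * x' u + b * y' u = a * x u + b * y u
  rw [hx' u hu, hy' u hu]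

theorem Fac_cyl {D : Set (Eu ι)} (hm : ∀ v, MeasurableSet (cyl D v)) (hc : Convex ℝ D) :
    Fac fun v => ic (cyl D v) := by
  refine ⟨fun v => ic_nn _, fun v => measurable_const.indicator (hm v), ?_, ?_⟩
  · intro v x y t ht ht1
    by_cases hx : x ∈ cyl D v
    · by_cases hy : y ∈ cyl D v
      · rw [ic_mem hx, ic_mem hy, ic_mem (cyl_convex hc v hx hy (by linarith) ht.le (by ring))]
        simp
      · rw [ic_not hy, Real.zero_rpow ht.ne', mul_zero]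
        exact ic_nn _ _
    · rw [ic_not hx, Real.zero_rpow (by linarith), zero_mul]
      exact ic_nn _ _
  · intro v x y hxy
    by_cases hx : x ∈ cyl D v
    · have hy : y ∈ cyl D v := by
        obtain ⟨z, hz, h⟩ := hx
        exact ⟨z, hz, fun u hu => (h u hu).trans (hxy u hu)⟩
      rw [ic_mem hx, ic_mem hy]
    · have hy : y ∉ cyl D v := by
        rintro ⟨z, hz, h⟩
        exact hx ⟨z, hz, fun u hu => (h u hu).trans (hxy u hu).symm⟩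
      rw [ic_not hx, ic_not hy]

theorem prod_cyl {D : Set (Eu ι)} (h : FD D) : (fun x => ∏ v, ic (cyl D v) x) = ic D := by
  funext x
  by_cases hx : x ∈ D
  · rw [ic_mem hx]
    exact Finset.prod_eq_one fun v _ => ic_mem ⟨x, hx, fun u _ => rfl⟩
  · rw [ic_not hx]
    have : ∃ v, x ∉ cyl D v := by
      by_contra h0
      push Not at h0
      exact hx (h x h0)
    obtain ⟨v, hv⟩ := this
    exact Finset.prod_eq_zero (Finset.mem_univ v) (ic_not hv)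

/-- measurable version -/
theorem frb_meas {C : ℝ} {d : ℕ}
    (H : ∀ F : ι → Eu ι → ℝ, Fac F → LC (fun x => ∏ v, F v x) → KLSd (fun x => ∏ v, F v x) (C ^ d))
    {D : Set (Eu ι)} (hm : MeasurableSet D) (hcm : ∀ v, MeasurableSet (cyl D v)) (hc : Convex ℝ D)
    (hb : Bornology.IsBounded D) (hpos : 0 < volume D) (hF : FD D) : KLSc D (C ^ d) := by
  have h1 := H _ (Fac_cyl hcm hc)
  rw [prod_cyl hF] at h1
  rw [← KLSd_ic hm (ENNReal.toReal_pos hpos.ne' hb.measure_lt_top.ne)]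
  exact h1 (LC_ic hm hc hb hpos)

theorem frb (h : S_DTD) : ∃ C : ℝ, 1 ≤ C ∧ ∀ (ι : Type) [Fintype ι] [PartialOrder ι] (d : ℕ),
    Frs ι d → ∀ D : Set (Eu ι), FD D → (CB D → KLSc D (C ^ d)) ∧ (OB D → KLSc D (C ^ d)) := by
  obtain ⟨C, hC, H⟩ := h
  refine ⟨C, hC, ?_⟩
  intro ι _ _ d hd D hF
  refine ⟨fun hD => ?_, fun hD => ?_⟩
  · exact frb_meas (H ι d hd) hD.cpt.measurableSet
      (fun v => (cyl_closed hD.cpt v).measurableSet) hD.cvx hD.cpt.isBounded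
      ((isOpen_interior.measure_pos _ hD.int).trans_le (measure_mono interior_subset)) hF
  · exact frb_meas (H ι d hd) hD.op.measurableSet
      (fun v => (cyl_open hD.op v).measurableSet) hD.cvx hD.bdd hD.pos hF

theorem sqrt_pow_le {C : ℝ} (hC : 1 ≤ C) (d : ℕ) : Real.sqrt (C ^ d) ≤ C ^ d := by
  have h1 : 1 ≤ C ^ d := one_le_pow₀ hC
  rw [Real.sqrt_le_left (by positivity)]
  nlinarith

/-- **Q1 for bodies with a forest structure** -/
theorem frh (h : S_DTD) : ∃ C : ℝ, 1 ≤ C ∧ ∀ (ι : Type) [Fintype ι] [PartialOrder ι] (d : ℕ),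
    1 ≤ d → Frs ι d → ∀ D : Set (Eu ι), CB D → FD D → KLSh D (C ^ d) := by
  obtain ⟨C₂, hC₂, H2⟩ := frb h
  obtain ⟨C₃, hC₃, H3⟩ := Q251.EM.Pch.pch
  refine ⟨C₃ * C₂, one_le_mul_of_one_le_of_one_le hC₃ hC₂, ?_⟩
  intro ι _ _ d hd hF D hD hFD t ht A hA
  have h1 := H3 ι D hD (C₂ ^ d) (one_le_pow₀ hC₂) ((H2 ι d hF D hFD).1 hD)
  refine (h1 t ht A hA).trans (mul_le_mul_left (ENNReal.ofReal_le_ofReal ?_) _)
  rw [mul_pow]
  have h2 : C₃ ≤ C₃ ^ d := le_self_pow₀ hC₃ (by omega)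
  exact mul_le_mul h2 (sqrt_pow_le hC₂ d) (Real.sqrt_nonneg _) (by positivity)

/-! ### hyperplanes -/

/-- from the Poincare form to hyperplanes -/
theorem hyp_of : ∃ C : ℝ, 1 ≤ C ∧ ∀ (κ : Type) [Fintype κ] [Nonempty κ] (Ω : Set (Eu κ)), OB Ω →
    (∀ x ∈ Ω, -x ∈ Ω) → ∀ K : ℝ, 1 ≤ K → KLSc Ω (K ^ 2) →
    ∃ a : Eu κ, a ≠ 0 ∧ ∀ E : Set (Eu κ), MeasurableSet E → E ⊆ Ω →
      volume E = volume Ω / 2 →
      Pool.Agent.W695.KH.sec Ω a ≤ ENNReal.ofReal (C * K) * Pool.Agent.W695.KH.per E Ω := by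
  obtain ⟨C, hC, H⟩ := Pool.Agent.Q188.NC.kls_hyp
  refine ⟨max C 1, le_max_right _ _, ?_⟩
  intro κ _ _ Ω hΩ hsym K hK hkls
  have h0 : (0 : Eu κ) ∈ Ω := by
    obtain ⟨x, hx⟩ := hΩ.ne
    have := hΩ.cvx hx (hsym x hx) (a := 1 / 2) (b := 1 / 2) (by norm_num) (by norm_num)
      (by norm_num)
    simpa using this
  have hKL : Pool.Agent.Q188.NC.KLS (K ^ 2) Ω := by
    intro s hs f hf hf1
    have hCV : CV Ω s := by
      intro θ
      refine le_trans ?_ (hs θ)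
      unfold VV
      linarith [sq_nonneg (EV Ω fun x => ⟪θ, x⟫_ℝ)]
    have hs0 : 0 ≤ s := by
      refine CV_nn' hΩ.cb (s := s) ?_
      intro θ
      rw [hΩ.VV_cl]
      exact hCV θ
    refine (hkls s hCV f hf).trans ?_
    have h2 : EV Ω (fun x => ‖fderiv ℝ f x‖ ^ 2) ≤ 1 := by
      unfold EV
      rw [div_le_one hΩ.tr]
      have h3 : ∫ x in Ω, ‖fderiv ℝ f x‖ ^ 2 ≤ ∫ x in Ω, (1 : ℝ) := by
        refine integral_mono_of_nonneg (Eventually.of_forall fun x => sq_nonneg _) ?_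
          (Eventually.of_forall fun x => ?_)
        · exact integrableOn_const hΩ.bdd.measure_lt_top.ne
        · exact pow_le_one₀ (norm_nonneg _) (hf1 x)
      refine h3.trans ?_
      rw [setIntegral_const, smul_eq_mul, mul_one]
      exact le_rfl
    calc K ^ 2 * s * EV Ω (fun x => ‖fderiv ℝ f x‖ ^ 2) ≤ K ^ 2 * s * 1 :=
          mul_le_mul_of_nonneg_left h2 (by positivity)
      _ = K ^ 2 * s := mul_one _
  obtain ⟨a, ha, h⟩ := H κ Ω hΩ.op hΩ.cvx hΩ.bdd h0 hsym (K ^ 2) (by positivity) hKL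
  refine ⟨a, ha, fun E hE hEΩ hvol => (h E hE hEΩ hvol).trans ?_⟩
  refine mul_le_mul' (ENNReal.ofReal_le_ofReal ?_) le_rfl
  rw [Real.sqrt_sq (by linarith)]
  exact mul_le_mul_of_nonneg_right (le_max_left _ _) (by linarith)

theorem KLSc_mono {κ : Type} [Fintype κ] [Nonempty κ] {Ω : Set (Eu κ)} (hΩ : OB Ω) {k k' : ℝ}
    (h : k ≤ k') (hk : KLSc Ω k) : KLSc Ω k' := by
  intro s hCV f hf
  refine (hk s hCV f hf).trans ?_
  have hs0 : 0 ≤ s := by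
    refine CV_nn' hΩ.cb (s := s) ?_
    intro θ
    rw [hΩ.VV_cl]
    exact hCV θ
  have hE0 : 0 ≤ EV Ω fun x => ‖fderiv ℝ f x‖ ^ 2 := EV_nn _ _ fun x => sq_nonneg _
  exact mul_le_mul_of_nonneg_right (mul_le_mul_of_nonneg_right h hs0) hE0

/-- **the hyperplane form, from the sections** -/
theorem par_hyp (h : S_DIN) : ∃ C : ℝ, 1 ≤ C ∧ ∀ (m n : ℕ), 1 ≤ n →
    ∀ Ω : Set (Eu (Fin m ⊕ Fin n)), OB Ω →
    (∀ x ∈ Ω, -x ∈ Ω) → ∀ k : ℝ, 1 ≤ k → (∀ t : Eu (Fin m), (sm Ω t).Nonempty → KLSh (sm Ω t) k) →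
    ∃ a : Eu (Fin m ⊕ Fin n), a ≠ 0 ∧ ∀ E : Set (Eu (Fin m ⊕ Fin n)), MeasurableSet E → E ⊆ Ω →
      volume E = volume Ω / 2 →
      Pool.Agent.W695.KH.sec Ω a ≤
        ENNReal.ofReal (C ^ (m + 1) * k) * Pool.Agent.W695.KH.per E Ω := by
  obtain ⟨C₁, hC₁, H1⟩ := par_open h
  obtain ⟨C₂, hC₂, H2⟩ := hyp_of
  refine ⟨C₁ * C₂, one_le_mul_of_one_le_of_one_le hC₁ hC₂, ?_⟩
  intro m n hn Ω hΩ hsym k hk hs
  have hne : Nonempty (Fin m ⊕ Fin n) := ⟨Sum.inr ⟨0, hn⟩⟩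
  have hk0 : 0 < k := by linarith
  have hm : 1 ≤ C₁ ^ (m + 1) := one_le_pow₀ hC₁
  have h1 := KLSc_mono hΩ (k' := (C₁ ^ (m + 1) * k) ^ 2) (by
    have e : C₁ ^ m * (C₁ * k ^ 2) = C₁ ^ (m + 1) * k ^ 2 := by ring
    rw [e, mul_pow]
    refine mul_le_mul_of_nonneg_right ?_ (by positivity)
    nlinarith) (H1 m n Ω hΩ k hk hs)
  obtain ⟨a, ha, h2⟩ := H2 _ Ω hΩ hsym (C₁ ^ (m + 1) * k)
    (one_le_mul_of_one_le_of_one_le hm hk) h1
  refine ⟨a, ha, fun E hE hEΩ hvol => (h2 E hE hEΩ hvol).trans ?_⟩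
  refine mul_le_mul' (ENNReal.ofReal_le_ofReal ?_) le_rfl
  have h3 : C₂ ≤ C₂ ^ (m + 1) := le_self_pow₀ hC₂ (by omega)
  calc C₂ * (C₁ ^ (m + 1) * k) ≤ C₂ ^ (m + 1) * (C₁ ^ (m + 1) * k) :=
        mul_le_mul_of_nonneg_right h3 (by positivity)
    _ = (C₁ * C₂) ^ (m + 1) * k := by rw [mul_pow]; ring

/-- **the hyperplane form, for domains with a forest structure** -/
theorem fr_hyp (h : S_DTD) : ∃ C : ℝ, 1 ≤ C ∧ ∀ (ι : Type) [Fintype ι] [Nonempty ι]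
    [PartialOrder ι] (d : ℕ), Frs ι d → ∀ Ω : Set (Eu ι), OB Ω → (∀ x ∈ Ω, -x ∈ Ω) → FD Ω →
    ∃ a : Eu ι, a ≠ 0 ∧ ∀ E : Set (Eu ι), MeasurableSet E → E ⊆ Ω →
      volume E = volume Ω / 2 →
      Pool.Agent.W695.KH.sec Ω a ≤ ENNReal.ofReal (C ^ d) * Pool.Agent.W695.KH.per E Ω := by
  obtain ⟨C₁, hC₁, H1⟩ := frb h
  obtain ⟨C₂, hC₂, H2⟩ := hyp_of
  refine ⟨C₁ * C₂, one_le_mul_of_one_le_of_one_le hC₁ hC₂, ?_⟩
  intro ι _ _ _ d hF Ω hΩ hsym hFD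
  have hd : 1 ≤ d := by
    obtain ⟨v⟩ := ‹Nonempty ι›
    refine le_trans ?_ (hF.height v)
    rw [Nat.one_le_iff_ne_zero, ← Nat.pos_iff_ne_zero]
    have : Nonempty {u : ι // u ≤ v} := ⟨⟨v, le_rfl⟩⟩
    exact Nat.card_pos
  have hm : 1 ≤ C₁ ^ d := one_le_pow₀ hC₁
  have h1 := KLSc_mono hΩ (k' := (C₁ ^ d) ^ 2) (by nlinarith) ((H1 ι d hF Ω hFD).2 hΩ)
  obtain ⟨a, ha, h2⟩ := H2 _ Ω hΩ hsym (C₁ ^ d) hm h1
  refine ⟨a, ha, fun E hE hEΩ hvol => (h2 E hE hEΩ hvol).trans ?_⟩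
  refine mul_le_mul' (ENNReal.ofReal_le_ofReal ?_) le_rfl
  have h3 : C₂ ≤ C₂ ^ d := le_self_pow₀ hC₂ (by omega)
  calc C₂ * C₁ ^ d ≤ C₂ ^ d * C₁ ^ d := mul_le_mul_of_nonneg_right h3 (by positivity)
    _ = (C₁ * C₂) ^ d := by rw [mul_pow]; ring

end Pool.Agent.Q86.EM
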