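import Pool.Agent.Q86.EM.Stm5
import Pool.Agent.Q86.EM.Chp

/-!
# Uniform measures on bounded convex sets as log-concave densities
-/

set_option autoImplicit false

namespace Pool.Agent.Q86.EM

open MeasureTheory Set Filter Topology
open scoped ENNReal InnerProductSpace ContDiff
open Pool.Agent.H212R2.KLS (mu Bdd)
open Pool.Agent.H888R2.KT (LC)
open Pool.Agent.W695.KH (EV VV)
open Pool.Agent.Q188.SB (un bdr)

variable {κ : Type} [Fintype κ]

/-- the indicator function -/
noncomputable def ic (D : Set (Eu κ)) : Eu κ → ℝ := D.indicator fun _ => 1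

theorem ic_mem {D : Set (Eu κ)} {x : Eu κ} (h : x ∈ D) : ic D x = 1 := indicator_of_mem h _

theorem ic_not {D : Set (Eu κ)} {x : Eu κ} (h : x ∉ D) : ic D x = 0 := indicator_of_notMem h _

theorem ic_nn (D : Set (Eu κ)) (x : Eu κ) : 0 ≤ ic D x := by
  by_cases h : x ∈ D
  · rw [ic_mem h]
    exact zero_le_one
  · rw [ic_not h]

theorem int_ic {D : Set (Eu κ)} (hm : MeasurableSet D) (f : Eu κ → ℝ) :
    ∫ x, f x * ic D x = ∫ x in D, f x := by
  rw [← integral_indicator hm]
  refine integral_congr_ae (Eventually.of_forall fun x => ?_)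
  show f x * ic D x = D.indicator f x
  by_cases h : x ∈ D
  · rw [ic_mem h, indicator_of_mem h, mul_one]
  · rw [ic_not h, indicator_of_notMem h, mul_zero]

theorem mass_ic {D : Set (Eu κ)} (hm : MeasurableSet D) :
    ∫ x, ic D x = (volume D).toReal := by
  have h := int_ic hm fun _ => 1
  simp only [one_mul] at h
  rw [h, setIntegral_const, smul_eq_mul, mul_one]
  rfl

theorem mu_ic {D : Set (Eu κ)} (hm : MeasurableSet D) : mu (ic D) = volume.restrict D := by
  unfold mu
  have e : (fun x => ENNReal.ofReal (ic D x)) = D.indicator fun _ => 1 := by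
    funext x
    by_cases h : x ∈ D
    · rw [ic_mem h, indicator_of_mem h, ENNReal.ofReal_one]
    · rw [ic_not h, indicator_of_notMem h, ENNReal.ofReal_zero]
  rw [e, withDensity_indicator hm, withDensity_const, one_smul]

theorem LC_ic {D : Set (Eu κ)} (hm : MeasurableSet D) (hc : Convex ℝ D) (hb : Bornology.IsBounded D)
    (hpos : 0 < volume D) : LC (ic D) := by
  refine ⟨ic_nn D, measurable_const.indicator hm, ?_, ?_, ?_, ?_⟩
  · intro x y t ht ht1
    by_cases hx : x ∈ D
    · by_cases hy : y ∈ D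
      · rw [ic_mem hx, ic_mem hy, ic_mem (hc hx hy (by linarith) ht.le (by ring))]
        simp
      · rw [ic_not hy, Real.zero_rpow ht.ne', mul_zero]
        exact ic_nn _ _
    · rw [ic_not hx, Real.zero_rpow (by linarith), zero_mul]
      exact ic_nn _ _
  · obtain ⟨R, hR⟩ := hb.exists_norm_le
    refine ⟨R, fun x hx => ic_not fun h => ?_⟩
    exact absurd (hR x h) (not_le.2 hx)
  · rw [mu_ic hm, Measure.restrict_apply MeasurableSet.univ, univ_inter]
    exact hb.measure_lt_top.ne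
  · rw [mu_ic hm]
    intro h
    rw [Measure.restrict_eq_zero] at h
    exact hpos.ne' h

section

variable {D : Set (Eu κ)}

theorem CVd_ic (hm : MeasurableSet D) (hv : 0 < (volume D).toReal) (s : ℝ) :
    CVd (ic D) s ↔ CV D s := by
  unfold CVd CV VV EV
  refine forall_congr' fun θ => ?_
  rw [int_ic hm, int_ic hm, mass_ic hm]
  have e : (∫ x in D, ⟪θ, x⟫_ℝ ^ 2) / (volume D).toReal -
      ((∫ x in D, ⟪θ, x⟫_ℝ) / (volume D).toReal) ^ 2 =
      ((volume D).toReal * (∫ x in D, ⟪θ, x⟫_ℝ ^ 2) - (∫ x in D, ⟪θ, x⟫_ℝ) ^ 2) /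
        (volume D).toReal ^ 2 := by
    field_simp
  rw [e, div_le_iff₀ (by positivity)]

theorem PId_ic (hm : MeasurableSet D) (hv : 0 < (volume D).toReal) (c : ℝ) :
    PId (ic D) c ↔ PI D c := by
  unfold PId PI VV EV
  refine forall_congr' fun f => forall_congr' fun hf => ?_
  rw [int_ic hm, int_ic hm, int_ic hm, mass_ic hm]
  have e : (∫ x in D, f x ^ 2) / (volume D).toReal - ((∫ x in D, f x) / (volume D).toReal) ^ 2 =
      ((volume D).toReal * (∫ x in D, f x ^ 2) - (∫ x in D, f x) ^ 2) /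
        (volume D).toReal ^ 2 := by
    field_simp
  rw [e, div_le_iff₀ (by positivity)]
  have e2 : c * ((∫ x in D, ‖fderiv ℝ f x‖ ^ 2) / (volume D).toReal) * (volume D).toReal ^ 2 =
      c * (volume D).toReal * ∫ x in D, ‖fderiv ℝ f x‖ ^ 2 := by
    field_simp
  rw [e2]

theorem KLSd_ic (hm : MeasurableSet D) (hv : 0 < (volume D).toReal) (k : ℝ) :
    KLSd (ic D) k ↔ KLSc D k := by
  unfold KLSd KLSc
  refine forall_congr' fun s => ?_
  rw [CVd_ic hm hv, PId_ic hm hv]

end

/-! ### open convex sets -/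

/-- open, convex, bounded, not empty -/
structure OB (Ω : Set (Eu κ)) : Prop where
  op : IsOpen Ω
  cvx : Convex ℝ Ω
  bdd : Bornology.IsBounded Ω
  ne : Ω.Nonempty

variable {Ω : Set (Eu κ)}

theorem OB.pos (h : OB Ω) : 0 < volume Ω := h.op.measure_pos _ h.ne

theorem OB.tr (h : OB Ω) : 0 < (volume Ω).toReal :=
  ENNReal.toReal_pos h.pos.ne' h.bdd.measure_lt_top.ne

theorem OB.cb (h : OB Ω) : CB (closure Ω) :=
  ⟨Metric.isCompact_of_isClosed_isBounded isClosed_closure h.bdd.closure, h.cvx.closure,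
    ⟨h.ne.some, (interior_maximal subset_closure h.op) h.ne.some_mem⟩⟩

theorem OB.ae (h : OB Ω) : (closure Ω : Set (Eu κ)) =ᵐ[volume] Ω := by
  have h1 := h.cvx.addHaar_frontier volume
  rw [frontier, h.op.interior_eq] at h1
  refine (ae_le_set.2 h1).antisymm (subset_closure.eventuallyLE)

theorem OB.un_cl (h : OB Ω) : un (closure Ω) = un Ω := by
  unfold un
  rw [measure_congr h.ae, Measure.restrict_congr_set h.ae]

theorem OB.EV_cl (h : OB Ω) (f : Eu κ → ℝ) : EV (closure Ω) f = EV Ω f := by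
  unfold EV
  rw [measure_congr h.ae, Measure.restrict_congr_set h.ae]

theorem OB.VV_cl (h : OB Ω) (f : Eu κ → ℝ) : VV (closure Ω) f = VV Ω f := by
  unfold VV
  rw [h.EV_cl, h.EV_cl]

theorem OB.KLSc_cl (h : OB Ω) (k : ℝ) : KLSc (closure Ω) k ↔ KLSc Ω k := by
  unfold KLSc CV PI
  simp only [h.VV_cl, h.EV_cl]

theorem OB.KLSh_cl (h : OB Ω) (k : ℝ) : KLSh (closure Ω) k ↔ KLSh Ω k := by
  unfold KLSh
  rw [h.un_cl]

theorem OB.LC (h : OB Ω) : LC (ic Ω) := LC_ic h.op.measurableSet h.cvx h.bdd h.pos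

theorem pm_cont (m n : ℕ) (t : Eu (Fin m)) : Continuous (pm m n t) := by
  unfold pm
  refine (PiLp.continuous_toLp 2 _).comp (continuous_pi fun i => ?_)
  rcases i with i | i
  · exact continuous_const
  · exact (continuous_apply i).comp (PiLp.continuous_ofLp 2 _)

theorem pm_dist (m n : ℕ) (t : Eu (Fin m)) (x y : Eu (Fin n)) :
    dist (pm m n t x) (pm m n t y) = dist x y := by
  rw [EuclideanSpace.dist_eq, EuclideanSpace.dist_eq, Fintype.sum_sum_type]
  have e1 : ∀ (z : Eu (Fin n)) (i : Fin m), pm m n t z (Sum.inl i) = t i := fun _ _ => rfl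
  have e2 : ∀ (z : Eu (Fin n)) (i : Fin n), pm m n t z (Sum.inr i) = z i := fun _ _ => rfl
  simp only [e1, e2, dist_self]
  simp

theorem pm_comb (m n : ℕ) (t : Eu (Fin m)) (x y : Eu (Fin n)) {a b : ℝ} (hab : a + b = 1) :
    pm m n t (a • x + b • y) = a • pm m n t x + b • pm m n t y := by
  ext i
  rcases i with i | i
  · show t i = a * t i + b * t i
    rw [← add_mul, hab, one_mul]
  · rfl

theorem OB.slice {m n : ℕ} {Ω : Set (Eu (Fin m ⊕ Fin n))} (h : OB Ω) (t : Eu (Fin m))
    (ht : (sm Ω t).Nonempty) : OB (sm Ω t) := by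
  refine ⟨h.op.preimage (pm_cont m n t), ?_, ?_, ht⟩
  · intro x hx y hy a b ha hb hab
    show pm m n t (a • x + b • y) ∈ Ω
    rw [pm_comb m n t x y hab]
    exact h.cvx hx hy ha hb hab
  · obtain ⟨C, hC⟩ := Metric.isBounded_iff.1 h.bdd
    refine Metric.isBounded_iff.2 ⟨C, fun x hx y hy => ?_⟩
    rw [← pm_dist m n t x y]
    exact hC hx hy

end Pool.Agent.Q86.EM
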