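import Pool.Agent.Q121.EM.Dgt

/-!
# Marginals: the inequality for functions of some of the coordinates

If `ρ` and all its images under the dilations of the coordinates outside `J` satisfy the KLS inequality
then functions of the coordinates in `J` satisfy the inequality with a bound for the covariance matrix of
these coordinates only.
-/

set_option autoImplicit false

namespace Pool.Agent.Q86.EM

open MeasureTheory Set Filter Topology
open scoped ENNReal InnerProductSpace ContDiff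
open Pool.Agent.H888R2.KT (LC)
open Pool.Agent.H212R2.KLS (mu Bdd)
open Pool.Agent.Q121.EM (lc_cont lc_int lc_pos)

variable {ι : Type} [Fintype ι]

/-- the covariance matrix of the coordinates in `J` is at most `s` -/
def CVJ (J : Set ι) (ρ : Eu ι → ℝ) (s : ℝ) : Prop := ∀ θ : Eu ι, (∀ i, i ∉ J → θ i = 0) →
  (∫ x, ρ x) * (∫ x, ⟪θ, x⟫_ℝ ^ 2 * ρ x) - (∫ x, ⟪θ, x⟫_ℝ * ρ x) ^ 2 ≤ s * ‖θ‖ ^ 2 * (∫ x, ρ x) ^ 2

/-- `f` depends only on the coordinates in `J` -/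
def DJ (J : Set ι) (f : Eu ι → ℝ) : Prop := ∀ x y : Eu ι, (∀ i, i ∈ J → x i = y i) → f x = f y

open Classical in
/-- dilation of the coordinates outside `J` -/
noncomputable def dl (J : Set ι) (r : ℝ) : Eu ι →ₗ[ℝ] Eu ι where
  toFun x := WithLp.toLp 2 fun i => if i ∈ J then x i else r * x i
  map_add' x y := by
    ext i
    by_cases h : i ∈ J
    · simp [h]
    · simp [h, mul_add]
  map_smul' a x := by
    ext i
    by_cases h : i ∈ J
    · simp [h]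
    · simp [h]
      ring

theorem dl_in {J : Set ι} {r : ℝ} (x : Eu ι) {i : ι} (h : i ∈ J) : dl J r x i = x i := by
  simp [dl, h]

theorem dl_out {J : Set ι} {r : ℝ} (x : Eu ι) {i : ι} (h : i ∉ J) : dl J r x i = r * x i := by
  simp [dl, h]

theorem dl_dl {J : Set ι} {r : ℝ} (hr : r ≠ 0) (x : Eu ι) : dl J r (dl J r⁻¹ x) = x := by
  ext i
  by_cases h : i ∈ J
  · rw [dl_in _ h, dl_in _ h]
  · rw [dl_out _ h, dl_out _ h]
    field_simp

/-- the dilation as a linear equivalence -/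
noncomputable def dle (J : Set ι) {r : ℝ} (hr : r ≠ 0) : Eu ι ≃ₗ[ℝ] Eu ι where
  __ := dl J r
  invFun := dl J r⁻¹
  left_inv x := by
    have h := dl_dl (J := J) (inv_ne_zero hr) x
    rw [inv_inv] at h
    exact h
  right_inv x := dl_dl hr x

theorem dle_apply (J : Set ι) {r : ℝ} (hr : r ≠ 0) (x : Eu ι) : dle J hr x = dl J r x := rfl

/-- change of variables -/
theorem cov_dl (J : Set ι) {r : ℝ} (hr : r ≠ 0) : ∃ c : ℝ, 0 < c ∧ ∀ G : Eu ι → ℝ,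
    ∫ x, G (dl J r x) = c * ∫ x, G x := by
  have hdet : LinearMap.det (dl J r) ≠ 0 := by
    have h := (LinearEquiv.isUnit_det' (dle J hr)).ne_zero
    exact h
  have h1 := Measure.map_linearMap_addHaar_eq_smul_addHaar (volume : Measure (Eu ι)) hdet
  refine ⟨|(LinearMap.det (dl J r))⁻¹|, by positivity, fun G => ?_⟩
  have hme : MeasurableEmbedding (dl J r) :=
    ((dle J hr).toContinuousLinearEquiv.toHomeomorph).measurableEmbedding
  rw [← hme.integral_map, h1, integral_smul_measure, ENNReal.toReal_ofReal (abs_nonneg _),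
    smul_eq_mul]

theorem inner_dl (J : Set ι) (r : ℝ) (θ x : Eu ι) : ⟪θ, dl J r x⟫_ℝ = ⟪dl J r θ, x⟫_ℝ := by
  rw [PiLp.inner_apply, PiLp.inner_apply]
  refine Finset.sum_congr rfl fun i _ => ?_
  by_cases h : i ∈ J
  · rw [dl_in _ h, dl_in _ h]
  · rw [dl_out _ h, dl_out _ h]
    simp only [RCLike.inner_apply, conj_trivial]
    ring

theorem LC_dl {J : Set ι} {r : ℝ} (hr : 0 < r) {ρ : Eu ι → ℝ} (h : LC ρ) :
    LC fun x => ρ (dl J r x) := by
  have hcont : Continuous (dl J r) := LinearMap.continuous_of_finiteDimensional _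
  have hdet : LinearMap.det (dl J r) ≠ 0 := (LinearEquiv.isUnit_det' (dle J hr.ne')).ne_zero
  have hme : MeasurableEmbedding (dl J r) :=
    ((dle J hr.ne').toContinuousLinearEquiv.toHomeomorph).measurableEmbedding
  have h1 := Measure.map_linearMap_addHaar_eq_smul_addHaar (volume : Measure (Eu ι)) hdet
  have h2 : ∫⁻ x, ENNReal.ofReal (ρ (dl J r x)) =
      ENNReal.ofReal |(LinearMap.det (dl J r))⁻¹| * ∫⁻ x, ENNReal.ofReal (ρ x) := by
    rw [← hme.lintegral_map (fun x => ENNReal.ofReal (ρ x)), h1, lintegral_smul_measure, smul_eq_mul]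
  have h3 : mu ρ univ = ∫⁻ x, ENNReal.ofReal (ρ x) := by
    rw [mu, withDensity_apply _ MeasurableSet.univ, Measure.restrict_univ]
  have h4 : mu (fun x => ρ (dl J r x)) univ = ∫⁻ x, ENNReal.ofReal (ρ (dl J r x)) := by
    rw [mu, withDensity_apply _ MeasurableSet.univ, Measure.restrict_univ]
  refine ⟨fun x => h.nonneg _, h.meas.comp hcont.measurable, ?_, ?_, ?_, ?_⟩
  · intro x y t h0 h1
    have := h.logc (dl J r x) (dl J r y) t h0 h1
    rw [map_add, map_smul, map_smul]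
    exact this
  · obtain ⟨R, hR⟩ := h.bdd
    have hc2 : Continuous (dl J r⁻¹) := LinearMap.continuous_of_finiteDimensional _
    obtain ⟨M, hM⟩ := ((isCompact_closedBall (0 : Eu ι) |R|).image hc2).isBounded.exists_norm_le
    refine ⟨M, fun x hx => ?_⟩
    by_contra hne
    have h5 : ‖dl J r x‖ ≤ R := by
      by_contra h6
      exact hne (hR _ (not_le.1 h6))
    have h7 : x = dl J r⁻¹ (dl J r x) := by
      have := dl_dl (J := J) (inv_ne_zero hr.ne') x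
      rw [inv_inv] at this
      exact this.symm
    have h8 := hM x ⟨dl J r x, by
      rw [mem_closedBall_zero_iff]
      exact h5.trans (le_abs_self _), h7.symm⟩
    linarith
  · rw [h4, h2, ← h3]
    exact ENNReal.mul_ne_top ENNReal.ofReal_ne_top h.fin
  · intro h0
    rw [← Measure.measure_univ_eq_zero, h4, h2, ← h3] at h0
    rcases mul_eq_zero.1 h0 with h5 | h5
    · rw [ENNReal.ofReal_eq_zero] at h5
      have : 0 < |(LinearMap.det (dl J r))⁻¹| := by positivity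
      linarith
    · exact h.ne (Measure.measure_univ_eq_zero.1 h5)

/-- the covariance form -/
noncomputable def vf (ρ : Eu ι → ℝ) (θ : Eu ι) : ℝ :=
  (∫ x, ρ x) * (∫ x, ⟪θ, x⟫_ℝ ^ 2 * ρ x) - (∫ x, ⟪θ, x⟫_ℝ * ρ x) ^ 2

theorem i1 {ρ : Eu ι → ℝ} (h : LC ρ) (θ : Eu ι) : Integrable fun x => ⟪θ, x⟫_ℝ * ρ x := by
  have c1 : Continuous fun x : Eu ι => ⟪θ, x⟫_ℝ := by fun_prop
  refine (lc_cont h c1).congr (Eventually.of_forall fun x => ?_)
  simp only [smul_eq_mul]; ring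

theorem i2 {ρ : Eu ι → ℝ} (h : LC ρ) (θ η : Eu ι) :
    Integrable fun x => ⟪θ, x⟫_ℝ * ⟪η, x⟫_ℝ * ρ x := by
  have c1 : Continuous fun x : Eu ι => ⟪θ, x⟫_ℝ * ⟪η, x⟫_ℝ := by fun_prop
  refine (lc_cont h c1).congr (Eventually.of_forall fun x => ?_)
  simp only [smul_eq_mul]; ring

theorem vf_nn {ρ : Eu ι → ℝ} (h : LC ρ) (θ : Eu ι) : 0 ≤ vf ρ θ := by
  have c1 : Continuous fun x : Eu ι => ⟪θ, x⟫_ℝ := by fun_prop
  unfold vf
  rw [← Pool.Agent.Q121.EM.var_eq h c1]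
  exact mul_nonneg (lc_pos h).le (integral_nonneg fun x => mul_nonneg (sq_nonneg _) (h.nonneg x))

/-- parallelogram inequality -/
theorem vf_add {ρ : Eu ι → ℝ} (h : LC ρ) (θ η : Eu ι) {ε : ℝ} (hε : 0 < ε) :
    vf ρ (θ + ε • η) ≤ (1 + ε) * vf ρ θ + ε * (1 + ε) * vf ρ η := by
  obtain ⟨m, hm⟩ : ∃ m, m = ∫ x, ρ x := ⟨_, rfl⟩
  obtain ⟨a, ha⟩ : ∃ a, a = ∫ x, ⟪θ, x⟫_ℝ * ρ x := ⟨_, rfl⟩
  obtain ⟨b, hb⟩ : ∃ b, b = ∫ x, ⟪η, x⟫_ℝ * ρ x := ⟨_, rfl⟩
  obtain ⟨A, hA⟩ : ∃ A, A = ∫ x, ⟪θ, x⟫_ℝ * ⟪θ, x⟫_ℝ * ρ x := ⟨_, rfl⟩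
  obtain ⟨B, hB⟩ : ∃ B, B = ∫ x, ⟪η, x⟫_ℝ * ⟪η, x⟫_ℝ * ρ x := ⟨_, rfl⟩
  obtain ⟨M, hM⟩ : ∃ M, M = ∫ x, ⟪θ, x⟫_ℝ * ⟪η, x⟫_ℝ * ρ x := ⟨_, rfl⟩
  have q : ∀ r s : ℝ, vf ρ (r • θ + s • η) =
      r ^ 2 * (m * A - a ^ 2) + 2 * r * s * (m * M - a * b) + s ^ 2 * (m * B - b ^ 2) := by
    intro r s
    have e1 : ∫ x, ⟪r • θ + s • η, x⟫_ℝ * ρ x = r * a + s * b := by
      rw [ha, hb, ← integral_const_mul, ← integral_const_mul, ← integral_add
        ((i1 h θ).const_mul _) ((i1 h η).const_mul _)]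
      refine integral_congr_ae (Eventually.of_forall fun x => ?_)
      simp only [inner_add_left, real_inner_smul_left]
      ring
    have e2 : ∫ x, ⟪r • θ + s • η, x⟫_ℝ ^ 2 * ρ x = r ^ 2 * A + 2 * r * s * M + s ^ 2 * B := by
      have j1 := (i2 h θ θ).const_mul (r ^ 2)
      have j2 := (i2 h θ η).const_mul (2 * r * s)
      have j3 := (i2 h η η).const_mul (s ^ 2)
      have e3 : ∫ x, (r ^ 2 * (⟪θ, x⟫_ℝ * ⟪θ, x⟫_ℝ * ρ x) + 2 * r * s * (⟪θ, x⟫_ℝ * ⟪η, x⟫_ℝ * ρ x)) =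
          r ^ 2 * A + 2 * r * s * M := by
        rw [integral_add j1 j2, integral_const_mul, integral_const_mul, ← hA, ← hM]
      have j12 : Integrable fun x =>
          r ^ 2 * (⟪θ, x⟫_ℝ * ⟪θ, x⟫_ℝ * ρ x) + 2 * r * s * (⟪θ, x⟫_ℝ * ⟪η, x⟫_ℝ * ρ x) := j1.add j2
      have e4 : ∫ x, ((r ^ 2 * (⟪θ, x⟫_ℝ * ⟪θ, x⟫_ℝ * ρ x) +
          2 * r * s * (⟪θ, x⟫_ℝ * ⟪η, x⟫_ℝ * ρ x)) + s ^ 2 * (⟪η, x⟫_ℝ * ⟪η, x⟫_ℝ * ρ x)) =
          r ^ 2 * A + 2 * r * s * M + s ^ 2 * B := by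
        rw [integral_add j12 j3, e3, integral_const_mul, ← hB]
      rw [← e4]
      refine integral_congr_ae (Eventually.of_forall fun x => ?_)
      simp only [inner_add_left, real_inner_smul_left]
      ring
    unfold vf
    rw [e1, e2, ← hm]
    ring
  have q1 := q 1 ε
  have q2 := q 1 0
  have q3 := q 0 1
  have q4 := q 1 (-1)
  have n4 := vf_nn h ((1 : ℝ) • θ + (-1 : ℝ) • η)
  simp only [one_smul, zero_smul, add_zero, zero_add] at q1 q2 q3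
  rw [q4] at n4
  rw [q1, q2, q3]
  nlinarith [mul_nonneg hε.le n4]

theorem vf_smul_nn {ρ : Eu ι → ℝ} {s : ℝ} (hs : CVd ρ s) (θ : Eu ι) :
    vf ρ θ ≤ s * ‖θ‖ ^ 2 * (∫ x, ρ x) ^ 2 := hs θ

/-- every log-concave density of bounded support has some bound -/
theorem CVd_ex {ρ : Eu ι → ℝ} (h : LC ρ) : ∃ s : ℝ, 0 ≤ s ∧ CVd ρ s := by
  obtain ⟨R, hR⟩ := h.bdd
  have hm := lc_pos h
  refine ⟨R ^ 2, sq_nonneg _, fun θ => ?_⟩
  have h1 : ∫ x, ⟪θ, x⟫_ℝ ^ 2 * ρ x ≤ ∫ x, R ^ 2 * ‖θ‖ ^ 2 * ρ x := by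
    refine integral_mono_of_nonneg (Eventually.of_forall fun x =>
      mul_nonneg (sq_nonneg _) (h.nonneg x)) ((lc_int h).const_mul _)
      (Eventually.of_forall fun x => ?_)
    by_cases hx : R < ‖x‖
    · simp only
      rw [hR x hx, mul_zero, mul_zero]
    · refine mul_le_mul_of_nonneg_right ?_ (h.nonneg x)
      rw [not_lt] at hx
      have h2 := abs_real_inner_le_norm θ x
      have h3 : |⟪θ, x⟫_ℝ| ≤ ‖θ‖ * R := h2.trans (mul_le_mul_of_nonneg_left hx (norm_nonneg _))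
      have h4 := pow_le_pow_left₀ (abs_nonneg _) h3 2
      rw [sq_abs] at h4
      linarith [mul_pow ‖θ‖ R 2]
  rw [integral_const_mul] at h1
  have h5 := mul_le_mul_of_nonneg_left h1 hm.le
  nlinarith [sq_nonneg (∫ x, ⟪θ, x⟫_ℝ * ρ x)]

theorem fd_dl {J : Set ι} {f : Eu ι → ℝ} (hf : ContDiff ℝ 1 f) (hJ : DJ J f) (r : ℝ) (x : Eu ι) :
    ‖fderiv ℝ f (dl J r x)‖ = ‖fderiv ℝ f x‖ := by
  have hd : ∀ y, DifferentiableAt ℝ f y := fun y => (hf.differentiable one_ne_zero) y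
  have hP : ∀ y, f (dl J 0 y) = f y := fun y => hJ _ _ fun i hi => dl_in _ hi
  have hL : ∀ y, fderiv ℝ f y = (fderiv ℝ f (dl J 0 y)).comp
      (LinearMap.toContinuousLinearMap (dl J 0)) := by
    intro y
    have h1 : HasFDerivAt (fun z => f (LinearMap.toContinuousLinearMap (dl J 0) z))
        ((fderiv ℝ f (dl J 0 y)).comp (LinearMap.toContinuousLinearMap (dl J 0))) y := by
      exact (hd (dl J 0 y)).hasFDerivAt.comp y
        (LinearMap.toContinuousLinearMap (dl J 0)).hasFDerivAt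
    have e : (fun z => f (LinearMap.toContinuousLinearMap (dl J 0) z)) = f := by
      funext z
      exact hP z
    rw [e] at h1
    exact h1.fderiv
  rw [hL (dl J r x), hL x]
  have e : dl J 0 (dl J r x) = dl J 0 x := by
    ext i
    by_cases h : i ∈ J
    · rw [dl_in _ h, dl_in _ h, dl_in _ h]
    · rw [dl_out (r := 0) _ h, dl_out (r := 0) _ h, zero_mul, zero_mul]
  rw [e]

theorem norm_J {J : Set ι} (θ : Eu ι) : ‖dl J 0 θ‖ ^ 2 + ‖θ - dl J 0 θ‖ ^ 2 = ‖θ‖ ^ 2 := by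
  rw [EuclideanSpace.real_norm_sq_eq, EuclideanSpace.real_norm_sq_eq,
    EuclideanSpace.real_norm_sq_eq, ← Finset.sum_add_distrib]
  refine Finset.sum_congr rfl fun i _ => ?_
  by_cases h : i ∈ J
  · rw [PiLp.sub_apply, dl_in _ h]
    ring
  · rw [PiLp.sub_apply, dl_out _ h]
    ring

/-- **from dilations to functions of the coordinates in `J`** -/
theorem mar {J : Set ι} {ρ : Eu ι → ℝ} (h : LC ρ) {K : ℝ} (hK : 0 ≤ K)
    (H : ∀ r : ℝ, 0 < r → KLSd (fun x => ρ (dl J r x)) K) {s : ℝ} (hs : 0 ≤ s) (hJ : CVJ J ρ s)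
    {f : Eu ι → ℝ} (hf : ContDiff ℝ 1 f) (hfJ : DJ J f) :
    (∫ x, ρ x) * (∫ x, f x ^ 2 * ρ x) - (∫ x, f x * ρ x) ^ 2 ≤
      K * s * (∫ x, ρ x) * ∫ x, ‖fderiv ℝ f x‖ ^ 2 * ρ x := by
  obtain ⟨s', hs', hcv⟩ := CVd_ex h
  have hm := lc_pos h
  obtain ⟨m, hmd⟩ : ∃ m, m = ∫ x, ρ x := ⟨_, rfl⟩
  obtain ⟨E, hE⟩ : ∃ E, E = ∫ x, ‖fderiv ℝ f x‖ ^ 2 * ρ x := ⟨_, rfl⟩
  have hE0 : 0 ≤ E := by
    rw [hE]
    exact integral_nonneg fun x => mul_nonneg (sq_nonneg _) (h.nonneg x)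
  have key : ∀ ε : ℝ, 0 < ε → (∫ x, ρ x) * (∫ x, f x ^ 2 * ρ x) - (∫ x, f x * ρ x) ^ 2 ≤
      K * ((1 + ε) * (s + ε * s')) * m * E := by
    intro ε hε
    obtain ⟨c, hc, hcg⟩ := cov_dl J (inv_ne_zero hε.ne')
    have hi : ∀ g : Eu ι → ℝ, ∫ x, g x * ρ (dl J ε⁻¹ x) = c * ∫ x, g (dl J ε x) * ρ x := by
      intro g
      rw [← hcg fun x => g (dl J ε x) * ρ x]
      refine integral_congr_ae (Eventually.of_forall fun x => ?_)
      simp only
      rw [dl_dl hε.ne']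
    have hm' : ∫ x, ρ (dl J ε⁻¹ x) = c * m := by
      rw [hmd]
      exact hcg ρ
    have hCV : CVd (fun x => ρ (dl J ε⁻¹ x)) ((1 + ε) * (s + ε * s')) := by
      intro θ
      rw [hm', hi fun x => ⟪θ, x⟫_ℝ ^ 2, hi fun x => ⟪θ, x⟫_ℝ]
      simp only [inner_dl]
      have e1 : c * m * (c * ∫ x, ⟪dl J ε θ, x⟫_ℝ ^ 2 * ρ x) -
          (c * ∫ x, ⟪dl J ε θ, x⟫_ℝ * ρ x) ^ 2 = c ^ 2 * vf ρ (dl J ε θ) := by
        unfold vf
        rw [← hmd]
        ring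
      have e2 : dl J ε θ = dl J 0 θ + ε • (θ - dl J 0 θ) := by
        ext i
        by_cases hi : i ∈ J
        · rw [PiLp.add_apply, PiLp.smul_apply, PiLp.sub_apply, dl_in _ hi, dl_in _ hi]
          simp
        · rw [PiLp.add_apply, PiLp.smul_apply, PiLp.sub_apply, dl_out _ hi, dl_out _ hi]
          simp
      have h1 := vf_add h (dl J 0 θ) (θ - dl J 0 θ) hε
      rw [← e2] at h1
      have h2 : vf ρ (dl J 0 θ) ≤ s * ‖dl J 0 θ‖ ^ 2 * m ^ 2 := by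
        rw [hmd]
        exact hJ _ fun i hi => by rw [dl_out _ hi, zero_mul]
      have h3 : vf ρ (θ - dl J 0 θ) ≤ s' * ‖θ - dl J 0 θ‖ ^ 2 * m ^ 2 := by
        rw [hmd]
        exact hcv _
      have h4 := norm_J (J := J) θ
      have h5 : vf ρ (dl J ε θ) ≤ (1 + ε) * (s + ε * s') * ‖θ‖ ^ 2 * m ^ 2 := by
        refine h1.trans ?_
        have h6 : (1 + ε) * vf ρ (dl J 0 θ) ≤ (1 + ε) * (s * ‖dl J 0 θ‖ ^ 2 * m ^ 2) :=
          mul_le_mul_of_nonneg_left h2 (by linarith)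
        have h7 : ε * (1 + ε) * vf ρ (θ - dl J 0 θ) ≤
            ε * (1 + ε) * (s' * ‖θ - dl J 0 θ‖ ^ 2 * m ^ 2) :=
          mul_le_mul_of_nonneg_left h3 (by positivity)
        refine (add_le_add h6 h7).trans ?_
        rw [← h4]
        have a1 : 0 ≤ (1 + ε) * (ε * s') * ‖dl J 0 θ‖ ^ 2 * m ^ 2 := by positivity
        have a2 : 0 ≤ (1 + ε) * s * ‖θ - dl J 0 θ‖ ^ 2 * m ^ 2 := by positivity
        nlinarith
      rw [e1]
      calc c ^ 2 * vf ρ (dl J ε θ) ≤ c ^ 2 * ((1 + ε) * (s + ε * s') * ‖θ‖ ^ 2 * m ^ 2) :=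
            mul_le_mul_of_nonneg_left h5 (sq_nonneg _)
        _ = (1 + ε) * (s + ε * s') * ‖θ‖ ^ 2 * (c * m) ^ 2 := by ring
    have h1 := H ε⁻¹ (inv_pos.2 hε) _ hCV f hf
    rw [hm', hi fun x => f x ^ 2, hi f, hi fun x => ‖fderiv ℝ f x‖ ^ 2] at h1
    have e3 : ∀ x, f (dl J ε x) = f x := fun x => hfJ _ _ fun i hi => dl_in _ hi
    simp only [e3, fd_dl hf hfJ] at h1
    rw [← hE] at h1
    have h2 : c ^ 2 * ((∫ x, ρ x) * (∫ x, f x ^ 2 * ρ x) - (∫ x, f x * ρ x) ^ 2) ≤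
        c ^ 2 * (K * ((1 + ε) * (s + ε * s')) * m * E) := by
      rw [← hmd]
      linarith
    exact le_of_mul_le_mul_left h2 (by positivity)
  rw [← hE, ← hmd] at *
  have hlim : Tendsto (fun ε : ℝ => K * ((1 + ε) * (s + ε * s')) * m * E) (𝓝[>] 0)
      (𝓝 (K * s * m * E)) := by
    have hc : Continuous fun ε : ℝ => K * ((1 + ε) * (s + ε * s')) * m * E := by fun_prop
    have h1 := hc.tendsto 0
    simp only [add_zero, zero_mul, one_mul] at h1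
    exact h1.mono_left nhdsWithin_le_nhds
  refine ge_of_tendsto hlim ?_
  filter_upwards [self_mem_nhdsWithin] with ε hε
  exact key ε hε

end Pool.Agent.Q86.EM
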