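import Pool.Agent.Q86.EM.Defs
import Pool.Agent.Q86.FIB.DLc

/-!
# Lipschitz functions and the Poincare inequality for log-concave densities: statements

Project EM of helper86. Theorem (E. Milman): for a log-concave probability measure the Poincare constant is
at most an absolute constant times the largest variance of a 1-Lipschitz function. New soft proof, without
geometric measure theory, by an argument of Casten-Holland type for the functional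
`JJ h ρ v = ½ ∫ v² dν - ∫ K(G v) dμ`, `μ = mu ρ`, `ν = ny h ρ` the law of `y = x + √h G`, `G v = gs h v`,
`Q u = pst h ρ u`, for continuous `v` with values in `[0, 1]`.

All densities have bounded support (`LC`), so that every continuous function is integrable against `mu ρ`
(`KT.N3x`-type lemmas: `Pool.Agent.H888R2.KT.N9ax.integrable` and others; look into `H888R2/KT/N3, N4, N5,
N5b, N6a, N6b, N7, N8, N9a` and `H888R2/KB/N1` for the facts on `pst`, `gs`, `zz`, `gc`; the namespaces are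
`Pool.Agent.H888R2.KT.N3x` and so on).
-/

set_option autoImplicit false

namespace Pool.Agent.Q86.EM

open MeasureTheory Set Filter Topology
open scoped ENNReal InnerProductSpace ContDiff
open Pool.Agent.H888R2.KT (LC pst gs zz gc)
open Pool.Agent.H212R2.KLS (mu Bdd)
open Pool.Agent.Q86.FIB (pd Lop)

/-- JOB FUB. `ν = ny h ρ` is a probability measure and `Q = pst h ρ` is the adjoint of `G = gs h`.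
Proof. `KT.fub` (file `N7`) gives `∫ u G φ dμ = gc⁻¹ ∫ Q u * φ * zz` and the integrability; rewrite the
integral against `withDensity` by `integral_withDensity_eq_integral_toReal_smul` (or
`integral_withDensity_eq_integral_smul` with `Real.toNNReal`), `zz > 0` (`N3x.zz_pos'`), `gc > 0`
(`gc_pos`), `zz` is continuous (differentiable, `N3x.main` with `u = 1`). Mass one: `u = φ = 1`,
`gs_one`, `pst_one` in `N9a`. -/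
def S_FUB : Prop := ∀ (κ : Type) [Fintype κ] (ρ : Eu κ → ℝ), LC ρ → mu ρ univ = 1 → ∀ h : ℝ, 0 < h →
  IsProbabilityMeasure (ny h ρ) ∧
  ∀ u φ : Eu κ → ℝ, Continuous u → Continuous φ → ∀ B : ℝ, (∀ y, |φ y| ≤ B) →
    Integrable (fun y => pst h ρ u y * φ y) (ny h ρ) ∧
    ∫ x, u x * gs h φ x ∂(mu ρ) = ∫ y, pst h ρ u y * φ y ∂(ny h ρ)

/-- JOB GR2. The gradient of `Q u` by Bessel's inequality.
Proof. By `KT.pst_deriv` (file `N3`), `∇_w Q u (y) = h⁻¹ Cov_y(u, ⟨x, w⟩)`, `Cov_y(u, v) = Q(uv) - Q u Q v`.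
Cauchy-Schwarz `Cov_y(u, v)² ≤ Var_y(u) Var_y(v)`: `N5x.var_nonneg` for `u + λ v`, all real `λ`
(`discrim_le_zero`), with `pst_add`, `pst_smul`. `Var_y ⟨x, w⟩ ≤ h ‖w‖²` by `KT.var_contr` (file `N5b`),
the derivative of `⟨x, w⟩` has norm at most `‖w‖` and `pst 1 = 1`. So `|∇_w Q u|² ≤ h⁻¹ ‖w‖² Var_y(u)`,
and `ContinuousLinearMap.opNorm_le_bound`. -/
def S_GR2 : Prop := ∀ (κ : Type) [Fintype κ] (ρ : Eu κ → ℝ), LC ρ → ∀ h : ℝ, 0 < h →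
  ∀ u : Eu κ → ℝ, Continuous u → ∀ y : Eu κ,
    h * ‖fderiv ℝ (pst h ρ u) y‖ ^ 2 ≤ pst h ρ (fun x => u x ^ 2) y - (pst h ρ u y) ^ 2

/-- JOB GSF. Facts on the Gaussian average `G = gs h` for bounded continuous functions: additive,
monotone, `|G φ| ≤ B`, Jensen, continuous; for `φ` of class `C¹` with bounded derivative
`‖∇ G φ‖ ≤ G ‖∇ φ‖`.
Proof. `gs h φ x = (∫ φ (x + z) g(z) dz) / gc` (`N6ax.gs_eq` or `N7x.gs_eq`), `gs_one`, `cont_gs`,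
`gs_add`, `gs_mul` exist in `N7`, `N8`, `N9a`. Jensen: `0 ≤ G((φ - c)²)` with `c = G φ x`. The gradient:
`KT.gs_deriv` (file `N6a`) gives `∇_w G φ = G(∇_w φ) ≤ G(‖∇ φ‖) ‖w‖`. -/
def S_GSF : Prop := ∀ (κ : Type) [Fintype κ] (h : ℝ), 0 < h →
  (∀ φ ψ : Eu κ → ℝ, Continuous φ → Continuous ψ → ∀ B : ℝ, (∀ y, |φ y| ≤ B) → (∀ y, |ψ y| ≤ B) →
    Continuous (gs h φ) ∧ (∀ x, |gs h φ x| ≤ B) ∧ (∀ x, (gs h φ x) ^ 2 ≤ gs h (fun y => φ y ^ 2) x) ∧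
    (∀ x, gs h (fun y => φ y + ψ y) x = gs h φ x + gs h ψ x) ∧
    (∀ (c : ℝ) (x : Eu κ), gs h (fun y => c * φ y) x = c * gs h φ x) ∧
    ((∀ y, φ y ≤ ψ y) → ∀ x, gs h φ x ≤ gs h ψ x)) ∧
  (∀ (c : ℝ) (x : Eu κ), gs h (fun _ => c) x = c) ∧
  ∀ φ : Eu κ → ℝ, ContDiff ℝ 1 φ → ∀ B : ℝ, (∀ y, |φ y| ≤ B) → (∀ y, ‖fderiv ℝ φ y‖ ≤ B) →
    ContDiff ℝ 1 (gs h φ) ∧ ∀ x, ‖fderiv ℝ (gs h φ) x‖ ≤ gs h (fun y => ‖fderiv ℝ φ y‖) x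

/-- JOB LIP. If 1-Lipschitz functions have variance at most `D` then `Var_μ(G v) ≤ D / h` for all
continuous `v` with values in `[0, 1]`.
Proof. For `v` of class `C¹` with bounded derivative this is in the proof of
`H888R2.KB.N1x.step`: `h ‖∇ G v‖² ≤ G(v²) - (G v)² ≤ 1` (`KT.gs_bessel`), so `√h G v` is 1-Lipschitz.
In general take `v_n = φ_n ⋆ v` with bumps `φ_n` (`ContDiffBump.normed`, radius `→ 0`): it is `C^∞`, has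
values in `[0, 1]`, its derivative is bounded (by the integral of `‖∇ φ_n‖`), and `v_n → v` pointwise
(`ContDiffBump.convolution_tendsto_right` or directly by continuity). Then `G v_n → G v` pointwise and
`∫ (G v_n)² dμ`, `∫ G v_n dμ` converge, by dominated convergence (`|v_n| ≤ 1`). -/
def S_LIP : Prop := ∀ (κ : Type) [Fintype κ] (ρ : Eu κ → ℝ), LC ρ → mu ρ univ = 1 → ∀ D h : ℝ, 0 < h →
  (∀ f : Eu κ → ℝ, ContDiff ℝ 1 f → (∀ x, ‖fderiv ℝ f x‖ ≤ 1) →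
    ∫ x, f x ^ 2 ∂(mu ρ) - (∫ x, f x ∂(mu ρ)) ^ 2 ≤ D) →
  ∀ v : Eu κ → ℝ, Vc v → ∫ x, (gs h v x) ^ 2 ∂(mu ρ) - (∫ x, gs h v x ∂(mu ρ)) ^ 2 ≤ D / h

/-- JOB MID. The functional at sets of mean one half.
Proof. With `c = 1/2 = ∫ G v dμ` (from `S_FUB` with `u = 1`): `K(G v) ≤ K(c) + K'(c)(G v - c) +
2 (G v - c)²` (`Kp_upper`), integrate: `∫ K(G v) dμ ≤ K(1/2) + 2 Var_μ(G v) ≤ K(1/2) + 2 D / h`
(`S_LIP`), and `½ ∫ v² dν ≥ ½ (∫ v dν)² = 1/8`; `Kp_at_half`. -/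
def S_MID : Prop := ∀ (κ : Type) [Fintype κ] (ρ : Eu κ → ℝ), LC ρ → mu ρ univ = 1 → ∀ D h : ℝ, 0 < h →
  (∀ f : Eu κ → ℝ, ContDiff ℝ 1 f → (∀ x, ‖fderiv ℝ f x‖ ≤ 1) →
    ∫ x, f x ^ 2 ∂(mu ρ) - (∫ x, f x ∂(mu ρ)) ^ 2 ≤ D) →
  ∀ v : Eu κ → ℝ, Vc v → ∫ y, v y ∂(ny h ρ) = 1 / 2 → 7 / 960 - 2 * D / h ≤ JJ h ρ v

/-- JOB ITE. One step `v₁ = Q K'(G v)` and the segment from `v` to `v₁` decrease the functional.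
Proof. `w = K' ∘ (G v)` is continuous with values in `[0, 1]` (`Ps_nn`, `Ps_le`), so `v₁ = Q w` has
values in `[0, 1]` (`pst_mono`, `pst_const`). For `θ ∈ [0, 1]`, `v_θ = (1-θ) v + θ v₁`. By convexity
(`Kp_conv`) `K(G v_θ) ≥ K(G v) + K'(G v)(G v_θ - G v)`; integrate and use `S_FUB` with `u = w`:
`∫ w G(v_θ - v) dμ = ∫ v₁ (v_θ - v) dν`. So `JJ v_θ ≤ ½ ∫ v_θ² dν - ∫ v₁ (v_θ - v) dν - ∫ K(G v) dμ
= JJ v + ½ ∫ (v_θ² - v²) - 2 v₁ (v_θ - v) dν = JJ v - ½ (1 - (1-θ)²) ∫ (v₁ - v)² dν`, because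
`½ (a² - b²) - c (a - b) = ½ ((a - c)² - (b - c)²)` with `a = v_θ`, `b = v`, `c = v₁`. -/
def S_ITE : Prop := ∀ (κ : Type) [Fintype κ] (ρ : Eu κ → ℝ), LC ρ → mu ρ univ = 1 → ∀ h : ℝ, 0 < h →
  ∀ v : Eu κ → ℝ, Vc v → Vc (pst h ρ fun x => Ps (gs h v x)) ∧
    ∀ θ : ℝ, 0 ≤ θ → θ ≤ 1 →
      Vc (fun y => (1 - θ) * v y + θ * pst h ρ (fun x => Ps (gs h v x)) y) ∧
      JJ h ρ (fun y => (1 - θ) * v y + θ * pst h ρ (fun x => Ps (gs h v x)) y) +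
        1 / 2 * (1 - (1 - θ) ^ 2) *
          ∫ y, (pst h ρ (fun x => Ps (gs h v x)) y - v y) ^ 2 ∂(ny h ρ) ≤ JJ h ρ v

/-- JOB INT. Functions with a negative functional have mean well below one half.
Proof. Let `m = ∫ v dν ≤ 1/2`, `t = (1/2 - m)/(1 - m) ∈ [0, 1]`, `t ≤ 2 (1/2 - m)`, and
`v' = v + t (1 - v)`, so `Vc v'` and `∫ v' dν = 1/2`, hence `JJ v' ≥ 0`. Also `0 ≤ v' - v ≤ t`,
`v'² - v² ≤ 2 t` and `K(G v') ≥ K(G v)` is not needed: `|K(G v') - K(G v)| ≤ |G v' - G v| ≤ t`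
(`Kp_lip`, `S_GSF`). So `0 ≤ JJ v' ≤ JJ v + t + t ≤ JJ v + 4 (1/2 - m)`. -/
def S_INT : Prop := ∀ (κ : Type) [Fintype κ] (ρ : Eu κ → ℝ), LC ρ → mu ρ univ = 1 → ∀ h : ℝ, 0 < h →
  (∀ v : Eu κ → ℝ, Vc v → ∫ y, v y ∂(ny h ρ) = 1 / 2 → 0 ≤ JJ h ρ v) →
  ∀ v : Eu κ → ℝ, Vc v → ∫ y, v y ∂(ny h ρ) ≤ 1 / 2 →
    ∫ y, v y ∂(ny h ρ) ≤ 1 / 2 + JJ h ρ v / 4

/-- JOB GIN. The gradient `φ = ‖∇ v₁‖` of `v₁ = Q K'(G v)`.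
Proof. `w = K' ∘ G v`, `w₁ = K' ∘ G v₁` are continuous. `φ` is continuous (`pst_smooth`), and
`h φ² ≤ Q(w²) - (Q w)² ≤ Q w - (Q w)²` (`S_GR2`, `0 ≤ w ≤ 1`), which is at most `v₁` and at most
`1 - v₁`. `∇ v₁ = ∇ Q w₁ + ∇ Q(w - w₁)` (linearity of `Q`). First part: `G v₁` is `C¹` with
`‖∇ G v₁‖ ≤ G φ` (`S_GSF`; `v₁` is bounded with bounded derivative by `pst_smooth`), so `w₁` is `C¹` with
`‖∇ w₁‖ = |K''(G v₁)| ‖∇ G v₁‖ ≤ K''(G v₁) G φ` (`Pd_nn`), and by the hypothesis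
`‖∇ Q w₁‖ ≤ θ Q(K''(G v₁) G φ)`. Second part: `e = ‖∇ Q(w - w₁)‖` satisfies `h e² ≤ Q((w - w₁)²)`,
`∫ Q((w - w₁)²) dν = ∫ (w - w₁)² dμ ≤ 4 ∫ (G(v - v₁))² dμ ≤ 4 ∫ (v - v₁)² dν` (`Ps_lip`, `S_GSF`,
`S_FUB`). Multiply `φ ≤ θ Q(K''(G v₁) G φ) + e` by `φ` and integrate against `ν`:
`∫ φ Q(g) dν = ∫ g G φ dμ` (`S_FUB` with `u = g = K''(G v₁) G φ`, `φ` bounded), and Cauchy-Schwarz
`∫ e φ dν ≤ (∫ e² dν)^½ (∫ φ² dν)^½ ≤ (4 h⁻¹ ∫ (v - v₁)² dν)^½ (h⁻¹)^½`. -/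
def S_GIN : Prop := ∀ (κ : Type) [Fintype κ] (ρ : Eu κ → ℝ), LC ρ → mu ρ univ = 1 → ∀ h : ℝ, 0 < h →
  ∀ θ : ℝ, 0 ≤ θ →
  (∀ u : Eu κ → ℝ, ContDiff ℝ 1 u → ∀ y : Eu κ,
    ‖fderiv ℝ (pst h ρ u) y‖ ≤ θ * pst h ρ (fun x => ‖fderiv ℝ u x‖) y) →
  ∀ v v₁ φ : Eu κ → ℝ, Vc v → v₁ = pst h ρ (fun x => Ps (gs h v x)) →
    φ = (fun y => ‖fderiv ℝ v₁ y‖) →
    Continuous φ ∧ (∀ y, h * φ y ^ 2 ≤ v₁ y) ∧ (∀ y, h * φ y ^ 2 ≤ 1 - v₁ y) ∧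
    (∀ x, ‖fderiv ℝ (gs h v₁) x‖ ≤ gs h φ x) ∧
    ∫ y, φ y ^ 2 ∂(ny h ρ) ≤ θ * ∫ x, Pd (gs h v₁ x) * (gs h φ x) ^ 2 ∂(mu ρ) +
      2 / h * Real.sqrt (∫ y, (v₁ y - v y) ^ 2 ∂(ny h ρ))

/-- JOB SEC. The second variation.
Let `φ' = min φ (min (v / s) ((1 - v) / s))`. Then `0 ≤ φ - φ' ≤ s / h` pointwise: where `s φ > v`,
`h φ² ≤ v < s φ` gives `φ < s / h`; similarly where `s φ > 1 - v`. The functions `v ± s φ'` are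
continuous with values in `[0, 1]`. Since `G(v ± s φ') = G v ± s G φ'`, the identity `Kp_second`
gives `JJ(v + sφ') + JJ(v - sφ') - 2 JJ(v) = s² ∫ φ'² dν - ∫ (K''(G v) s² (G φ')² - ½ s⁴ (G φ')⁴) dμ`.
Now `φ'² ≤ φ²`, `0 ≤ G φ' ≤ G φ ≤ 1 / √h` (as `h φ² ≤ 1`),
`(G φ)² - (G φ')² ≤ 2 G φ G(φ - φ') ≤ 2 (1/√h) s / h`, `0 ≤ K'' ≤ 2` on `[0, 1]` (`Pd_nn`, `Pd_le`).
This gives the inequality; the mean of `v ± s φ'` is at most `∫ v dν + s / √h`. -/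
def S_SEC : Prop := ∀ (κ : Type) [Fintype κ] (ρ : Eu κ → ℝ), LC ρ → mu ρ univ = 1 → ∀ h : ℝ, 0 < h →
  ∀ (v φ : Eu κ → ℝ) (s : ℝ), Vc v → Continuous φ → (∀ y, 0 ≤ φ y) → (∀ y, h * φ y ^ 2 ≤ v y) →
    (∀ y, h * φ y ^ 2 ≤ 1 - v y) → 0 < s →
    ∃ a b : Eu κ → ℝ, Vc a ∧ Vc b ∧
      ∫ y, a y ∂(ny h ρ) ≤ ∫ y, v y ∂(ny h ρ) + s / Real.sqrt h ∧
      ∫ y, b y ∂(ny h ρ) ≤ ∫ y, v y ∂(ny h ρ) + s / Real.sqrt h ∧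
      JJ h ρ a + JJ h ρ b - 2 * JJ h ρ v ≤ s ^ 2 * (∫ y, φ y ^ 2 ∂(ny h ρ) -
        ∫ x, Pd (gs h v x) * (gs h φ x) ^ 2 ∂(mu ρ)) +
        4 * s ^ 3 / (h * Real.sqrt h) + s ^ 4 / (2 * h ^ 2)

/-- JOB STA. Stability: if the functional is nonnegative at mean one half then it is nonnegative at all
means below one half.
Proof. Let `m` be the infimum of `JJ` over all `Vc v` with `∫ v dν ≤ 1/2` (it is bounded below by `-1`,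
`Kp_le`). Suppose `m < 0`. For small `ε > 0` (`ε ≤ -m/2`) choose `v` with `JJ v ≤ m + ε ≤ m / 2`;
`v₁`, `φ` as in `S_GIN`. All `v_θ` on the segment of `S_ITE` have `JJ v_θ ≤ JJ v ≤ m/2`; by `S_INT` those
with mean `≤ 1/2` have mean `≤ 1/2 + m/8`; the mean is affine in `θ`, so (start `θ = 0`; otherwise some
`θ` would have mean exactly `1/2`, or any value in `(1/2 + m/8, 1/2]`) `∫ v₁ dν ≤ 1/2 + m/8`. So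
`m ≤ JJ v₁ ≤ JJ v - ½ ∫ (v₁ - v)² dν` and `∫ (v₁ - v)² dν ≤ 2 ε`. Apply `S_SEC` to `v₁, φ` and
`s = ε^(1/4)` (small enough that `s / √h ≤ -m/8`): `a, b` have mean `≤ 1/2`, so
`-2 ε ≤ 2 m - 2 JJ v₁ ≤ s² (F - T) + 4 s³ h^(-3/2) + s⁴ h⁻²/2` with `F = ∫ φ² dν`,
`T = ∫ K''(G v₁) (G φ)² dμ`; by `S_GIN` `F ≤ θ T + 2 h⁻¹ √(2ε)`. Hence
`(1 - θ) T ≤ 2 h⁻¹ √(2ε) + 2 ε / s² + 4 s h^(-3/2) + s² h⁻²/2 → 0` as `ε → 0`, so `T → 0` and `F → 0`.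
By the Poincare inequality and `‖∇ G v₁‖ ≤ G φ`, `Var_μ(G v₁) ≤ P ∫ (G φ)² dμ ≤ P F → 0` (`G v₁` is
`C¹`). With `c = ∫ v₁ dν = ∫ G v₁ dμ ≤ 1/2`: `JJ v₁ ≥ ½ c² - K(c) - 2 Var_μ(G v₁) ≥ -2 P F`
(`Kp_upper`, `Kp_half`, Jensen), while `JJ v₁ ≤ m + ε ≤ m/2 < 0`: contradiction for small `ε`. -/
def S_STA : Prop := ∀ (κ : Type) [Fintype κ] (ρ : Eu κ → ℝ), LC ρ → mu ρ univ = 1 → ∀ h : ℝ, 0 < h →
  ∀ θ : ℝ, 0 ≤ θ → θ < 1 →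
  (∀ u : Eu κ → ℝ, ContDiff ℝ 1 u → ∀ y : Eu κ,
    ‖fderiv ℝ (pst h ρ u) y‖ ≤ θ * pst h ρ (fun x => ‖fderiv ℝ u x‖) y) →
  (∃ P : ℝ, 0 ≤ P ∧ ∀ f : Eu κ → ℝ, ContDiff ℝ 1 f →
    ∫ x, f x ^ 2 ∂(mu ρ) - (∫ x, f x ∂(mu ρ)) ^ 2 ≤ P * ∫ x, ‖fderiv ℝ f x‖ ^ 2 ∂(mu ρ)) →
  (∀ v : Eu κ → ℝ, Vc v → ∫ y, v y ∂(ny h ρ) = 1 / 2 → 0 ≤ JJ h ρ v) →
  ∀ v : Eu κ → ℝ, Vc v → ∫ y, v y ∂(ny h ρ) ≤ 1 / 2 → 0 ≤ JJ h ρ v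

/-- JOB ENE. From the functional to an energy inequality.
Proof. `v = Q u` is `Vc` and `∫ Q u dν = ∫ u dμ ≤ 1/2` (`S_FUB` with `φ = 1`), so `0 ≤ JJ(Q u)`:
`∫ K(G Q u) dμ ≤ ½ ∫ (Q u)² dν`. By convexity `K(G Q u) ≥ K(u) + K'(u)(G Q u - u)`. With `S_FUB`,
`∫ K'(u)(u - G Q u) dμ = ∫ (Q(K'(u) u) - Q(K'(u)) Q u) dν`, and at each `y`,
`Q(K'(u) u) - Q(K'(u)) Q u = Q((K'(u) - K'(c))(u - c))` with `c = Q u (y)`, at most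
`2 Q((u - c)²) = 2 (Q(u²) - (Q u)²)` (`Ps_mono_mul`). So with `E = ∫ (Q(u²) - (Q u)²) dν =
∫ u² dμ - ∫ (Q u)² dν`: `∫ K(u) dμ - 2 E ≤ ½ ∫ (Q u)² dν = ½ ∫ u² dμ - ½ E`, that is
`∫ (K(u) - ½ u²) dμ ≤ 3/2 E`, and `E ≤ h ∫ Q(‖∇ u‖²) dν = h ∫ ‖∇ u‖² dμ` (`KT.var_contr`). -/
def S_ENE : Prop := ∀ (κ : Type) [Fintype κ] (ρ : Eu κ → ℝ), LC ρ → mu ρ univ = 1 → ∀ h : ℝ, 0 < h →
  (∀ v : Eu κ → ℝ, Vc v → ∫ y, v y ∂(ny h ρ) ≤ 1 / 2 → 0 ≤ JJ h ρ v) →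
  ∀ u : Eu κ → ℝ, ContDiff ℝ 1 u → (∀ x, 0 ≤ u x) → (∀ x, u x ≤ 1) → ∫ x, u x ∂(mu ρ) ≤ 1 / 2 →
    ∫ x, (Kp (u x) - 1 / 2 * u x ^ 2) ∂(mu ρ) ≤ 3 / 2 * h * ∫ x, ‖fderiv ℝ u x‖ ^ 2 ∂(mu ρ)

/-- JOB LEV. Integration over the levels.
Proof. Let `S = Real.smoothTransition` (`0` for `x ≤ 0`, `1` for `x ≥ 1`, values in `[0, 1]`, smooth) and
`M` a bound of `|S'|` (`S'` is continuous and vanishes outside `[0, 1]`). Let `c` be a median of `f`: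
`μ{f > c} ≤ 1/2` and `μ{f < c} ≤ 1/2` (e.g. `c = sInf {t | μ{f > t} ≤ 1/2}`, `f` is bounded `μ`-almost
everywhere as the support is bounded). Let `F = f - c` (and then `F = c - f`). For `a > 0` let
`u_a = S((F - a) / (a/2))`: `u_a = 0` for `F ≤ a`, `= 1` for `F ≥ 3a/2`, so `∫ u_a dμ ≤ μ{F > 0} ≤ 1/2`,
and `‖∇ u_a‖² ≤ (4 M² / a²) ‖∇ f‖² 1_{a < F < 3a/2}`. Multiply the hypothesis by `2 a` and integrate over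
`a ∈ [η, N]` with `N ≥ sup F` on the support (Fubini: for `a ≥ η` everything is bounded and continuous):
for fixed `x` with `t = F x > 0`: `∫ 2a ‖∇ u_a‖² da ≤ 8 M² ‖∇ f‖² ∫_{2t/3}^t da/a = 8 M² log(3/2) ‖∇ f‖²`;
with `k(u) = Kp u - u²/2`: `k(u_a) = 1/60` for `a ≤ 2t/3` (`kh_one`), `k(u_a) ≥ -1/100` for
`2t/3 < a < t` (`kh_ge`), `= 0` for `a ≥ t` (`kh_zero`), so `∫_η^N 2a k(u_a) da ≥
t² (4/9 · 1/60 - 5/9 · 1/100) - η²/60 - (for t ≤ η: at least -t²/100 ≥ ... , estimate crudely by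
`-η²/60`) = t²/540 - η²/60` up to a multiple of `η²`; it is `0` if `t ≤ 0`. Hence
`∫ (F⁺)² dμ / 540 ≤ A · 8 M² log(3/2) ∫ ‖∇ f‖² dμ + C η²`; let `η → 0`, add the two signs:
`Var f ≤ ∫ (f - c)² dμ = ∫ (F⁺)² + (F⁻)²`. (Any other way to sum over the levels is fine, for instance
the geometric levels `a_j = N (2/3)^j`; the constant `C` must be absolute.) -/
def S_LEV : Prop := ∃ C : ℝ, 0 < C ∧ ∀ (κ : Type) [Fintype κ] (ρ : Eu κ → ℝ), LC ρ →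
  mu ρ univ = 1 → ∀ A : ℝ, 0 ≤ A →
  (∀ u : Eu κ → ℝ, ContDiff ℝ 1 u → (∀ x, 0 ≤ u x) → (∀ x, u x ≤ 1) → ∫ x, u x ∂(mu ρ) ≤ 1 / 2 →
    ∫ x, (Kp (u x) - 1 / 2 * u x ^ 2) ∂(mu ρ) ≤ A * ∫ x, ‖fderiv ℝ u x‖ ^ 2 ∂(mu ρ)) →
  ∀ f : Eu κ → ℝ, ContDiff ℝ 1 f →
    ∫ x, f x ^ 2 ∂(mu ρ) - (∫ x, f x ∂(mu ρ)) ^ 2 ≤ C * A * ∫ x, ‖fderiv ℝ f x‖ ^ 2 ∂(mu ρ)

/-! ### the gradient bound `‖∇ Q u‖ ≤ θ Q ‖∇ u‖` -/

/-- the standard basis -/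
noncomputable def bs (κ : Type) [Fintype κ] [DecidableEq κ] (i : κ) : Eu κ :=
  EuclideanSpace.single i 1

/-- `U - a |x|² / 2` is convex -/
def SCv {κ : Type} [Fintype κ] (U : Eu κ → ℝ) (a : ℝ) : Prop :=
  ConvexOn ℝ univ fun x => U x - a / 2 * ‖x‖ ^ 2

/-- JOB SCI. Strongly convex potentials: integrability and the Poincare inequality.
Proof. `U x ≥ U 0 - C ‖x‖ + a/2 ‖x‖²` (a convex function on a finite dimensional space lies above an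
affine one; here from the differentiability at 0, or `ConvexOn` and continuity), so
`(1 + ‖x‖)^m exp(-U)` is integrable (compare with a Gaussian, `integrable_rpow_mul_exp...`, or
`Pool.Agent.Q86.FIB.RD.exp` and `RD.integrable` in `Q86/FIB/Growth.lean`: it is enough that
`U x ≥ c ‖x‖ - b`). Poincare inequality: exactly as in `Std.strong_fibre` in `Q86/FIB/Strong.lean`
(`H212R2.KLS.poincare_of_strong` for the restrictions of `exp(-U)` to balls, then the limit). -/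
def S_SCI : Prop := ∀ (κ : Type) [Fintype κ] (U : Eu κ → ℝ) (a : ℝ), 0 < a → ContDiff ℝ ∞ U →
  SCv U a →
  (∀ m : ℕ, Integrable fun x => (1 + ‖x‖) ^ m * Real.exp (-U x)) ∧
  ∀ φ : Eu κ → ℝ, ContDiff ℝ 1 φ → HasCompactSupport φ →
    (∫ x, Real.exp (-U x)) * (∫ x, φ x ^ 2 * Real.exp (-U x)) - (∫ x, φ x * Real.exp (-U x)) ^ 2 ≤
      a⁻¹ * (∫ x, Real.exp (-U x)) * ∫ x, ‖fderiv ℝ φ x‖ ^ 2 * Real.exp (-U x)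

/-- JOB TRU. The truncation estimate (maximum principle in integral form) for `b = ∇ Φ`.
Write `b_i = pd (e i) Φ`, `B = ∑ b_i²`, `L = Lop e U`, `E f = ∫ f exp(-U)`, `r = ⟨w, x⟩ - c + L Φ`.
Proof. Pointwise `∂_i (L Φ) = L b_i - ∑_j ∂_i∂_j U b_j` (this is `key` in the proof of
`Pool.Agent.Q86.FIB.bochner`). Put `ξ_i = ζ(B) b_i` (`C¹`, compact support). By `FIB.ibpL`,
`E(ξ_i L b_i) = - E ∑_j ∂_j ξ_i ∂_j b_i`. Sum over `i`: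
`E ∑_{ij} ∂_j ξ_i ∂_j b_i + E ∑_{ij} ∂_i∂_j U b_j ξ_i = - E ∑_i ξ_i ∂_i(L Φ)`, and
`∂_i (L Φ) = ∂_i r - w_i`, so the right hand side is `E ∑ w_i ξ_i - E ∑ ξ_i ∂_i r`, and
`- E ∑ ξ_i ∂_i r = E r δ`, `δ = ∑_i (∂_i ξ_i - ∂_i U ξ_i) = ζ(B) L Φ + 2 ζ'(B) ∑_{ij} b_i b_j ∂_i b_j`
(integration by parts: `FIB.int_pd_w` for the compactly supported functions `ξ_i r`).
Signs: `∑_{ij} ∂_j ξ_i ∂_j b_i = ζ(B) ∑ (∂_j b_i)² + 2 ζ'(B) ∑_j (∑_i b_i ∂_j b_i)² ≥ 0`, and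
`∑_{ij} ∂_i∂_j U b_i b_j ≥ a B` (strong convexity; `FIB.hess_form` or `FIB.hess_nonneg` in
`Q86/FIB/MainB1.lean` for the convex function `U - a|x|²/2`, vector `∑ b_i(x) e_i`). So
`a E(ζ(B) B) ≤ E(ζ(B) |∑ w_i b_i|) + E(|r| |δ|) ≤ ‖w‖ E(ζ(B) √B) + (E r²)^½ (E δ²)^½`. Finally
`|δ| ≤ |L Φ| + 2 ζ'(B) B (∑ (∂_i b_j)²)^½ ≤ |L Φ| + 2 M |D²Φ|` and `E |D²Φ|² ≤ E (L Φ)²` by
`FIB.bochner` and convexity, so `(E δ²)^½ ≤ (1 + 2M) (E (L Φ)²)^½`. -/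
def S_TRU : Prop := ∀ (κ : Type) [Fintype κ] [DecidableEq κ] (U : Eu κ → ℝ) (a : ℝ), 0 < a →
  ContDiff ℝ ∞ U → SCv U a → ∀ (ζ : ℝ → ℝ) (M : ℝ), ContDiff ℝ 1 ζ → (∀ s, 0 ≤ ζ s) → (∀ s, ζ s ≤ 1) →
  (∀ s, 0 ≤ deriv ζ s) → (∀ s, 0 ≤ s → s * deriv ζ s ≤ M) →
  ∀ (Φ : Eu κ → ℝ) (w : Eu κ) (c : ℝ), ContDiff ℝ ∞ Φ → HasCompactSupport Φ →
    (Integrable fun x => (⟪w, x⟫_ℝ - c + Lop (bs κ) U Φ x) ^ 2 * Real.exp (-U x)) →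
    a * (∫ x, ζ (‖fderiv ℝ Φ x‖ ^ 2) * ‖fderiv ℝ Φ x‖ ^ 2 * Real.exp (-U x)) ≤
      ‖w‖ * (∫ x, ζ (‖fderiv ℝ Φ x‖ ^ 2) * ‖fderiv ℝ Φ x‖ * Real.exp (-U x)) +
      (1 + 2 * M) * Real.sqrt (∫ x, (⟪w, x⟫_ℝ - c + Lop (bs κ) U Φ x) ^ 2 * Real.exp (-U x)) *
        Real.sqrt (∫ x, Lop (bs κ) U Φ x ^ 2 * Real.exp (-U x))

/-- JOB COS. The covariance inequality for smooth strongly convex potentials.
Proof. Write `E f = ∫ f exp(-U)`, `Z = E 1`, `c = E⟨w, x⟩ / Z`, `R = ⟨w, x⟩ - c`. By scaling assume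
`‖w‖ = 1` (`w = 0` is trivial). `FIB.density` with the family `bs κ`, `μ = volume`, `W = U` and `R`: its
hypothesis `(E φR)² ≤ A E ∑ (∂_i φ)²` holds with `A = a⁻¹ E R²`, because
`E(φR) = E((φ - φ̄) R)`, Cauchy-Schwarz and `S_SCI`. So there are `Φ_j ∈ C_c^∞` with
`r_j = R + L Φ_j → 0` in `L²(exp(-U))`, and `E (L Φ_j)²` is bounded. `S_TRU` with
`ζ(s) = p²/(1 + p²)`, `p = max (a² s - 1) 0` (it is `C¹`, nondecreasing, in `[0, 1]`, zero for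
`a² s ≤ 1`, `s ζ'(s)` bounded) gives `E ζ(B_j) √B_j (a √B_j - 1) → 0`, `B_j = ‖∇ Φ_j‖²`, the integrand is
nonnegative. For `η > 0`: on `{√B_j > a⁻¹ + η}` the factor `ζ(B_j)(a √B_j - 1)` is at least a constant
`c_η > 0`, so `E √B_j 1_{√B_j > a⁻¹ + η} → 0`. Finally `E(u R) = E(u r_j) - E(u L Φ_j) =
E(u r_j) + E ∑ ∂_i u ∂_i Φ_j` (`FIB.ibpL`, `Φ_j` has compact support), and
`|E ∑ ∂_i u ∂_i Φ_j| ≤ E ‖∇u‖ √B_j ≤ (a⁻¹ + η) E ‖∇ u‖ + B E √B_j 1_{√B_j > a⁻¹ + η}`. Let `j → ∞`,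
`η → 0`: `|E(u R)| ≤ a⁻¹ E ‖∇ u‖`; multiply by `Z`. -/
def S_COS : Prop := ∀ (κ : Type) [Fintype κ] (U : Eu κ → ℝ) (a : ℝ), 0 < a → ContDiff ℝ ∞ U →
  SCv U a → ∀ (u : Eu κ → ℝ) (B : ℝ), ContDiff ℝ 1 u → (∀ x, |u x| ≤ B) → (∀ x, ‖fderiv ℝ u x‖ ≤ B) →
  ∀ w : Eu κ,
    |(∫ x, u x * ⟪w, x⟫_ℝ * Real.exp (-U x)) * (∫ x, Real.exp (-U x)) -
      (∫ x, u x * Real.exp (-U x)) * ∫ x, ⟪w, x⟫_ℝ * Real.exp (-U x)| ≤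
      a⁻¹ * ‖w‖ * (∫ x, ‖fderiv ℝ u x‖ * Real.exp (-U x)) * ∫ x, Real.exp (-U x)

/-- JOB SMZ. The Gaussian regularisation `zz ε ρ` of a log-concave density of bounded support is
positive, smooth and log-concave.
Proof. Positive: `N3x.zz_pos'`. Smooth: `N3x.main`, `main_apply` with `u = 1`: the derivative of `zz` in
the direction `w` is `ε⁻¹ (pst ε ρ ⟨x, w⟩ y - ⟨y, w⟩) zz ε ρ y`, and `pst ε ρ v` is `C^n` for all `n`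
(`N4x.smooth`), so `log zz` has the derivative `w ↦ ε⁻¹ (pst ε ρ ⟨x, w⟩ y - ⟨y, w⟩)`, smooth in `y`
(test on a basis). Log-concave: Prekopa-Leindler for `x ↦ exp(-‖x - y‖²/2ε) ρ(x)`, jointly log-concave in
`(x, y)`: `KT.V1x.pl` / `Pool.Agent.Q196.GT.pl_n`; for the exponent `s` use
`‖s p + (1-s) q‖² ≤ s ‖p‖² + (1-s) ‖q‖²`. -/
def S_SMZ : Prop := ∀ (κ : Type) [Fintype κ] (ρ : Eu κ → ℝ), LC ρ → ∀ ε : ℝ, 0 < ε →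
  (∀ y, 0 < zz ε ρ y) ∧ ContDiff ℝ ∞ (fun y => -Real.log (zz ε ρ y)) ∧
  ConvexOn ℝ univ (fun y => -Real.log (zz ε ρ y))

/-- JOB COL. The covariance inequality for log-concave densities of bounded support times a Gaussian.
Proof. Let `g(x) = exp(-a/2 ‖x - p‖²)`. `S_COS` for `U_ε = -log zz ε ρ + a/2 ‖x - p‖²` (`S_SMZ`; strongly
convex since `a/2 ‖x - p‖² - a/2 ‖x‖²` is affine), first for `u` with compact support (or bounded with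
bounded derivative), divided by `gc κ ε`: for bounded continuous `F` with `|F(x)| ≤ C (1 + ‖x‖)`,
`∫ F g zz ε ρ / gc = ∫ ρ(x) (gs ε (F g))(x) dx → ∫ F g dμ_ρ` as `ε → 0`: Fubini, `F g` is bounded and
continuous, `gs ε (F g) → F g` pointwise (Gaussian approximate identity: `gs ε ψ x =
∫ ψ(x + √ε z) γ(dz)`, or `S_GSF`) and dominated convergence with `mu ρ` finite. A general `C¹` function
`u` is replaced by `χ u`, `χ` a smooth cutoff equal to 1 on a ball containing the support of `ρ`. -/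
def S_COL : Prop := ∀ (κ : Type) [Fintype κ] (ρ : Eu κ → ℝ), LC ρ → ∀ (a : ℝ) (p : Eu κ), 0 < a →
  ∀ u : Eu κ → ℝ, ContDiff ℝ 1 u → ∀ w : Eu κ,
    |(∫ x, u x * ⟪w, x⟫_ℝ * Real.exp (-(a / 2 * ‖x - p‖ ^ 2)) ∂(mu ρ)) *
        (∫ x, Real.exp (-(a / 2 * ‖x - p‖ ^ 2)) ∂(mu ρ)) -
      (∫ x, u x * Real.exp (-(a / 2 * ‖x - p‖ ^ 2)) ∂(mu ρ)) *
        ∫ x, ⟪w, x⟫_ℝ * Real.exp (-(a / 2 * ‖x - p‖ ^ 2)) ∂(mu ρ)| ≤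
      a⁻¹ * ‖w‖ * (∫ x, ‖fderiv ℝ u x‖ * Real.exp (-(a / 2 * ‖x - p‖ ^ 2)) ∂(mu ρ)) *
        ∫ x, Real.exp (-(a / 2 * ‖x - p‖ ^ 2)) ∂(mu ρ)

/-- the density `c ρ(x) exp(-δ |x|²/2)` -/
noncomputable def tl {κ : Type} [Fintype κ] (δ c : ℝ) (ρ : Eu κ → ℝ) (x : Eu κ) : ℝ :=
  c * (ρ x * Real.exp (-(δ / 2 * ‖x‖ ^ 2)))

/-- JOB TIL. Gaussian tilts: class `LC`, the integrals, the Poincare inequality, the gradient bound.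
Proof. (1) Log-concavity: product of log-concave functions, `‖(1-t)x + ty‖² ≤ (1-t)‖x‖² + t‖y‖²`;
bounded support and measurability are clear; the mass is `c ∫ exp(-δ‖x‖²/2) dμ_ρ`, finite and positive.
(2) `mu (tl δ c ρ) = (c exp(-δ‖x‖²/2)) mu ρ` (`withDensity_mul`). (3) Poincare inequality with the
constant `δ⁻¹`: `H212R2.KLS.poincare_of_strong` (as in `KT.var_contr`; the midpoint condition follows from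
`N5bx.mid` and the parallelogram identity `N5bx.par`); needs that `ρ` is bounded: see how `N5b` does it.
(4) `exp(-δ‖x‖²/2) exp(-‖x-y‖²/(2h)) = C_y exp(-a/2 ‖x - p‖²)`, `a = δ + 1/h`, `p = y/(h a)`. By
`KT.pst_deriv`, `∇_w Q u (y) = h⁻¹ Cov_y(u, ⟨x,w⟩)`, and `S_COL` gives
`|∇_w Q u (y)| ≤ h⁻¹ a⁻¹ ‖w‖ Q‖∇u‖(y)`, `h⁻¹ a⁻¹ = (1 + δ h)⁻¹`. -/
def S_TIL : Prop := ∀ (κ : Type) [Fintype κ] (ρ : Eu κ → ℝ), LC ρ → ∀ δ c : ℝ, 0 < δ → 0 < c →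
  LC (tl δ c ρ) ∧
  (∀ g : Eu κ → ℝ, ∫ x, g x ∂(mu (tl δ c ρ)) =
    c * ∫ x, g x * Real.exp (-(δ / 2 * ‖x‖ ^ 2)) ∂(mu ρ)) ∧
  (mu (tl δ c ρ) univ = 1 → ∀ f : Eu κ → ℝ, ContDiff ℝ 1 f →
    ∫ x, f x ^ 2 ∂(mu (tl δ c ρ)) - (∫ x, f x ∂(mu (tl δ c ρ))) ^ 2 ≤
      δ⁻¹ * ∫ x, ‖fderiv ℝ f x‖ ^ 2 ∂(mu (tl δ c ρ))) ∧
  ∀ h : ℝ, 0 < h → ∀ u : Eu κ → ℝ, ContDiff ℝ 1 u → ∀ y : Eu κ,
    ‖fderiv ℝ (pst h (tl δ c ρ) u) y‖ ≤ (1 + δ * h)⁻¹ * pst h (tl δ c ρ) (fun x => ‖fderiv ℝ u x‖) y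

/-- JOB EML. The theorem.
Proof. If `D ≤ 0`: then all variances of `C¹` Lipschitz functions vanish, by scaling and truncation the
statement follows from the one for all `D > 0` (apply it with `D' = ε`, let `ε → 0`). Let `D > 0`. For
`δ > 0` let `Z = ∫ exp(-δ‖x‖²/2) dμ_ρ`, `c = 1/Z`, `ρ_δ = tl δ c ρ`: mass one (`S_TIL`). For `f` of class
`C¹` with `‖∇ f‖ ≤ 1` and `m = ∫ f dμ_ρ`: `Var_{ρ_δ} f ≤ ∫ (f - m)² dμ_{ρ_δ} ≤ c ∫ (f - m)² dμ_ρ ≤ c D`.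
Let `D' = c D`, `h = 480 D'`: `S_MID` gives `JJ ≥ 7/960 - 4/960 > 0` at mean `1/2`, `S_STA` (with `S_TIL`,
`θ = (1 + δh)⁻¹ < 1`, `P = δ⁻¹`) gives `JJ ≥ 0` at means `≤ 1/2`, `S_ENE` and `S_LEV` (with
`A = 3/2 h = 720 c D`) give the Poincare inequality for `ρ_δ` with the constant `720 C c D`. As
`δ → 0`, `c → 1` and all integrals against `ρ_δ` converge (dominated convergence, bounded support). -/
def S_EML : Prop := ∃ C : ℝ, 0 < C ∧ ∀ (κ : Type) [Fintype κ] (ρ : Eu κ → ℝ), LC ρ →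
  mu ρ univ = 1 → ∀ D : ℝ,
  (∀ f : Eu κ → ℝ, ContDiff ℝ 1 f → (∀ x, ‖fderiv ℝ f x‖ ≤ 1) →
    ∫ x, f x ^ 2 ∂(mu ρ) - (∫ x, f x ∂(mu ρ)) ^ 2 ≤ D) →
  ∀ f : Eu κ → ℝ, ContDiff ℝ 1 f →
    ∫ x, f x ^ 2 ∂(mu ρ) - (∫ x, f x ∂(mu ρ)) ^ 2 ≤ C * D * ∫ x, ‖fderiv ℝ f x‖ ^ 2 ∂(mu ρ)

end Pool.Agent.Q86.EM
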