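import Pool.Agent.Q86.EM.Stm
import Pool.Agent.Q188.SB.Tr
import Pool.Agent.Q86.FIB.Nash
import Pool.Agent.Q86.FIB.Ext3

/-!
# KLS passes from the parallel sections of a convex body to the body: statements, part II

Project FS of helper86. `EV D v`, `VV D f`: mean and variance for the uniform measure on `D`.
`EK 1 n = EuclideanSpace ℝ (Fin 1 ⊕ Fin n)` is the ambient space of the body, the first coordinate is
`t`; `pt n t z` is the point with the coordinates `t`, `z`; `sl D t` is the section.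
-/

set_option autoImplicit false

namespace Pool.Agent.Q86.EM

open MeasureTheory Set Filter Topology
open scoped ENNReal InnerProductSpace ContDiff
open Pool.Agent.H888R2.KT (LC)
open Pool.Agent.H212R2.KLS (mu Bdd)
open Pool.Agent.W695.KH (EV VV)
open Pool.Agent.Q86.FIB (Sp EK spl Std oo lp CovF FibreP om dens vol fib pd sv gT gZ WIneq lin)

/-- the covariance matrix of the uniform measure on `D` is at most `s` -/
def CV {κ : Type} [Fintype κ] (D : Set (Eu κ)) (s : ℝ) : Prop :=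
  ∀ θ : Eu κ, VV D (fun x => ⟪θ, x⟫_ℝ) ≤ s * ‖θ‖ ^ 2

/-- Poincare inequality for the uniform measure on `D` -/
def PI {κ : Type} [Fintype κ] (D : Set (Eu κ)) (c : ℝ) : Prop :=
  ∀ f : Eu κ → ℝ, ContDiff ℝ 1 f → VV D f ≤ c * EV D fun x => ‖fderiv ℝ f x‖ ^ 2

/-- the KLS inequality with the constant `k` -/
def KLSc {κ : Type} [Fintype κ] (D : Set (Eu κ)) (k : ℝ) : Prop := ∀ s : ℝ, CV D s → PI D (k * s)

/-- compact convex set with nonempty interior -/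
structure CB {κ : Type} [Fintype κ] (D : Set (Eu κ)) : Prop where
  cpt : IsCompact D
  cvx : Convex ℝ D
  int : (interior D).Nonempty

/-- the point with the coordinates `t`, `z` -/
noncomputable def pt (n : ℕ) (t : ℝ) (z : Eu (Fin n)) : EK 1 n := (spl 1 n).symm (oo t, lp n z)

/-- the first coordinate -/
noncomputable def tc {n : ℕ} (x : EK 1 n) : ℝ := (spl 1 n x).1 0

/-- the section -/
def sl {n : ℕ} (D : Set (EK 1 n)) (t : ℝ) : Set (Eu (Fin n)) := {z | pt n t z ∈ D}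

/-- a smooth potential close to `A/2 dist(x, D)²` -/
structure Ap {κ : Type} [Fintype κ] (D : Set (Eu κ)) (A : ℝ) (U : Eu κ → ℝ) : Prop where
  htg : Function.HasTemperateGrowth U
  conv : ConvexOn ℝ univ U
  lo : ∀ x, A / 2 * Metric.infDist x D ^ 2 ≤ U x
  hi : ∀ x, U x ≤ A / 2 * Metric.infDist x D ^ 2 + 1 / A

/-- the potential on `Sp 1 × Sp n` -/
noncomputable def onSp {n : ℕ} (U : EK 1 n → ℝ) : Sp 1 × Sp n → ℝ := fun x => U ((spl 1 n).symm x)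

/-- JOB MOL. Existence of smooth approximations.
Proof. `W(x) = A/2 infDist(x, D)²` is convex and `0 ≤ W(x) ≤ C(1 + ‖x‖)²`; `U = φ ⋆ W` with
`φ = ContDiffBump.normed` at `0`, outer radius `1/A` (for instance `FIB.cv`, file `Q86/FIB/Conv.lean`, or
Mathlib `convolution`), symmetric: `φ(-y) = φ(y)` (`ContDiffBump` is a function of the norm:
`ContDiffBump.neg`, `normed_neg`). `U x = ∫ φ(y) (W(x-y) + W(x+y))/2 dy ≥ W(x)` by convexity (`lo`), and
with `p` the nearest point of `x` in `D`, `(dist(x+y, D)² + dist(x-y, D)²)/2 ≤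
(‖x-p+y‖² + ‖x-p-y‖²)/2 = ‖x-p‖² + ‖y‖²`, so `U ≤ W + A/2 · (1/A)²` (`hi`). `U` is convex as an average
of translates. Temperate growth: claim `S(m)`: for all continuous `W` with `|W x| ≤ C (1 + ‖x‖)²` and all
`φ` smooth of compact support there is `C'` with `‖iteratedFDeriv ℝ m (φ ⋆ W) x‖ ≤ C' (1 + ‖x‖)²`.
Induction: `‖iteratedFDeriv (m+1) F x‖ = ‖iteratedFDeriv m (fderiv F) x‖` (`norm_iteratedFDeriv_fderiv`)
and `fderiv (φ ⋆ W) x = ∑_i (∂_i φ ⋆ W)(x) • e_i^*` on the standard basis, `∂_i φ` again smooth of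
compact support; use `iteratedFDeriv_sum` and the continuous linear map `c ↦ c • e_i^*`
(`ContinuousLinearMap.norm_iteratedFDeriv_comp_left`). `S(0)`: `‖y‖ ≤ R` on the support,
`(1 + ‖x - y‖)² ≤ (1 + R)² (1 + ‖x‖)²`. -/
def S_MOL : Prop := ∀ (κ : Type) [Fintype κ] (D : Set (Eu κ)), IsCompact D → Convex ℝ D → D.Nonempty →
  ∀ A : ℝ, 0 < A → ∃ U : Eu κ → ℝ, Ap D A U

/-- JOB LMB. Limits of integrals.
Proof. Dominated convergence. On `D`: `0 ≤ U_j ≤ 1/A_j → 0`; off `D` (closed): `infDist > 0`, so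
`U_j → ∞`. Domination: `A_j ≥ 1` eventually, `exp(-U_j) ≤ exp(-infDist²/2)`, `infDist(x, D) ≥ ‖x‖ - R`
if `D ⊆ B_R`, so `exp(-infDist²/2) ≤ C exp(-‖x‖²/4)`. -/
def S_LMB : Prop := ∀ (κ : Type) [Fintype κ] (D : Set (Eu κ)), IsCompact D → D.Nonempty →
  ∀ (A : ℕ → ℝ) (U : ℕ → Eu κ → ℝ), Tendsto A atTop atTop → (∀ j, 0 < A j) → (∀ j, Ap D (A j) (U j)) →
  ∀ (g : Eu κ → ℝ) (B : ℝ) (m : ℕ), Measurable g → (∀ x, |g x| ≤ B * (1 + ‖x‖) ^ m) →
    (∀ j, Integrable fun x => g x * Real.exp (-U j x)) ∧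
    Tendsto (fun j => ∫ x, g x * Real.exp (-U j x)) atTop (𝓝 (∫ x in D, g x))

/-- JOB EMP. Milman's theorem for positive continuous log-concave densities on the whole space.
Proof. For `R` with `m_R = ∫_{B_R} g > 0` put `ρ = m_R⁻¹ 1_{B_R} g`: it is `LC` with mass one
(compare `FIB.Std.dn_LC` in `Q86/FIB/Nash.lean` and `Q73.KL.Apx`, or prove it directly). For `f` of class
`C¹` with `‖∇ f‖ ≤ 1` and `c = ∫ f g`: `Var_ρ f ≤ ∫ (f - c)² dρ ≤ m_R⁻¹ ∫ (f - c)² g =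
m_R⁻¹ (∫ f² g - c²) ≤ D / m_R` (`f` grows linearly). `S_EML` gives the Poincare inequality for `ρ`
with the constant `C D / m_R`; for the compactly supported `f` let `R → ∞` (`m_R → 1`). -/
def S_EMP : Prop := ∃ C : ℝ, 0 < C ∧ ∀ (κ : Type) [Fintype κ] (g : Eu κ → ℝ), (∀ x, 0 < g x) →
  Continuous g → (∀ a b : Eu κ, ∀ t : ℝ, 0 < t → t < 1 →
    g a ^ (1 - t) * g b ^ t ≤ g ((1 - t) • a + t • b)) →
  (Integrable fun x => (1 + ‖x‖) ^ 2 * g x) → ∫ x, g x = 1 → ∀ D : ℝ,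
  (∀ f : Eu κ → ℝ, ContDiff ℝ 1 f → (∀ x, ‖fderiv ℝ f x‖ ≤ 1) →
    ∫ x, f x ^ 2 * g x - (∫ x, f x * g x) ^ 2 ≤ D) →
  ∀ f : Eu κ → ℝ, ContDiff ℝ 1 f → HasCompactSupport f →
    ∫ x, f x ^ 2 * g x - (∫ x, f x * g x) ^ 2 ≤ C * D * ∫ x, ‖fderiv ℝ f x‖ ^ 2 * g x

/-- JOB SLG. Geometry of the sections `sl D t`, `t` in a compact interval inside the projection.
Proof. Let `q₀ ∈ D` with `tc q₀ < a`, `q₁ ∈ D` with `tc q₁ > b`, and `B` a ball inside `D`. Convex hulls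
of `q₀`, `q₁` and a smaller ball give for every `t ∈ [a, b]` an interior point of `D` with first
coordinate `t` (an open segment from an interior point to a point of `D` consists of interior points:
`Convex.openSegment_interior_closure_subset_interior`), so `sl D t` has interior points. It is compact and
convex (`pt n t` is affine, continuous and isometric for fixed `t`). If `z` is interior in `sl D t` then
`pt n t z ∈ interior D` (take the interior point `p` of `D` over `t`; `z` lies in the open segment from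
`p` to a point of `sl D t`, or use the segments to `q₀`, `q₁`). Lower bound of the volume: by
compactness of `[a, b]` and lower semicontinuity: a small ball around an interior point over `t` stays
inside `D` for nearby `t`. -/
def S_SLG : Prop := ∀ (n : ℕ) (D : Set (EK 1 n)), CB D → ∀ a b : ℝ, a ≤ b → (∃ x ∈ D, tc x < a) →
  (∃ x ∈ D, b < tc x) →
  (∀ t ∈ Icc a b, CB (sl D t) ∧ ∀ z ∈ interior (sl D t), pt n t z ∈ interior D) ∧
  ∃ v : ℝ, 0 < v ∧ ∀ t ∈ Icc a b, v ≤ (volume (sl D t)).toReal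

/-- JOB SLC. The fibres of `exp(-U)` converge to the sections, uniformly over `[a, b]`.
Proof by contradiction with sequences: `A_j → ∞`, `U_j`, `t_j ∈ [a, b]`, `t_j → t` (subsequence), with
integrals `> ε`. For almost every `z` (not in the frontier of `sl D t`, which is a null set since `sl D t`
is convex: `Convex.addHaar_frontier`): if `z ∈ interior (sl D t)` then `pt n t z ∈ interior D`
(`S_SLG`), so `pt n t_j z ∈ D` for large `j`, `0 ≤ U_j ≤ 1/A_j → 0`, both terms tend to 1; if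
`z ∉ sl D t` then `infDist (pt n t z) D = 2 δ > 0`, for large `j` `infDist (pt n t_j z) D ≥ δ`, and both
terms tend to 0 (the indicator is 0). Dominated by `2 (1 + ‖z‖)^4 exp(-infDist²/2) ≤
C (1 + ‖z‖)^4 exp(-‖z‖²/4)` (`‖pt n t z‖ ≥ ‖z‖`, `A_j ≥ 1`) plus the indicator of a ball. -/
def S_SLC : Prop := ∀ (n : ℕ) (D : Set (EK 1 n)), CB D → ∀ a b : ℝ, a ≤ b → (∃ x ∈ D, tc x < a) →
  (∃ x ∈ D, b < tc x) → ∀ ε : ℝ, 0 < ε → ∃ A₀ : ℝ, 0 < A₀ ∧ ∀ A : ℝ, A₀ ≤ A → ∀ U : EK 1 n → ℝ,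
    Ap D A U → ∀ t ∈ Icc a b,
    (Integrable fun z : Eu (Fin n) => (1 + ‖z‖) ^ 4 * Real.exp (-U (pt n t z))) ∧
    ∫ z : Eu (Fin n), (1 + ‖z‖) ^ 4 *
      |Real.exp (-U (pt n t z)) - (sl D t).indicator (fun _ => 1) z| ≤ ε

/-- JOB CRB. A crude Poincare inequality for all fibres.
Proof. `KT.crude_all` for `Z z = exp(-U(pt n t z))`: it is enough to bound
`∫ ‖z‖² Z ≤ M ∫ Z` uniformly in `t ∈ ℝ` and `A ≥ 1`. Let `D ⊆ B_R`, `R ≥ 1`, `[α, β] = tc(D)`,
`τ = dist(t, [α, β])`, `(t*, z*) ∈ D` with `|t - t*| = τ`. For all `z`: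
`infDist(pt n t z, D)² ≤ τ² + ‖z - z*‖²`, so `∫ Z ≥ exp(-A τ²/2 - 1/A) ∫ exp(-A ‖z‖²/2) dz`. For
`‖z‖ ≥ 3R`: `infDist(pt n t z, D)² ≥ τ² + (‖z‖ - R)² ≥ τ² + (4/9) ‖z‖²`. So
`∫_{‖z‖ ≥ 3R} ‖z‖² Z ≤ exp(-Aτ²/2) ∫ ‖z‖² exp(-(2A/9) ‖z‖²) dz = exp(-Aτ²/2) A^(-n/2-1) c_n` and
`∫ exp(-A‖z‖²/2) dz = A^(-n/2) c_n'` by scaling `z = A^(-1/2) z'`. Hence
`∫ ‖z‖² Z ≤ (9 R² + e c_n / c_n') ∫ Z`. Transfer to `Sp n` with `lp n` as in the proof of
`FIB.base_crude` (file `BaseC`) or `Std.strong_fibre` (file `Strong`). -/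
def S_CRB : Prop := ∀ (n : ℕ) (D : Set (EK 1 n)), CB D → ∃ M : ℝ, 0 < M ∧ ∀ A : ℝ, 1 ≤ A →
  ∀ U : EK 1 n → ℝ, Ap D A U → FibreP (onSp U) (fun _ => M)

/-- JOB FBB. The fibres over `[a, b]` satisfy the KLS inequality up to `ε`, if the sections do.
Proof. Let `C` be the constant of `S_EMP` (increase to `≥ 1`). Fix `D, k, a, b`; `v` from `S_SLG`,
`D ⊆ B_R`. Let `η > 0` be small and `A` large so that the integral in `S_SLC` is at most `η`. For
`t ∈ [a, b]` write `Z = exp(-U(pt n t ·))`, `m = ∫ Z`, so `|m - vol| ≤ η`, `vol = vol(sl D t) ≥ v`, and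
for every `F` with `|F| ≤ (1 + ‖z‖)²`: `|∫ F² Z - ∫_{sl} F²| ≤ η`, `|∫ F Z - ∫_{sl} F| ≤ η`. So, with
`K` depending on `D, v` only, `|Var_{Z/m} F - VV (sl D t) F| ≤ K η` for `F` of class `C¹`, `F 0 = 0`,
`‖∇ F‖ ≤ 1` (then `|F z| ≤ ‖z‖`; adding constants to `F` changes nothing), in particular for
`F = ⟨θ, z⟩`, `‖θ‖ = 1`. If `CovF (onSp U) (oo t) σ` then (transport by `lp n`, `‖θ‖² = ∑ θ_i²`)
`Var_{Z/m} ⟨θ, z⟩ ≤ σ ‖θ‖²`, so `CV (sl D t) (σ + K η)` and by the hypothesis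
`PI (sl D t) (k (σ + K η))`, so `Var_{Z/m} F ≤ k (σ + K η) + K η` for all 1-Lipschitz `F`, and `S_EMP`
gives the Poincare inequality with `C (k σ + k K η + K η) ≤ C (k σ + ε)` for small `η`. -/
def S_FBB : Prop := ∃ C : ℝ, 1 ≤ C ∧ ∀ (n : ℕ) (D : Set (EK 1 n)), CB D → ∀ k : ℝ, 1 ≤ k →
  ∀ a b : ℝ, a ≤ b → (∃ x ∈ D, tc x < a) → (∃ x ∈ D, b < tc x) → (∀ t ∈ Icc a b, KLSc (sl D t) k) →
  ∀ ε : ℝ, 0 < ε → ∃ A₀ : ℝ, 0 < A₀ ∧ ∀ A : ℝ, A₀ ≤ A → ∀ U : EK 1 n → ℝ, Ap D A U →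
    ∀ t ∈ Icc a b, ∀ σ : ℝ, 0 ≤ σ → CovF (onSp U) (oo t) σ →
    ∀ φ : Sp n → ℝ, ContDiff ℝ 1 φ → HasCompactSupport φ →
      dens (onSp U) (oo t) * (∫ z, φ z ^ 2 * Real.exp (-onSp U (oo t, z))) -
        (∫ z, φ z * Real.exp (-onSp U (oo t, z))) ^ 2 ≤
      C * (k * σ + ε) * dens (onSp U) (oo t) *
        ∫ z, (∑ i, (pd (sv i) φ z) ^ 2) * Real.exp (-onSp U (oo t, z))

/-- JOB MLN. The weighted inequality with a general bound of the fibre constants (helper86 proves this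
one: it is `FIB.main_line` with `FibreP W (M om)` instead of `FibK`). -/
def S_MLN : Prop := ∃ C : ℝ, 0 < C ∧ ∀ (n : ℕ) (W : Sp 1 × Sp n → ℝ), Std W →
  ∫ t, dens W t = 1 → ∀ s M : ℝ, 0 < s → 0 ≤ M →
  (∃ c : Sp 1, ∀ a, ∫ t, (t a - c a) ^ 2 * dens W t ≤ s) →
  (∀ θ : Sp n, ∑ i, θ i ^ 2 = 1 →
    ∃ c, ∫ x, lin θ c x.2 ^ 2 * Real.exp (-W x) ∂(vol 1 n) ≤ s) →
  FibreP W (fun t => M * om W (t 0)) →
  ∀ f : Sp 1 × Sp n → ℝ, ContDiff ℝ 1 f → HasCompactSupport f → WIneq W f (C * (M + s))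

/-- JOB TLB. Tails of the first coordinate.
Proof. Choose `a < b` with `a` close to `min tc(D)` and `b` close to `max tc(D)` such that
`vol (D ∩ {tc ≤ a}) ≤ τ/2 vol D` and `vol (D ∩ {tc ≥ b}) ≤ τ/2 vol D` (as `a` decreases to the minimum
`α` the sets decrease to `D ∩ {tc = α}`, a null set; `α < β` because `D` has interior points). For the
normalised potential `W = onSp U + log ∫ exp(-U)`, `mn W u = min(G, K)(u)` is for `u ≤ a` at most
`G(u) ≤ G(a) = ∫_{tc ≤ a} exp(-U) / ∫ exp(-U)`, which tends to `vol(D ∩ {tc ≤ a}) / vol D ≤ τ/2`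
as `A → ∞` (`S_LMB` with `g` an indicator; argue with sequences), and the same for `u ≥ b`. So
`mn W u ≤ τ` for `u ∉ [a, b]`, for all large `A`. (`FIB.mn`, `FIB.LD.G`, `FIB.LD.K` in `LemA`, `OneD`;
`dens W (oo u)` integrated over `u ≤ a` is the integral over the half space: `FIB.oo_int`, Fubini and
`FIB.spl_int`.) -/
def S_TLB : Prop := ∀ (n : ℕ) (D : Set (EK 1 n)), CB D → ∀ τ : ℝ, 0 < τ → ∃ a b : ℝ, a ≤ b ∧
  (∃ x ∈ D, tc x < a) ∧ (∃ x ∈ D, b < tc x) ∧ ∃ A₀ : ℝ, 0 < A₀ ∧ ∀ A : ℝ, A₀ ≤ A →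
    ∀ U : EK 1 n → ℝ, Ap D A U → ∀ u : ℝ, u ∉ Icc a b →
      Pool.Agent.Q86.FIB.mn (fun x => onSp U x + Real.log (∫ y, Real.exp (-U y))) u ≤ τ

/-- JOB COA. Covariances of the approximations.
Proof. `S_LMB` for `g = 1, x_i, x_i x_j`: the covariance matrix of `exp(-U)` (normalised) converges to
the one of `D` entrywise, so `|θᵀ(Σ_U - Σ_D)θ| ≤ δ (∑ |θ_i|)² ≤ δ (n+1) ‖θ‖²`; argue with sequences
for the uniformity in `U`. The two conclusions are the variances of `t` and of `∑ θ_i z_i` about their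
means, for the normalised potential (`FIB.spl_int`, `FIB.fib_integral` to write the first one with `dens`:
see `var_base`, `var_fibre` in `Results/MP_8d00da_gt/OneDimensionalBase.lean`, or in the file of helper86,
`W = onSp U + log ∫ exp(-U)`), `EV D`, `VV D` of a linear function expand accordingly. -/
def S_COA : Prop := ∀ (n : ℕ) (D : Set (EK 1 n)), CB D → ∀ s : ℝ, CV D s → ∀ ε : ℝ, 0 < ε →
  ∃ A₀ : ℝ, 0 < A₀ ∧ ∀ A : ℝ, A₀ ≤ A → ∀ U : EK 1 n → ℝ, Ap D A U →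
    ∀ W : Sp 1 × Sp n → ℝ, W = (fun x => onSp U x + Real.log (∫ y, Real.exp (-U y))) →
    Std W ∧ ∫ t, dens W t = 1 ∧ (∃ c : Sp 1, ∀ a, ∫ t, (t a - c a) ^ 2 * dens W t ≤ s + ε) ∧
    ∀ θ : Sp n, ∑ i, θ i ^ 2 = 1 →
      ∃ c, ∫ x, lin θ c x.2 ^ 2 * Real.exp (-W x) ∂(vol 1 n) ≤ s + ε

/-- JOB LPB. Lipschitz functions on `D` from the approximations.
Proof. Let `f` be of class `C¹` with `‖∇ f‖ ≤ 1` on `EK 1 n`. Choose `A_j → ∞`, `A_j ≥ A₀`, and `U_j`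
(`S_MOL`). The function `f ∘ (spl 1 n).symm` has `gT + gZ = ‖∇ f‖² ≤ 1` (`FIB.grad_spl`), so by the
hypothesis its variance under the normalised `exp(-U_j)` is at most `D₀`; `S_LMB` for `f²`, `f`, `1`
(`|f x| ≤ |f 0| + ‖x‖`) gives `VV D f ≤ D₀` in the limit. Then `S_EML` for `ρ = Q188.SB.rr D`
(`LC_rr`, `mass_rr`, `int_rr`): `PI D (C D₀)`. -/
def S_LPB : Prop := ∃ C : ℝ, 1 ≤ C ∧ ∀ (n : ℕ) (D : Set (EK 1 n)), CB D → ∀ D₀ A₀ : ℝ, 0 < A₀ →
  (∀ A : ℝ, A₀ ≤ A → ∀ U : EK 1 n → ℝ, Ap D A U →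
    ∀ W : Sp 1 × Sp n → ℝ, W = (fun x => onSp U x + Real.log (∫ y, Real.exp (-U y))) →
    ∀ f : Sp 1 × Sp n → ℝ, ContDiff ℝ 1 f → (∀ x, gT f x + gZ f x ≤ 1) →
      (∫ x, f x ^ 2 * Real.exp (-W x) ∂(vol 1 n)) - (∫ x, f x * Real.exp (-W x) ∂(vol 1 n)) ^ 2 ≤
        D₀) →
  PI D (C * D₀)

/-- JOB ONE. **One step**: KLS passes from the sections over a line to the body.
Proof. Let `C₁, C₂, C₃` be the constants of `S_FBB`, `S_MLN`, `S_LPB`. Given `D`, `k ≥ 1` and `s` with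
`CV D s` (then `s > 0`: the variances of nonzero linear functions on `D` are positive; or replace `s` by
`s + ε` and let `ε → 0`). Let `M₀` be the constant of `S_CRB`. Choose `τ ∈ (0, 1)` with
`τ^(-1/4) s ≥ M₀`. `S_TLB` gives `a, b`. With `ε = s` in `S_FBB` and in `S_COA`, for all large `A` and
all `U` with `Ap D A U`, `W = onSp U + log ∫ exp(-U)` satisfies `Std`, mass one, the variance bounds with
`2 s`, `CovF W t (BB W (2 s) (t 0))` (`FIB.Std.covF`, `BB W (2s) u = 2^19 · 2 s · om W u`), and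
`FibreP W (M om)` with `M = C₁ (2^20 k + 1) s`: for `t ∈ [a, b]` from `S_FBB` with `σ = 2^20 s om ≥ 0`
(adding a constant to the potential multiplies `dens` and the integrals by a constant: both
sides of all fibre inequalities and of `CovF` are homogeneous of degree 2), as `om ≥ 1`
(`FIB.Std.om_ge`); for `t ∉ [a, b]` from `S_CRB`: `om W t = mn^(-1/4) ≥ τ^(-1/4)`, so
`M₀ ≤ s om ≤ M om`. `S_MLN` gives `WIneq W f (C₂ (M + 2 s))` for compactly supported `f`,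
`FIB.Std.ext_lip` gives the variance bound `8/3 C₂ (M + 2s)` for 1-Lipschitz `f`, and `S_LPB` gives
`PI D (C₃ · 8/3 C₂ (M + 2 s)) ` with `M + 2 s ≤ C₁ (2^20 + 3) k s`. -/
def S_ONE : Prop := ∃ C : ℝ, 1 ≤ C ∧ ∀ (n : ℕ) (D : Set (EK 1 n)), CB D → ∀ k : ℝ, 1 ≤ k →
  (∀ t : ℝ, (interior (sl D t)).Nonempty → KLSc (sl D t) k) → KLSc D (C * k)

/-! ### several base coordinates -/

/-- the point of `ℝ^m × ℝ^n` with the coordinates `t`, `z` -/
noncomputable def pm (m n : ℕ) (t : Eu (Fin m)) (z : Eu (Fin n)) : Eu (Fin m ⊕ Fin n) :=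
  WithLp.toLp 2 (Sum.elim t z)

/-- the section over `t` -/
def sm {m n : ℕ} (D : Set (Eu (Fin m ⊕ Fin n))) (t : Eu (Fin m)) : Set (Eu (Fin n)) :=
  {z | pm m n t z ∈ D}

/-- JOB IND. **KLS passes from the parallel sections of codimension `m` to the body.**
Proof. Let `C` be the constant of `S_ONE`; the claim holds with the constant `C^m k`, by induction on
`m`. `m = 0`: `sm D 0` is the image of `D` under the isometry `Fin 0 ⊕ Fin n ≃ Fin n` of the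
coordinates; `CV`, `PI` are invariant (lemma: for an equivalence `e : ι ≃ ι'` and
`E = LinearIsometryEquiv.piLpCongrLeft 2 ℝ ℝ e`, `EV (E '' D) v = EV D (v ∘ E)`, and so on). Step
`m + 1`: by the reindexing `Fin (m+1) ⊕ Fin n ≃ Fin 1 ⊕ Fin (m + n)` (the first coordinate is `t_0`, the
others are the remaining `m` base coordinates and then the `n` fibre coordinates) `D` becomes a body
`D' ⊆ EK 1 (m + n)`. For each `u` with `interior (sl D' u)` nonempty the section `sl D' u` is, after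
reindexing `Fin (m + n) ≃ Fin m ⊕ Fin n` (`finSumFinEquiv`), the body
`D_u = {y ∈ Eu (Fin m ⊕ Fin n) | (u, y) ∈ D}` (compact, convex, nonempty interior), whose sections
over `t' ∈ ℝ^m` are the sections of `D` over `(u, t')`. By induction `KLSc D_u (C^m k)`, so
`KLSc (sl D' u) (C^m k)`, and `S_ONE` gives `KLSc D' (C · C^m k)`, hence `KLSc D (C^(m+1) k)`. -/
def S_IND : Prop := ∃ C : ℝ, 1 ≤ C ∧ ∀ (m n : ℕ) (D : Set (Eu (Fin m ⊕ Fin n))), CB D → ∀ k : ℝ,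
  1 ≤ k → (∀ t : Eu (Fin m), (interior (sm D t)).Nonempty → KLSc (sm D t) k) → KLSc D (C ^ m * k)

end Pool.Agent.Q86.EM
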