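import Pool.Agent.Q86.EM.Stm2

/-!
# Correction of `S_EMP` (parentheses)
-/

set_option autoImplicit false

namespace Pool.Agent.Q86.EM

open MeasureTheory Set Filter Topology

/-- JOB EMP, corrected: in `S_EMP` the integral without parentheses swallows the subtraction. -/
def S_EMPc : Prop := ∃ C : ℝ, 0 < C ∧ ∀ (κ : Type) [Fintype κ] (g : Eu κ → ℝ), (∀ x, 0 < g x) →
  Continuous g → (∀ a b : Eu κ, ∀ t : ℝ, 0 < t → t < 1 →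
    g a ^ (1 - t) * g b ^ t ≤ g ((1 - t) • a + t • b)) →
  (Integrable fun x => (1 + ‖x‖) ^ 2 * g x) → ∫ x, g x = 1 → ∀ D : ℝ,
  (∀ f : Eu κ → ℝ, ContDiff ℝ 1 f → (∀ x, ‖fderiv ℝ f x‖ ≤ 1) →
    (∫ x, f x ^ 2 * g x) - (∫ x, f x * g x) ^ 2 ≤ D) →
  ∀ f : Eu κ → ℝ, ContDiff ℝ 1 f → HasCompactSupport f →
    (∫ x, f x ^ 2 * g x) - (∫ x, f x * g x) ^ 2 ≤ C * D * ∫ x, ‖fderiv ℝ f x‖ ^ 2 * g x

end Pool.Agent.Q86.EM
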