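import Pool.Agent.Q86.EM.Stm3
import Pool.Agent.Q73.KL.Fin
import Pool.Agent.Q237.OP.Che
import Pool.Agent.Q289.OP.Fin1

/-!
# KLS passes from parallel sections to the body: boundary measures (part III), smooth measures (part IV)

`un D` is the uniform probability measure on `D`, `bdr μ A` the boundary measure (liminf over open
neighbourhoods): `Pool/Agent/Q188/SB/Fin.lean`.
-/

set_option autoImplicit false

namespace Pool.Agent.Q86.EM

open MeasureTheory Set Filter Topology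
open scoped ENNReal InnerProductSpace ContDiff
open Pool.Agent.W695.KH (EV VV)
open Pool.Agent.Q188.SB (un bdr)
open Pool.Agent.Q86.FIB (EK)

/-- the halfspace -/
def hs {κ : Type} [Fintype κ] (u : Eu κ) (b : ℝ) : Set (Eu κ) := {x | ⟪u, x⟫_ℝ ≤ b}

/-- **Q1 of the KLS problem for the body `D`, with the constant `1 / k`** -/
def KLSh {κ : Type} [Fintype κ] (D : Set (Eu κ)) (k : ℝ) : Prop := ∀ t : ℝ≥0∞,
  (∀ (u : Eu κ) (b : ℝ), u ≠ 0 →
    t * min (un D (hs u b)) (1 - un D (hs u b)) ≤ bdr (un D) (hs u b)) →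
  ∀ A : Set (Eu κ), MeasurableSet A →
    t * min (un D A) (1 - un D A) ≤ ENNReal.ofReal k * bdr (un D) A

/-- JOB CHL. A Cheeger inequality gives exponential concentration of Lipschitz functions.
Proof. Let `φ(b) = μ{f > b}`, `μ = un D` (`un_prob`), and let `m` be a median: `μ{f > m} ≤ 1/2`,
`μ{f < m} ≤ 1/2` (`f` is bounded on `D`). As `f` is 1-Lipschitz, `thickening ε {f ≤ b} ⊆ {f ≤ b + ε}`
(even `<`), so for `b ≥ m` the hypothesis for `A = {f ≤ b}` says
`τ φ(b) ≤ liminf_{ε → 0+} (φ(b) - φ(b + ε)) / ε`. `φ` is nonincreasing and right continuous. Let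
`0 < τ' < τ` and `ψ(b) = exp(τ' b) φ(b)`: for every `b ≥ m` one has `ψ ≤ ψ(b)` on `[b, b + δ]` for some
`δ > 0` (trivial if `φ(b) = 0`), and `ψ(b) ≤ sup_{b' < b, near b} ψ(b')` up to the factor
`exp(τ' (b - b'))` because `φ` is nonincreasing. By the supremum argument on `[m, M]`
(`{b | ψ ≤ ψ(m) on [m, b]}` is closed and open to the right) `φ(m + r) ≤ 1/2 exp(-τ' r)` for all
`r ≥ 0`, and then with `τ' → τ`. The same for `-f`. Then the variance is at most
`∫ (f - m)² dμ = ∫_0^∞ 2 r μ{|f - m| > r} dr ≤ 2/τ²`. Compare `decay`, `half_mom`, `exp_mom` in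
`Pool/Agent/Q73/KL/Half.lean` (there `f` is a linear functional, so that `φ` is continuous) and the proof
of `half_VV` in `Pool/Agent/Q73/KL/Fin.lean` (for `VV` from `un D`: `Q188.SB.int_un`, `var_of_lint`). -/
def S_CHL : Prop := ∃ C : ℝ, 0 < C ∧ ∀ (κ : Type) [Fintype κ] (D : Set (Eu κ)), CB D → ∀ τ : ℝ,
  0 < τ → (∀ A : Set (Eu κ), MeasurableSet A →
    ENNReal.ofReal τ * min (un D A) (1 - un D A) ≤ bdr (un D) A) →
  ∀ f : Eu κ → ℝ, ContDiff ℝ 1 f → (∀ x, ‖fderiv ℝ f x‖ ≤ 1) → VV D f ≤ C / τ ^ 2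

/-- JOB HLF. Variances control halfspaces.
Proof. Normalise `‖u‖ = 1` (`hs u b = hs (‖u‖⁻¹ • u) (‖u‖⁻¹ b)`). Let `F(r) = μ(hs u r)`, `G = 1 - F`,
`μ = un D`. `F` is continuous (hyperplanes are null sets: `Q73.KL.hyp_null`, `Gu_cont`). `F` and `G` are
log-concave: `F((1-λ) r + λ r') ≥ F(r)^(1-λ) F(r')^λ` by Prekopa-Leindler (`Pool.Agent.Q196.GT.pl_n`,
or see `KT.V1x.pl`) for the indicator functions of `D ∩ hs u r` and so on. Let `m = ∫ ⟪u, x⟫ dμ`.
The variance is at most `s`, so by Cantelli's inequality (or directly: the second moment of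
`⟪u, x⟫ - m + a`) `F(m - 2√s) ≤ 1/5` and `G(m + 2√s) ≤ 1/5`.
The thickening of `hs u r` by `ε` is `{⟪u, x⟫ < r + ε}`, of measure `F(r + ε)` (only
`⊇ hs u (r + ε')`, `ε' < ε`, and continuity are needed). Case `F(r) ≤ 1/2`: then `r < m + 2√s =: b₀`.
`log F` is concave, so its slope on `[r, r + ε]` is at least its slope on `[r, b₀]` if
`r ≥ a₀ := m - 2√s`, which is at least `log((4/5)/(1/2)) / (4√s)`, and at least its slope on
`[a₀, b₀]`, at least `log 4 / (4√s)`, if `r < a₀`. So `F(r + ε) ≥ F(r) exp(ε log(8/5) / (4√s)) ≥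
F(r) (1 + ε log(8/5) / (4√s))` and `log(8/5) / 4 ≥ 1/10`. Case `F(r) ≥ 1/2`: the same for `-log G`, with
`1 - exp(-c ε) ≥ c ε (1 - c ε)`, and then `ε → 0`. (If `F(r)` or `G(r)` is zero there is nothing to
prove.) The constant `1/10` may be replaced by any absolute constant `c > 0`, if you prefer. -/
def S_HLF : Prop := ∃ c : ℝ, 0 < c ∧ ∀ (κ : Type) [Fintype κ] (D : Set (Eu κ)), CB D → ∀ s : ℝ,
  0 < s → CV D s → ∀ (u : Eu κ) (b : ℝ), u ≠ 0 →
    ENNReal.ofReal (c / Real.sqrt s) * min (un D (hs u b)) (1 - un D (hs u b)) ≤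
      bdr (un D) (hs u b)

/-- JOB PCH. From the Poincare form to Q1.
Proof. Exactly as `poly_half` in `Pool/Agent/Q289/OP/Fin1.lean`: for `0 < τ ≤ t` the halfspace
inequalities give `VV D ⟪x, θ⟫ ≤ 8 / τ²` for unit `θ` (`Q73.KL.half_VV`), so `CV D (8/τ²)`, so
`PI D (8 k / τ²)`, and `Q237.OP.Che.che` gives
`μ A (1 - μ A) ≤ 7 √(8k) / τ · μ⁺(A)`; `min x (1 - x) ≤ 2 x (1 - x)` (`Q289.OP.min_le_two_mul`). Then
`τ → t` (the cases `t = ⊤`, `t = 0` as there). Any absolute `C ≥ 40` works. -/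
def S_PCH : Prop := ∃ C : ℝ, 1 ≤ C ∧ ∀ (κ : Type) [Fintype κ] (D : Set (Eu κ)), CB D → ∀ k : ℝ,
  1 ≤ k → KLSc D k → KLSh D (C * Real.sqrt k)

/-- From Q1 to the Poincare form (helper86). -/
def S_CHP : Prop := ∃ C : ℝ, 1 ≤ C ∧ ∀ (κ : Type) [Fintype κ] (D : Set (Eu κ)), CB D → ∀ k : ℝ,
  1 ≤ k → KLSh D k → KLSc D (C * k ^ 2)

/-! ### smooth log-concave measures -/

/-- smooth convex potentials with derivatives of polynomial growth -/
structure Pot {κ : Type} [Fintype κ] (U : Eu κ → ℝ) : Prop where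
  htg : Function.HasTemperateGrowth U
  conv : ConvexOn ℝ univ U
  int : Integrable fun x => Real.exp (-U x)

/-- the covariance matrix of the normalised measure `exp(-U)` is at most `s` -/
def CVm {κ : Type} [Fintype κ] (U : Eu κ → ℝ) (s : ℝ) : Prop := ∀ θ : Eu κ,
  (∫ x, Real.exp (-U x)) * (∫ x, ⟪θ, x⟫_ℝ ^ 2 * Real.exp (-U x)) -
    (∫ x, ⟪θ, x⟫_ℝ * Real.exp (-U x)) ^ 2 ≤ s * ‖θ‖ ^ 2 * (∫ x, Real.exp (-U x)) ^ 2

/-- Poincare inequality for the normalised measure `exp(-U)` -/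
def PIm {κ : Type} [Fintype κ] (U : Eu κ → ℝ) (c : ℝ) : Prop :=
  ∀ f : Eu κ → ℝ, ContDiff ℝ 1 f → HasCompactSupport f →
  (∫ x, Real.exp (-U x)) * (∫ x, f x ^ 2 * Real.exp (-U x)) - (∫ x, f x * Real.exp (-U x)) ^ 2 ≤
    c * (∫ x, Real.exp (-U x)) * ∫ x, ‖fderiv ℝ f x‖ ^ 2 * Real.exp (-U x)

/-- the KLS inequality for the measure `exp(-U)`, with the constant `k` -/
def KLSm {κ : Type} [Fintype κ] (U : Eu κ → ℝ) (k : ℝ) : Prop := ∀ s : ℝ, CVm U s → PIm U (k * s)

/-- One step for smooth measures (helper86). -/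
def S_ONM : Prop := ∃ C : ℝ, 1 ≤ C ∧ ∀ (n : ℕ) (U : EK 1 n → ℝ), Pot U → ∀ k : ℝ, 1 ≤ k →
  (∀ t : ℝ, KLSm (fun z : Eu (Fin n) => U (pt n t z)) k) → KLSm U (C * k)

/-- JOB INM. KLS passes from the conditional measures given `m` coordinates to the measure.
Proof. Induction on `m` with `S_ONM`, exactly as in JOB IND (`S_IND` in `Stm2`), with the same
reindexings of the coordinates; `Pot`, `CVm`, `PIm` are invariant under the linear isometries
`LinearIsometryEquiv.piLpCongrLeft` (they preserve the volume). The restriction `z ↦ U (pt n t z)` of a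
`Pot` is a `Pot`: smoothness, convexity and temperate growth are clear (composition with an affine map);
integrability: a convex function with integrable `exp(-U)` satisfies `U x ≥ c ‖x‖ - b` with `c > 0`
(for `Std` potentials this is in `Pool/Agent/Q86/FIB/Fibre.lean`, `Growth.lean`; look for the field or
lemma with the linear lower bound), so the restrictions are integrable. -/
def S_INM : Prop := ∃ C : ℝ, 1 ≤ C ∧ ∀ (m n : ℕ) (U : Eu (Fin m ⊕ Fin n) → ℝ), Pot U → ∀ k : ℝ,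
  1 ≤ k → (∀ t : Eu (Fin m), KLSm (fun z : Eu (Fin n) => U (pm m n t z)) k) →
    KLSm U (C ^ m * k)

end Pool.Agent.Q86.EM
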