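import Pool.Agent.Q86.EM.Idn
import Pool.Agent.Results.MP_8d00da_gt.PowerSums

/-!
# Translations, and the bodies given by power sums
-/

set_option autoImplicit false

namespace Pool.Agent.Q86.EM

open MeasureTheory Set Filter Topology
open scoped ENNReal InnerProductSpace ContDiff
open Pool.Agent.Q188.SB (un bdr)

variable {κ : Type} [Fintype κ]

theorem tr_emb (a : Eu κ) : MeasurableEmbedding fun x : Eu κ => x + a :=
  (Homeomorph.addRight a).measurableEmbedding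

theorem un_tr (a : Eu κ) (D : Set (Eu κ)) (A : Set (Eu κ)) :
    un D A = un ((fun x => x + a) ⁻¹' D) ((fun x => x + a) ⁻¹' A) := by
  have h1 : volume.restrict D = (volume.restrict ((fun x : Eu κ => x + a) ⁻¹' D)).map fun x => x + a := by
    have h := (tr_emb a).restrict_map (volume : Measure (Eu κ)) D
    rwa [map_add_right_eq_self] at h
  have h2 : volume ((fun x : Eu κ => x + a) ⁻¹' D) = volume D := measure_preimage_add_right _ _ _
  unfold un
  rw [h2]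
  rw [Measure.smul_apply, Measure.smul_apply]
  congr 1
  rw [h1, (tr_emb a).map_apply]

theorem thick_tr (a : Eu κ) (A : Set (Eu κ)) (ε : ℝ) :
    (fun x : Eu κ => x + a) ⁻¹' Metric.thickening ε A =
      Metric.thickening ε ((fun x : Eu κ => x + a) ⁻¹' A) := by
  ext x
  rw [mem_preimage, Metric.mem_thickening_iff, Metric.mem_thickening_iff]
  constructor
  · rintro ⟨z, hz, h⟩
    refine ⟨z - a, ?_, ?_⟩
    · show z - a + a ∈ A
      rwa [sub_add_cancel]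
    · rw [← dist_add_right x (z - a) a, sub_add_cancel]
      exact h
  · rintro ⟨z, hz, h⟩
    refine ⟨z + a, hz, ?_⟩
    rwa [dist_add_right]

theorem bdr_tr (a : Eu κ) (D : Set (Eu κ)) (A : Set (Eu κ)) :
    bdr (un D) A = bdr (un ((fun x => x + a) ⁻¹' D)) ((fun x => x + a) ⁻¹' A) := by
  unfold bdr
  refine congrArg (fun g => Filter.liminf g (nhdsWithin 0 (Set.Ioi 0))) ?_
  funext ε
  rw [un_tr a D A, un_tr a D (Metric.thickening ε A), thick_tr]

/-- KLS is invariant under translations -/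
theorem KLSh_tr (a : Eu κ) {D : Set (Eu κ)} {k : ℝ} (h : KLSh ((fun x => x + a) ⁻¹' D) k) :
    KLSh D k := by
  intro t ht A hA
  have h1 := h t (fun u b hu => by
    have h2 := ht u (b + ⟪u, a⟫_ℝ) hu
    have e : (fun x : Eu κ => x + a) ⁻¹' hs u (b + ⟪u, a⟫_ℝ) = hs u b := by
      ext x
      show ⟪u, x + a⟫_ℝ ≤ b + ⟪u, a⟫_ℝ ↔ ⟪u, x⟫_ℝ ≤ b
      rw [inner_add_right]
      constructor <;> intro h <;> linarith
    rw [bdr_tr a, un_tr a D, e] at h2
    exact h2) ((fun x => x + a) ⁻¹' A) ((tr_emb a).measurable hA)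
  rw [← bdr_tr a, ← un_tr a] at h1
  exact h1

/-- a translate of `{∑_j |ℓ_ij|^{p_ij} ≤ 1 for all i}` -/
def PwB {n : ℕ} (q : ℕ) (S : Set (Eu (Fin n))) : Prop :=
  ∃ (a : Eu (Fin n)) (N : ℕ) (m : Fin N → ℕ) (p : ∀ i, Fin (m i) → ℝ)
    (ell : ∀ i, Fin (m i) → (Eu (Fin n) →ₗ[ℝ] ℝ)), (∀ i, 1 ≤ m i) ∧ ∑ i, m i ≤ n + q ∧
    (∀ i j, 2 ≤ p i j) ∧ S = {x | ∀ i, ∑ j, |ell i j (x - a)| ^ p i j ≤ 1}

theorem PwB_kls : ∃ C : ℝ, 1 ≤ C ∧ ∀ (n q : ℕ) (S : Set (Eu (Fin n))), 1 ≤ n →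
    Bornology.IsBounded S → PwB q S → KLSh S (C * (1 + q) ^ 2) := by
  obtain ⟨c, hc, H⟩ := Pool.Agent.Results.MP_8d00da_gt.PowerSums.result
  refine ⟨max 1 c⁻¹, le_max_left _ _, ?_⟩
  intro n q S hn hb hS
  obtain ⟨a, N, m, p, ell, h1, h2, h3, h4⟩ := hS
  refine KLSh_tr a ?_
  have e : (fun x => x + a) ⁻¹' S = Pool.Agent.Results.MP_8d00da_gt.PowerSums.powerBody p ell := by
    rw [h4]
    ext x
    show (∀ i, ∑ j, |ell i j (x + a - a)| ^ p i j ≤ 1) ↔ ∀ i, ∑ j, |ell i j x| ^ p i j ≤ 1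
    rw [add_sub_cancel_right]
  rw [e]
  have hb' : Bornology.IsBounded (Pool.Agent.Results.MP_8d00da_gt.PowerSums.powerBody p ell) := by
    rw [← e]
    obtain ⟨C, hC⟩ := Metric.isBounded_iff.1 hb
    refine Metric.isBounded_iff.2 ⟨C, fun x hx y hy => ?_⟩
    rw [← dist_add_right x y a]
    exact hC hx hy
  have key := H n q N m p ell hn h1 h2 h3 hb'
  intro t ht A hA
  have h5 : ENNReal.ofReal (c / (1 + q) ^ 2) * t * min (un _ A) (1 - un _ A) ≤ bdr (un _) A :=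
    key t ht A hA
  have hq : (0 : ℝ) < (1 + q) ^ 2 := by positivity
  have h6 : (1 : ℝ≥0∞) ≤ ENNReal.ofReal (max 1 c⁻¹ * (1 + q) ^ 2) *
      ENNReal.ofReal (c / (1 + q) ^ 2) := by
    rw [← ENNReal.ofReal_mul (by positivity), ← ENNReal.ofReal_one]
    refine ENNReal.ofReal_le_ofReal ?_
    have h7 : c⁻¹ ≤ max 1 c⁻¹ := le_max_right _ _
    calc (1 : ℝ) = c⁻¹ * (1 + q) ^ 2 * (c / (1 + q) ^ 2) := by field_simp
      _ ≤ max 1 c⁻¹ * (1 + q) ^ 2 * (c / (1 + q) ^ 2) := by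
          refine mul_le_mul_of_nonneg_right (mul_le_mul_of_nonneg_right h7 hq.le) (by positivity)
  calc t * min (un _ A) (1 - un _ A) = 1 * (t * min (un _ A) (1 - un _ A)) := (one_mul _).symm
    _ ≤ ENNReal.ofReal (max 1 c⁻¹ * (1 + q) ^ 2) * ENNReal.ofReal (c / (1 + q) ^ 2) *
        (t * min (un _ A) (1 - un _ A)) := mul_le_mul' h6 le_rfl
    _ = ENNReal.ofReal (max 1 c⁻¹ * (1 + q) ^ 2) * (ENNReal.ofReal (c / (1 + q) ^ 2) * t *
        min (un _ A) (1 - un _ A)) := by ring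
    _ ≤ _ := mul_le_mul' le_rfl h5

end Pool.Agent.Q86.EM
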